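import Mathlib

set_option autoImplicit false
open Filter Topology

namespace Pool.Agent.helper80.Univ

/-- The sequence `d` of digits `0, 1` is a `q`-expansion of the real number `x`, that is
`x = ∑ d_i q^{-i}` (the digit `d_{i+1}` of the usual numbering is `d i` here). -/
def IsExpansion (q x : ℝ) (d : ℕ → Fin 2) : Prop :=
  HasSum (fun i : ℕ => ((d i : ℕ) : ℝ) / q ^ (i + 1)) x

/-- The set of univoque bases of `x`: the bases `q ∈ (1, 2]` in which `x` has exactly one
`q`-expansion. -/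
def univoqueBases (x : ℝ) : Set ℝ := {q | 1 < q ∧ q ≤ 2 ∧ ∃! d : ℕ → Fin 2, IsExpansion q x d}

/-- The smallest univoque base function `q_s(x) = inf U(x)`. -/
noncomputable def qs (x : ℝ) : ℝ := sInf (univoqueBases x)

/-- The level set `L(q) = {x > 0 : q_s(x) = q}`. -/
def levelSet (q : ℝ) : Set ℝ := {x | 0 < x ∧ qs x = q}

/-- The largest value of `q_s` on `(0, ∞)`. -/
noncomputable def qmax : ℝ := sSup (qs '' Set.Ioi 0)

/-- Numbers with exactly one expansion in base `q`. -/
def Uq (q : ℝ) : Set ℝ := {y | ∃! d : ℕ → Fin 2, IsExpansion q y d}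

lemma mem_univoqueBases {q x : ℝ} : q ∈ univoqueBases x ↔ 1 < q ∧ q ≤ 2 ∧ x ∈ Uq q := Iff.rfl

lemma fin2_cases (b : Fin 2) : b = 0 ∨ b = 1 := by
  fin_cases b <;> simp

lemma digit_nonneg (b : Fin 2) : (0:ℝ) ≤ ((b : ℕ) : ℝ) := Nat.cast_nonneg _

lemma digit_le_one (b : Fin 2) : ((b : ℕ) : ℝ) ≤ 1 := by
  have : (b : ℕ) ≤ 1 := by omega
  exact_mod_cast this

lemma hasSum_ones {q : ℝ} (hq : 1 < q) : HasSum (fun i : ℕ => (1:ℝ) / q ^ (i + 1)) (1 / (q - 1)) := by
  have h0 : 0 < q := by linarith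
  have h1 : HasSum (fun i : ℕ => (1 / q) ^ i) (1 - 1 / q)⁻¹ :=
    hasSum_geometric_of_lt_one (by positivity) (by rw [div_lt_one h0]; exact hq)
  have h2 := h1.mul_left (1 / q)
  have h3 : (1 / q) * (1 - 1 / q)⁻¹ = 1 / (q - 1) := by
    have : q - 1 ≠ 0 := by linarith
    have hq0 : q ≠ 0 := h0.ne'
    have h4 : (1 - 1 / q) = (q - 1) / q := by field_simp
    rw [h4, inv_div]
    field_simp
  rw [h3] at h2
  refine h2.congr_fun ?_ |> fun h => h
  intro i
  rw [one_div_pow, pow_succ]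
  field_simp

lemma IsExpansion.nonneg {q y : ℝ} (hq : 1 < q) {d : ℕ → Fin 2} (h : IsExpansion q y d) : 0 ≤ y :=
  HasSum.nonneg (fun i => div_nonneg (digit_nonneg _) (by positivity)) h

lemma IsExpansion.le {q y : ℝ} (hq : 1 < q) {d : ℕ → Fin 2} (h : IsExpansion q y d) :
    y ≤ 1 / (q - 1) := by
  refine hasSum_le (fun i => ?_) h (hasSum_ones hq)
  have : 0 < q ^ (i + 1) := by positivity
  exact div_le_div_of_nonneg_right (digit_le_one _) this.le

/-- Shifting an expansion. -/
lemma IsExpansion.shift {q y : ℝ} (hq : 1 < q) {d : ℕ → Fin 2} (h : IsExpansion q y d) :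
    IsExpansion q (q * y - ((d 0 : ℕ) : ℝ)) (fun i => d (i + 1)) := by
  unfold IsExpansion at *
  have h0 : 0 < q := by linarith
  have h1 := (hasSum_nat_add_iff' 1).mpr h
  simp only [Finset.sum_range_one, zero_add, pow_one] at h1
  have h2 := h1.mul_left q
  have h3 : q * (y - ((d 0 : ℕ) : ℝ) / q) = q * y - ((d 0 : ℕ) : ℝ) := by field_simp
  rw [h3] at h2
  refine h2.congr_fun ?_ |> fun h => h
  intro i
  rw [pow_succ q (i + 1)]
  field_simp

/-- Prepending a digit. -/
lemma IsExpansion.cons {q y : ℝ} (hq : 1 < q) {d : ℕ → Fin 2} (h : IsExpansion q y d) (b : Fin 2) :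
    IsExpansion q ((((b : ℕ) : ℝ) + y) / q) (fun i => Nat.casesOn i b (fun j => d j)) := by
  unfold IsExpansion at *
  have h0 : 0 < q := by linarith
  have h2 := h.mul_left (1 / q)
  rw [← hasSum_nat_add_iff' 1]
  simp only [Finset.sum_range_one, zero_add, pow_one]
  have h3 : (((b : ℕ) : ℝ) + y) / q - ((b : ℕ) : ℝ) / q = 1 / q * y := by ring
  change HasSum (fun n => ((d n : ℕ) : ℝ) / q ^ (n + 1 + 1)) ((((b : ℕ) : ℝ) + y) / q - ((b : ℕ) : ℝ) / q)
  rw [h3]
  refine h2.congr_fun ?_ |> fun h => h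
  intro i
  rw [pow_succ q (i + 1)]
  field_simp

/-- Existence of expansions from a set closed under a digit step. -/
lemma exists_expansion_of_step {q : ℝ} (hq : 1 < q) (S : Set ℝ)
    (hS : ∀ y ∈ S, 0 ≤ y ∧ y ≤ 1 / (q - 1))
    (hstep : ∀ y ∈ S, ∃ b : Fin 2, q * y - ((b : ℕ) : ℝ) ∈ S) {x : ℝ} (hx : x ∈ S) :
    ∃ d : ℕ → Fin 2, IsExpansion q x d := by
  classical
  have h0 : 0 < q := by linarith
  choose! b hb using hstep
  let T : ℕ → ℝ := fun n => Nat.rec x (fun _ t => q * t - ((b t : ℕ) : ℝ)) n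
  have hT0 : T 0 = x := rfl
  have hTs : ∀ n, T (n + 1) = q * T n - ((b (T n) : ℕ) : ℝ) := fun n => rfl
  have hTS : ∀ n, T n ∈ S := by
    intro n
    induction n with
    | zero => exact hx
    | succ n ih => rw [hTs]; exact hb _ ih
  refine ⟨fun n => b (T n), ?_⟩
  unfold IsExpansion
  rw [hasSum_iff_tendsto_nat_of_nonneg (fun i => div_nonneg (digit_nonneg _) (by positivity))]
  have hsum : ∀ n, ∑ i ∈ Finset.range n, (((b (T i) : ℕ) : ℝ) / q ^ (i + 1)) = x - T n / q ^ n := by
    intro n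
    induction n with
    | zero => simp [hT0]
    | succ n ih =>
      rw [Finset.sum_range_succ, ih, hTs]
      have : q ^ n ≠ 0 := by positivity
      rw [pow_succ]
      field_simp
      ring
  simp_rw [hsum]
  have hlim : Tendsto (fun n => T n / q ^ n) atTop (𝓝 0) := by
    have h1 : Tendsto (fun n : ℕ => (1 / (q - 1)) * (1 / q) ^ n) atTop (𝓝 0) := by
      have := (tendsto_pow_atTop_nhds_zero_of_lt_one (r := 1 / q) (by positivity)
        (by rw [div_lt_one h0]; exact hq)).const_mul (1 / (q - 1))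
      simpa using this
    refine squeeze_zero (fun n => div_nonneg (hS _ (hTS n)).1 (by positivity)) (fun n => ?_) h1
    have hp : 0 < q ^ n := by positivity
    rw [one_div_pow, ← div_eq_mul_one_div]
    exact div_le_div_of_nonneg_right (hS _ (hTS n)).2 hp.le
  simpa using tendsto_const_nhds.sub hlim

lemma exists_expansion {q y : ℝ} (hq : 1 < q) (hq2 : q ≤ 2) (h0 : 0 ≤ y) (h1 : y ≤ 1 / (q - 1)) :
    ∃ d : ℕ → Fin 2, IsExpansion q y d := by
  have hq1 : 0 < q - 1 := by linarith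
  have hge : 1 ≤ 1 / (q - 1) := by rw [le_div_iff₀ hq1]; linarith
  refine exists_expansion_of_step hq (Set.Icc 0 (1 / (q - 1))) (fun y hy => hy) ?_ ⟨h0, h1⟩
  intro y hy
  by_cases h : 1 ≤ q * y
  · refine ⟨1, ?_, ?_⟩
    · simp; linarith
    · have : q * y ≤ q * (1 / (q - 1)) := mul_le_mul_of_nonneg_left hy.2 (by linarith)
      have h3 : q * (1 / (q - 1)) - 1 = 1 / (q - 1) := by field_simp; ring
      simp only [Fin.val_one, Nat.cast_one]
      linarith
  · push Not at h
    refine ⟨0, ?_, ?_⟩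
    · simp only [Fin.val_zero, Nat.cast_zero, sub_zero]
      exact mul_nonneg (by linarith) hy.1
    · simp only [Fin.val_zero, Nat.cast_zero, sub_zero]; linarith

/-- First digits are forced outside of the switch region. -/
lemma digit_zero_of {q y : ℝ} (hq : 1 < q) {d : ℕ → Fin 2} (h : IsExpansion q y d) (hy : q * y < 1) :
    d 0 = 0 := by
  rcases fin2_cases (d 0) with h0 | h0
  · exact h0
  · exfalso
    have := (h.shift hq).nonneg hq
    rw [h0] at this
    simp only [Fin.val_one, Nat.cast_one] at this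
    linarith

lemma digit_one_of {q y : ℝ} (hq : 1 < q) {d : ℕ → Fin 2} (h : IsExpansion q y d)
    (hy : 1 / (q - 1) < q * y) : d 0 = 1 := by
  rcases fin2_cases (d 0) with h0 | h0
  · exfalso
    have := (h.shift hq).le hq
    rw [h0] at this
    simp only [Fin.val_zero, Nat.cast_zero, sub_zero] at this
    linarith
  · exact h0

/-- Coinduction principle for univoque numbers. -/
lemma mem_Uq_of_inv {q : ℝ} (hq : 1 < q) (S : Set ℝ) (hS : ∀ y ∈ S, 0 ≤ y ∧ y ≤ 1 / (q - 1))
    (hstep : ∀ y ∈ S, (q * y ∈ S ∧ q * y < 1) ∨ (q * y - 1 ∈ S ∧ 1 / (q - 1) < q * y))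
    {x : ℝ} (hx : x ∈ S) : x ∈ Uq q := by
  obtain ⟨d, hd⟩ := exists_expansion_of_step hq S hS (fun y hy => by
    rcases hstep y hy with h | h
    · exact ⟨0, by simpa using h.1⟩
    · exact ⟨1, by simpa using h.1⟩) hx
  refine ⟨d, hd, ?_⟩
  intro e he
  have key : ∀ n : ℕ, ∀ y ∈ S, ∀ e d : ℕ → Fin 2, IsExpansion q y e → IsExpansion q y d → e n = d n := by
    intro n
    induction n with
    | zero =>
      intro y hy e d he hd
      rcases hstep y hy with h | h
      · rw [digit_zero_of hq he h.2, digit_zero_of hq hd h.2]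
      · rw [digit_one_of hq he h.2, digit_one_of hq hd h.2]
    | succ n ih =>
      intro y hy e d he hd
      have h1 := he.shift hq
      have h2 := hd.shift hq
      rcases hstep y hy with h | h
      · rw [digit_zero_of hq he h.2] at h1
        rw [digit_zero_of hq hd h.2] at h2
        simp only [Fin.val_zero, Nat.cast_zero, sub_zero] at h1 h2
        exact ih _ h.1 _ _ h1 h2
      · rw [digit_one_of hq he h.2] at h1
        rw [digit_one_of hq hd h.2] at h2
        simp only [Fin.val_one, Nat.cast_one] at h1 h2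
        exact ih _ h.1 _ _ h1 h2
  exact funext fun n => key n x hx e d he hd

lemma Uq_nonneg {q y : ℝ} (hq : 1 < q) (h : y ∈ Uq q) : 0 ≤ y := by
  obtain ⟨d, hd, _⟩ := h
  exact IsExpansion.nonneg hq hd

lemma Uq_le {q y : ℝ} (hq : 1 < q) (h : y ∈ Uq q) : y ≤ 1 / (q - 1) := by
  obtain ⟨d, hd, _⟩ := h
  exact IsExpansion.le hq hd

lemma Uq_cons_zero {q y : ℝ} (hq : 1 < q) (h : y ∈ Uq q) (hy : y < 1) : y / q ∈ Uq q := by
  have h0 : q ≠ 0 := by linarith
  obtain ⟨d, hd, hu⟩ := h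
  have hqy : q * (y / q) = y := by field_simp
  refine ⟨_, by simpa using IsExpansion.cons hq hd 0, ?_⟩
  intro e he
  have h1 := digit_zero_of hq he (by rw [hqy]; exact hy)
  have h2 := IsExpansion.shift hq he
  rw [h1, hqy] at h2
  simp only [Fin.val_zero, Nat.cast_zero, sub_zero] at h2
  have h3 := hu _ h2
  funext i
  cases i with
  | zero => exact h1
  | succ i => exact congrFun h3 i

lemma Uq_cons_one {q y : ℝ} (hq : 1 < q) (h : y ∈ Uq q) (hy : 1 / (q - 1) < 1 + y) :
    (1 + y) / q ∈ Uq q := by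
  have h0 : q ≠ 0 := by linarith
  obtain ⟨d, hd, hu⟩ := h
  have hqy : q * ((1 + y) / q) = 1 + y := by field_simp
  refine ⟨_, by simpa using IsExpansion.cons hq hd 1, ?_⟩
  intro e he
  have h1 := digit_one_of hq he (by rw [hqy]; exact hy)
  have h2 := IsExpansion.shift hq he
  rw [h1, hqy] at h2
  simp only [Fin.val_one, Nat.cast_one, add_sub_cancel_left] at h2
  have h3 := hu _ h2
  funext i
  cases i with
  | zero => exact h1
  | succ i => exact congrFun h3 i

/-- A univoque number is outside of the switch region. -/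
lemma Uq_switch {q y : ℝ} (hq : 1 < q) (hq2 : q ≤ 2) (h : y ∈ Uq q) :
    q * y < 1 ∨ 1 / (q - 1) < q * y := by
  by_contra hcon
  push Not at hcon
  have h0 : q ≠ 0 := by linarith
  have hq1 : 0 < q - 1 := by linarith
  have hge : 1 ≤ 1 / (q - 1) := by rw [le_div_iff₀ hq1]; linarith
  obtain ⟨d, hd, hu⟩ := h
  obtain ⟨e0, he0⟩ := exists_expansion hq hq2 (y := q * y) (by linarith [hcon.1]) hcon.2
  obtain ⟨e1, he1⟩ := exists_expansion hq hq2 (y := q * y - 1) (by linarith [hcon.1]) (by linarith [hcon.2])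
  have h1 := IsExpansion.cons hq he0 0
  have h2 := IsExpansion.cons hq he1 1
  simp only [Fin.val_zero, Nat.cast_zero, zero_add] at h1
  simp only [Fin.val_one, Nat.cast_one, add_sub_cancel] at h2
  have e1' : q * y / q = y := by field_simp
  rw [e1'] at h1 h2
  have h3 := (hu _ h1).trans (hu _ h2).symm
  have h4 := congrFun h3 0
  simp at h4

lemma Uq_shift_zero {q y : ℝ} (hq : 1 < q) (h : y ∈ Uq q) (hy : q * y < 1) : q * y ∈ Uq q := by
  have h0 : q ≠ 0 := by linarith
  obtain ⟨d, hd, hu⟩ := h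
  have h1 := digit_zero_of hq hd hy
  have h2 := IsExpansion.shift hq hd
  rw [h1] at h2
  simp only [Fin.val_zero, Nat.cast_zero, sub_zero] at h2
  refine ⟨_, h2, ?_⟩
  intro e he
  have h3 := IsExpansion.cons hq he 0
  simp only [Fin.val_zero, Nat.cast_zero, zero_add] at h3
  have e1' : q * y / q = y := by field_simp
  rw [e1'] at h3
  have h4 := hu _ h3
  funext i
  exact congrFun h4 (i + 1)

lemma Uq_shift_one {q y : ℝ} (hq : 1 < q) (h : y ∈ Uq q) (hy : 1 / (q - 1) < q * y) :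
    q * y - 1 ∈ Uq q := by
  have h0 : q ≠ 0 := by linarith
  obtain ⟨d, hd, hu⟩ := h
  have h1 := digit_one_of hq hd hy
  have h2 := IsExpansion.shift hq hd
  rw [h1] at h2
  simp only [Fin.val_one, Nat.cast_one] at h2
  refine ⟨_, h2, ?_⟩
  intro e he
  have h3 := IsExpansion.cons hq he 1
  simp only [Fin.val_one, Nat.cast_one, add_sub_cancel] at h3
  have e1' : q * y / q = y := by field_simp
  rw [e1'] at h3
  have h4 := hu _ h3
  funext i
  exact congrFun h4 (i + 1)

/-- Values covered by a curve of univoque numbers. -/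
lemma cover {a b : ℝ} (ha : 1 < a) (hab : a ≤ b) (hb : b ≤ 2) (f : ℝ → ℝ) (hf : ContinuousOn f (Set.Icc a b))
    {x : ℝ} (h1 : f b < x) (h2 : x < f a) (hU : ∀ q, a < q → q < b → f q = x → f q ∈ Uq q) :
    ∃ q ∈ univoqueBases x, a < q ∧ q < b := by
  have := intermediate_value_Icc' hab hf
  obtain ⟨q, hq, hqx⟩ := this ⟨h1.le, h2.le⟩
  have hqa : q ≠ a := by rintro rfl; linarith
  have hqb : q ≠ b := by rintro rfl; linarith
  have h3 : a < q := lt_of_le_of_ne hq.1 (Ne.symm hqa)
  have h4 : q < b := lt_of_le_of_ne hq.2 hqb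
  exact ⟨q, ⟨by linarith, by linarith, by rw [← hqx]; exact hU q h3 h4 hqx⟩, h3, h4⟩

lemma bddBelow_univoqueBases (x : ℝ) : BddBelow (univoqueBases x) := ⟨1, fun _ h => h.1.le⟩

lemma qs_le_of_mem {q x : ℝ} (h : q ∈ univoqueBases x) : qs x ≤ q :=
  csInf_le (bddBelow_univoqueBases x) h

lemma qs_le_two (x : ℝ) : qs x ≤ 2 := by
  by_cases h : (univoqueBases x).Nonempty
  · obtain ⟨q, hq⟩ := h
    exact (qs_le_of_mem hq).trans hq.2.1
  · rw [Set.not_nonempty_iff_eq_empty] at h
    unfold qs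
    rw [h, Real.sInf_empty]
    norm_num

lemma qs_le_qmax {x : ℝ} (hx : 0 < x) : qs x ≤ qmax := by
  refine le_csSup ⟨2, ?_⟩ ⟨x, hx, rfl⟩
  rintro _ ⟨y, _, rfl⟩
  exact qs_le_two y

end Pool.Agent.helper80.Univ
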