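import Mathlib
import Pool.Agent.helper80.Univoque

set_option autoImplicit false
open Filter Topology

namespace Pool.Agent.helper80.Univ

/-! ### Explicit univoque numbers -/

lemma ones_mem {q : ℝ} (hq : 1 < q) : 1 / (q - 1) ∈ Uq q := by
  have h1 : 0 < q - 1 := by linarith
  refine mem_Uq_of_inv hq {1 / (q - 1)} ?_ ?_ rfl
  · rintro y rfl
    exact ⟨by positivity, le_rfl⟩
  · rintro y rfl
    right
    refine ⟨?_, ?_⟩
    · show q * (1 / (q - 1)) - 1 = 1 / (q - 1)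
      field_simp; ring
    · rw [mul_one_div]
      exact div_lt_div_of_pos_right hq h1

/-- `(10)^∞` and `(01)^∞`. -/
lemma A_mem {q : ℝ} (hq : 1 < q) (h : 0 < q ^ 2 - q - 1) : q / (q ^ 2 - 1) ∈ Uq q := by
  have h1 : 0 < q - 1 := by linarith
  have h2 : 0 < q ^ 2 - 1 := by nlinarith
  have hfac : q ^ 2 - 1 = (q - 1) * (q + 1) := by ring
  have hA1 : q / (q ^ 2 - 1) < 1 := by rw [div_lt_one h2]; linarith
  have hge : (1:ℝ) / (q ^ 2 - 1) ≤ 1 / (q - 1) := by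
    refine one_div_le_one_div_of_le h1 ?_
    nlinarith
  have hsw : 1 / (q - 1) < q ^ 2 / (q ^ 2 - 1) := by
    rw [div_lt_div_iff₀ h1 h2]; nlinarith
  refine mem_Uq_of_inv hq {q / (q ^ 2 - 1), 1 / (q ^ 2 - 1)} ?_ ?_ (by simp)
  · rintro y (rfl | rfl)
    · refine ⟨by positivity, ?_⟩
      rw [div_le_div_iff₀ h2 h1]; nlinarith
    · exact ⟨by positivity, hge⟩
  · rintro y (rfl | rfl)
    · right
      refine ⟨?_, ?_⟩
      · right
        show q * (q / (q ^ 2 - 1)) - 1 = 1 / (q ^ 2 - 1)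
        field_simp; ring
      · have : q * (q / (q ^ 2 - 1)) = q ^ 2 / (q ^ 2 - 1) := by ring
        rw [this]; exact hsw
    · left
      have : q * (1 / (q ^ 2 - 1)) = q / (q ^ 2 - 1) := by ring
      rw [this]
      exact ⟨by simp, hA1⟩

lemma A_lt_one {q : ℝ} (hq : 1 < q) (h : 0 < q ^ 2 - q - 1) : q / (q ^ 2 - 1) < 1 := by
  have h2 : 0 < q ^ 2 - 1 := by nlinarith
  rw [div_lt_one h2]; linarith

/-- `0^k (10)^∞`. -/
lemma A_zeros_mem {q : ℝ} (hq : 1 < q) (h : 0 < q ^ 2 - q - 1) (k : ℕ) :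
    q / (q ^ 2 - 1) / q ^ k ∈ Uq q ∧ q / (q ^ 2 - 1) / q ^ k < 1 := by
  have h0 : 0 < q := by linarith
  have h2 : 0 < q ^ 2 - 1 := by nlinarith
  induction k with
  | zero => simpa using ⟨A_mem hq h, A_lt_one hq h⟩
  | succ k ih =>
    have e : q / (q ^ 2 - 1) / q ^ (k + 1) = (q / (q ^ 2 - 1) / q ^ k) / q := by
      rw [pow_succ q k, div_div _ (q ^ k) q]
    rw [e]
    refine ⟨Uq_cons_zero hq ih.1 ih.2, ?_⟩
    have h3 : 0 ≤ q / (q ^ 2 - 1) / q ^ k := by positivity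
    rw [div_lt_one h0]
    linarith [ih.2]

/-- `1(10)^∞`. -/
lemma oneA_mem {q : ℝ} (hq : 1 < q) (h : 0 < q ^ 2 - q - 1) : (1 + q / (q ^ 2 - 1)) / q ∈ Uq q := by
  have h1 : 0 < q - 1 := by linarith
  have h2 : 0 < q ^ 2 - 1 := by nlinarith
  refine Uq_cons_one hq (A_mem hq h) ?_
  have : 1 + q / (q ^ 2 - 1) = (q ^ 2 - 1 + q) / (q ^ 2 - 1) := by field_simp
  rw [this, div_lt_div_iff₀ h1 h2]
  nlinarith

/-- `100(10)^∞`. -/
lemma A100_mem {q : ℝ} (hq : 1 < q) (h : 0 < q ^ 2 - q - 1) (hsw : (2 - q) / (q - 1) < q / (q ^ 2 - 1) / q ^ 2) :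
    (1 + q / (q ^ 2 - 1) / q ^ 2) / q ∈ Uq q := by
  have h1 : 0 < q - 1 := by linarith
  refine Uq_cons_one hq (A_zeros_mem hq h 2).1 ?_
  have : 1 / (q - 1) = 1 + (2 - q) / (q - 1) := by field_simp; ring
  linarith

/-- `(100)^∞`. -/
lemma B_mem {q : ℝ} (hq : 1 < q) (h1 : q ^ 2 / (q ^ 3 - 1) < 1) (h2 : (2 - q) / (q - 1) < 1 / (q ^ 3 - 1)) :
    q ^ 2 / (q ^ 3 - 1) ∈ Uq q := by
  have hq1 : 0 < q - 1 := by linarith
  have h0 : 0 < q := by linarith
  have h3 : 0 < q ^ 3 - 1 := by nlinarith [mul_pos h0 h0]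
  have hk : 1 / (q - 1) = 1 + (2 - q) / (q - 1) := by field_simp; ring
  have hge : 1 ≤ 1 / (q - 1) ∨ True := Or.inr trivial
  have e1 : q * (q ^ 2 / (q ^ 3 - 1)) = 1 + 1 / (q ^ 3 - 1) := by field_simp; ring
  have e2 : q * (1 / (q ^ 3 - 1)) = q / (q ^ 3 - 1) := by ring
  have e3 : q * (q / (q ^ 3 - 1)) = q ^ 2 / (q ^ 3 - 1) := by ring
  have hle1 : 1 / (q ^ 3 - 1) ≤ q / (q ^ 3 - 1) := by
    rw [div_le_div_iff_of_pos_right h3]; linarith
  have hle2 : q / (q ^ 3 - 1) ≤ q ^ 2 / (q ^ 3 - 1) := by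
    rw [div_le_div_iff_of_pos_right h3]; nlinarith
  have hle3 : q ^ 2 / (q ^ 3 - 1) ≤ 1 / (q - 1) := by
    rw [div_le_div_iff₀ h3 hq1]; nlinarith
  refine mem_Uq_of_inv hq {q ^ 2 / (q ^ 3 - 1), q / (q ^ 3 - 1), 1 / (q ^ 3 - 1)} ?_ ?_ (by simp)
  · rintro y (rfl | rfl | rfl)
    · exact ⟨by positivity, hle3⟩
    · exact ⟨by positivity, hle2.trans hle3⟩
    · exact ⟨by positivity, hle1.trans (hle2.trans hle3)⟩
  · rintro y (rfl | rfl | rfl)
    · right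
      refine ⟨?_, ?_⟩
      · rw [e1]; right; right; show 1 + 1 / (q ^ 3 - 1) - 1 = 1 / (q ^ 3 - 1); ring
      · rw [e1, hk]; linarith
    · left
      rw [e3]
      exact ⟨by simp, h1⟩
    · left
      rw [e2]
      exact ⟨by simp, lt_of_le_of_lt hle2 h1⟩

/-- `(1001)^∞`. -/
lemma C_mem {q : ℝ} (hq : 1 < q) (h1 : (q ^ 3 + q ^ 2) / (q ^ 4 - 1) < 1)
    (h2 : (2 - q) / (q - 1) < (q + 1) / (q ^ 4 - 1)) :
    (q ^ 3 + 1) / (q ^ 4 - 1) ∈ Uq q := by
  have hq1 : 0 < q - 1 := by linarith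
  have h0 : 0 < q := by linarith
  have hq2 : 1 < q ^ 2 := by nlinarith
  have h3 : 0 < q ^ 4 - 1 := by nlinarith
  have hk : 1 / (q - 1) = 1 + (2 - q) / (q - 1) := by field_simp; ring
  have hfac : q ^ 4 - 1 = (q - 1) * (q ^ 3 + q ^ 2 + q + 1) := by ring
  have hq3 : 1 < q ^ 3 := by nlinarith
  have e1 : q * ((q ^ 3 + 1) / (q ^ 4 - 1)) = 1 + (q + 1) / (q ^ 4 - 1) := by field_simp; ring
  have e2 : q * ((q + 1) / (q ^ 4 - 1)) = (q ^ 2 + q) / (q ^ 4 - 1) := by ring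
  have e3 : q * ((q ^ 2 + q) / (q ^ 4 - 1)) = (q ^ 3 + q ^ 2) / (q ^ 4 - 1) := by ring
  have e4 : q * ((q ^ 3 + q ^ 2) / (q ^ 4 - 1)) = 1 + (q ^ 3 + 1) / (q ^ 4 - 1) := by field_simp; ring
  have hle : ∀ t, t ≤ q ^ 3 + q ^ 2 + q + 1 → t / (q ^ 4 - 1) ≤ 1 / (q - 1) := by
    intro t ht
    rw [div_le_div_iff₀ h3 hq1, hfac]
    nlinarith
  have hmono : (q + 1) / (q ^ 4 - 1) ≤ (q ^ 3 + 1) / (q ^ 4 - 1) := by
    rw [div_le_div_iff_of_pos_right h3]; nlinarith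
  refine mem_Uq_of_inv hq {(q ^ 3 + 1) / (q ^ 4 - 1), (q + 1) / (q ^ 4 - 1), (q ^ 2 + q) / (q ^ 4 - 1),
    (q ^ 3 + q ^ 2) / (q ^ 4 - 1)} ?_ ?_ (by simp)
  · rintro y (rfl | rfl | rfl | rfl)
    · exact ⟨by positivity, hle _ (by nlinarith)⟩
    · exact ⟨by positivity, hle _ (by nlinarith)⟩
    · exact ⟨by positivity, hle _ (by nlinarith)⟩
    · exact ⟨by positivity, hle _ (by nlinarith)⟩
  · rintro y (rfl | rfl | rfl | rfl)
    · right
      rw [e1]
      refine ⟨?_, ?_⟩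
      · have : 1 + (q + 1) / (q ^ 4 - 1) - 1 = (q + 1) / (q ^ 4 - 1) := by ring
        rw [this]; simp
      · rw [hk]; linarith
    · left
      rw [e2]
      refine ⟨by simp, lt_of_le_of_lt ?_ h1⟩
      rw [div_le_div_iff_of_pos_right h3]; nlinarith
    · left
      rw [e3]
      exact ⟨by simp, h1⟩
    · right
      rw [e4]
      refine ⟨?_, ?_⟩
      · have : 1 + (q ^ 3 + 1) / (q ^ 4 - 1) - 1 = (q ^ 3 + 1) / (q ^ 4 - 1) := by ring
        rw [this]; simp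
      · rw [hk]; linarith

/-! ### The family `(110)^k (111000)^∞` -/

/-- value of `(111000)^∞` -/
noncomputable def hh (q : ℝ) : ℝ := q ^ 3 / ((q - 1) * (q ^ 3 + 1))

/-- value of `(110)^∞` -/
noncomputable def mm (q : ℝ) : ℝ := (q ^ 2 + q) / (q ^ 3 - 1)

/-- value of `(110)^k (111000)^∞` -/
noncomputable def MM (k : ℕ) (q : ℝ) : ℝ := mm q + (hh q - mm q) / q ^ (3 * k)

/-- power bounds on `[1.8668, 1.872]` -/
structure PB (q : ℝ) : Prop where
  l1 : 1.8668 ≤ q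
  u1 : q ≤ 1.872
  l2 : 3.4849 ≤ q ^ 2
  u2 : q ^ 2 ≤ 3.5044
  l3 : 6.5056 ≤ q ^ 3
  u3 : q ^ 3 ≤ 6.5603

lemma PB.mk' {q : ℝ} (h1 : 1.8668 ≤ q) (h2 : q ≤ 1.872) : PB q := by
  have hq2l : (1.8668:ℝ) ^ 2 ≤ q ^ 2 := pow_le_pow_left₀ (by norm_num) h1 2
  have hq2u : q ^ 2 ≤ (1.872:ℝ) ^ 2 := pow_le_pow_left₀ (by linarith) h2 2
  have hq3l : (1.8668:ℝ) ^ 3 ≤ q ^ 3 := pow_le_pow_left₀ (by norm_num) h1 3
  have hq3u : q ^ 3 ≤ (1.872:ℝ) ^ 3 := pow_le_pow_left₀ (by linarith) h2 3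
  norm_num at hq2l hq2u hq3l hq3u
  exact ⟨h1, h2, by norm_num; linarith, by norm_num; linarith, by norm_num; linarith, by norm_num; linarith⟩

lemma hh_lt_one {q : ℝ} (h1 : 1.8668 ≤ q) : hh q < 1 := by
  have hd : 0 < (q - 1) * (q ^ 3 + 1) := by
    have : 0 < q - 1 := by linarith
    positivity
  unfold hh
  rw [div_lt_one hd]
  have : 0 < q ^ 4 - 2 * q ^ 3 + q - 1 := by
    obtain ⟨u, hu, rfl⟩ : ∃ u : ℝ, 0 ≤ u ∧ q = 1.8668 + u := ⟨q - 1.8668, by linarith, by ring⟩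
    nlinarith [mul_nonneg hu hu, mul_nonneg (mul_nonneg hu hu) hu,
      mul_nonneg (mul_nonneg hu hu) (mul_nonneg hu hu)]
  nlinarith

lemma hh_eq {q : ℝ} (hq : 1 < q) : q ^ 3 * hh q - q ^ 2 - q - 1 = hh q / q ^ 3 := by
  have h0 : 0 < q := by linarith
  have h1 : q - 1 ≠ 0 := by linarith
  have h2 : q ^ 3 + 1 ≠ 0 := by positivity
  unfold hh
  field_simp
  ring

lemma hh_add {q : ℝ} (hq : 1 < q) : hh q + hh q / q ^ 3 = 1 / (q - 1) := by
  have h0 : 0 < q := by linarith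
  have h1 : q - 1 ≠ 0 := by linarith
  have h2 : q ^ 3 + 1 ≠ 0 := by positivity
  unfold hh
  field_simp

/-- `(111000)^∞` is univoque. -/
lemma hh_mem {q : ℝ} (hq : 1.8668 ≤ q) (hq2 : q ≤ 2) : hh q ∈ Uq q := by
  have hq1 : 1 < q := by linarith
  have h0 : 0 < q := by linarith
  have hlt := hh_lt_one hq
  have hadd := hh_add hq1
  have heq := hh_eq hq1
  set h := hh q with hh'
  set r := h / q ^ 3 with hr
  have hq3 : 0 < q ^ 3 := by positivity
  have hhpos : 0 < h := by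
    rw [hh']; unfold hh
    have : 0 < q - 1 := by linarith
    positivity
  have hrpos : 0 < r := by positivity
  have hqr : q ^ 3 * r = h := by rw [hr]; field_simp
  -- chain of values
  have e1 : q * (q * (q * h - 1) - 1) - 1 = r := by rw [← heq]; ring
  have hqr1 : r ≤ q * r := by nlinarith
  have hqr2 : q * r ≤ q * (q * r) := by nlinarith
  have hqr3 : q * (q * (q * r)) = h := by rw [← hqr]; ring
  have hqr4 : q * (q * r) ≤ h := by nlinarith [mul_pos h0 (mul_pos h0 hrpos)]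
  have hk : 1 / (q - 1) < 1 + r := by linarith
  -- h1 = q h - 1, h2 = q h1 - 1, r = q h2 - 1
  have hle : (1:ℝ) ≤ 1 / (q - 1) := by
    rw [le_div_iff₀ (by linarith)]; linarith
  have f2 : q * (q * (q * h - 1) - 1) = 1 + r := by linarith
  have g2 : q * (q * h - 1) - 1 = (1 + r) / q := by rw [← f2]; field_simp
  have hr1 : r < 1 := by linarith [hqr1, hqr2, hqr4]
  have g2r : r < (1 + r) / q := by
    rw [lt_div_iff₀ h0]
    -- r q < 1 + r
    nlinarith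
  have g1 : q * h - 1 = (1 + (1 + r) / q) / q := by rw [← g2]; field_simp; ring
  have g1r : (1 + r) / q < (1 + (1 + r) / q) / q := by
    rw [div_lt_div_iff_of_pos_right h0]; linarith
  have gle2 : (1 + r) / q ≤ 1 / (q - 1) := by
    rw [div_le_div_iff₀ h0 (by linarith)]
    nlinarith
  have gle1 : (1 + (1 + r) / q) / q ≤ 1 / (q - 1) := by
    rw [div_le_iff₀ h0]
    have : 1 / (q - 1) * q = 1 + 1 / (q - 1) := by
      have : q - 1 ≠ 0 := by linarith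
      field_simp; ring
    linarith
  refine mem_Uq_of_inv hq1 {h, q * h - 1, q * (q * h - 1) - 1, r, q * r, q * (q * r)} ?_ ?_ (by simp)
  · rintro y (rfl | rfl | rfl | rfl | rfl | rfl)
    · exact ⟨hhpos.le, by linarith⟩
    · rw [g1]; exact ⟨by positivity, gle1⟩
    · rw [g2]; exact ⟨by positivity, gle2⟩
    · exact ⟨hrpos.le, by linarith⟩
    · exact ⟨by positivity, by linarith⟩
    · exact ⟨by positivity, by linarith⟩
  · rintro y (rfl | rfl | rfl | rfl | rfl | rfl)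
    · right
      exact ⟨by simp, by linarith [g1, g1r, g2r]⟩
    · right
      exact ⟨by simp, by linarith [g2, g2r]⟩
    · right
      rw [e1]
      exact ⟨by simp, by linarith⟩
    · left
      exact ⟨by simp, by linarith⟩
    · left
      exact ⟨by simp, by linarith⟩
    · left
      rw [hqr3]
      exact ⟨by simp, hlt⟩

lemma mm_eq {q : ℝ} (hq : 1 < q) : mm q = (1 + (1 + mm q / q) / q) / q := by
  have h0 : 0 < q := by linarith
  have h1 : q ^ 3 - 1 ≠ 0 := by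
    have : 1 < q ^ 3 := one_lt_pow₀ hq (by norm_num)
    linarith
  unfold mm
  field_simp
  ring

lemma MM_succ {q : ℝ} (hq : 1 < q) (k : ℕ) : MM (k + 1) q = (1 + (1 + MM k q / q) / q) / q := by
  have h0 : q ≠ 0 := by linarith
  have h := mm_eq hq
  unfold MM
  set m := mm q
  have e : q ^ (3 * (k + 1)) = q ^ (3 * k) * q ^ 3 := by rw [← pow_add]; ring_nf
  rw [e]
  have hp : q ^ (3 * k) ≠ 0 := pow_ne_zero _ h0
  have h2 : (1 + (1 + (m + (hh q - m) / q ^ (3 * k)) / q) / q) / q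
      = (1 + (1 + m / q) / q) / q + (hh q - m) / (q ^ (3 * k) * q ^ 3) := by
    field_simp
    ring
  rw [h2, ← h]

lemma mm_bounds {q : ℝ} (h : PB q) : 0.96 ≤ mm q ∧ mm q < 1 := by
  obtain ⟨l1, u1, l2, u2, l3, u3⟩ := h
  have hd : 0 < q ^ 3 - 1 := by linarith
  unfold mm
  constructor
  · rw [le_div_iff₀ hd]; linarith
  · rw [div_lt_one hd]; linarith

/-- difference `h - m` -/
lemma DD_eq {q : ℝ} (hq : 1 < q) : hh q - mm q = (q ^ 3 - q ^ 2 - q) / (q ^ 6 - 1) := by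
  have h0 : 0 < q := by linarith
  have h3 : 1 < q ^ 3 := one_lt_pow₀ hq (by norm_num)
  have h6 : 1 < q ^ 6 := one_lt_pow₀ hq (by norm_num)
  have h1 : q - 1 ≠ 0 := by linarith
  have h2 : q ^ 3 - 1 ≠ 0 := by linarith
  have h4 : q ^ 3 + 1 ≠ 0 := by positivity
  have h5 : q ^ 6 - 1 ≠ 0 := by linarith
  have e1 : q ^ 3 - 1 = (q - 1) * (q ^ 2 + q + 1) := by ring
  have e6 : q ^ 6 - 1 = (q - 1) * (q ^ 2 + q + 1) * (q ^ 3 + 1) := by ring
  have h7 : q ^ 2 + q + 1 ≠ 0 := by positivity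
  unfold hh mm
  rw [e6, e1]
  field_simp
  ring

lemma DD_pos {q : ℝ} (h : PB q) : 0 < hh q - mm q := by
  have hq : 1 < q := by linarith [h.l1]
  rw [DD_eq hq]
  have h6 : 1 < q ^ 6 := one_lt_pow₀ hq (by norm_num)
  refine div_pos ?_ (by linarith)
  linarith [h.l3, h.u2, h.u1]

lemma MM_bounds {q : ℝ} (h : PB q) (k : ℕ) : 0.96 ≤ MM k q ∧ MM k q < 1 := by
  have hq : 1 < q := by linarith [h.l1]
  have h1 := mm_bounds h
  have h2 := DD_pos h
  have h3 : 1 ≤ q ^ (3 * k) := one_le_pow₀ hq.le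
  have h4 : (hh q - mm q) / q ^ (3 * k) ≤ hh q - mm q := div_le_self h2.le h3
  have h5 : 0 ≤ (hh q - mm q) / q ^ (3 * k) := by positivity
  have h6 := hh_lt_one h.l1
  unfold MM
  constructor
  · linarith
  · linarith

lemma MM_mem {q : ℝ} (h : PB q) (k : ℕ) : MM k q ∈ Uq q := by
  have hq : 1 < q := by linarith [h.l1]
  have h0 : 0 < q := by linarith
  have hk : 1 / (q - 1) ≤ 1.16 := by
    rw [div_le_iff₀ (by linarith)]; linarith [h.l1]
  induction k with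
  | zero =>
    have : MM 0 q = hh q := by unfold MM; simp
    rw [this]
    exact hh_mem h.l1 (by linarith [h.u1])
  | succ k ih =>
    obtain ⟨b1, b2⟩ := MM_bounds h k
    rw [MM_succ hq]
    have c1 := Uq_cons_zero hq ih b2
    have c2 : 0.5 ≤ MM k q / q := by
      rw [le_div_iff₀ h0]; linarith [h.u1]
    have c3 := Uq_cons_one hq c1 (by linarith)
    refine Uq_cons_one hq c3 ?_
    have : 0.5 ≤ (1 + MM k q / q) / q := by
      rw [le_div_iff₀ h0]; linarith [h.u1]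
    linarith

/-- value of `1001000(110)^k(111000)^∞` -/
noncomputable def XX (k : ℕ) (q : ℝ) : ℝ := 1 / q + (1 + MM k q / q ^ 3) / q ^ 4

/-- the lower barrier -/
noncomputable def gg (q : ℝ) : ℝ := 1 / q + 1 / (q ^ 4 * (q - 1))

lemma XX_mem {q : ℝ} (h : PB q) (k : ℕ) (hc : gg q < XX k q) : XX k q ∈ Uq q := by
  have hq : 1 < q := by linarith [h.l1]
  have h0 : 0 < q := by linarith
  have hq1 : 0 < q - 1 := by linarith
  obtain ⟨b1, b2⟩ := MM_bounds h k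
  have hM0 : 0 < MM k q := by linarith
  have c0 := MM_mem h k
  have c1 := Uq_cons_zero hq c0 b2
  have d1 : MM k q / q < 1 := by rw [div_lt_one h0]; linarith
  have c2 := Uq_cons_zero hq c1 d1
  have d2 : MM k q / q / q < 1 := by rw [div_lt_one h0]; linarith
  have c3 := Uq_cons_zero hq c2 d2
  set Z := MM k q / q / q / q with hZ
  have hZ3 : MM k q / q ^ 3 = Z := by rw [hZ]; field_simp
  have hX : XX k q = (1 + (1 + Z) / q / q / q) / q := by
    unfold XX; rw [hZ3]; field_simp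
  have hcrit : 1 / (q - 1) < 1 + Z := by
    rw [hX] at hc
    unfold gg at hc
    have e : 1 / q + 1 / (q ^ 4 * (q - 1)) = (1 + (1 / (q - 1)) / q / q / q) / q := by field_simp
    rw [e, div_lt_div_iff_of_pos_right h0, add_lt_add_iff_left, div_lt_div_iff_of_pos_right h0,
      div_lt_div_iff_of_pos_right h0, div_lt_div_iff_of_pos_right h0] at hc
    exact hc
  have c4 := Uq_cons_one hq c3 hcrit
  have hZ1 : Z < 0.2 := by
    rw [← hZ3, div_lt_iff₀ (by positivity)]; linarith [h.l3]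
  have hZ0 : 0 < Z := by rw [hZ]; positivity
  have d4 : (1 + Z) / q < 1 := by rw [div_lt_one h0]; linarith [h.l1]
  have c5 := Uq_cons_zero hq c4 d4
  have d5 : (1 + Z) / q / q < 1 := by rw [div_lt_one h0]; linarith
  have c6 := Uq_cons_zero hq c5 d5
  rw [hX]
  refine Uq_cons_one hq c6 ?_
  -- 1/(q-1) < 1 + (1+Z)/q^3
  have e1 : (1 + Z) / q / q / q = (1 + Z) / q ^ 3 := by field_simp
  rw [e1]
  have h3 : 0 < q ^ 3 := by positivity
  have e2 : 1 / (q - 1) - 1 < 1 / (q - 1) / q ^ 3 := by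
    rw [lt_div_iff₀ h3]
    have e3 : (1 / (q - 1) - 1) * q ^ 3 = (2 - q) * q ^ 3 / (q - 1) := by field_simp; ring
    rw [e3, div_lt_div_iff_of_pos_right hq1]
    nlinarith [h.l1, h.u3, h.l3]
  have e4 : 1 / (q - 1) / q ^ 3 < (1 + Z) / q ^ 3 := by
    rw [div_lt_div_iff_of_pos_right h3]; exact hcrit
  linarith

end Pool.Agent.helper80.Univ
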