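import Mathlib
import Pool.Agent.helper80.UnivNum

set_option autoImplicit false
open Filter Topology

namespace Pool.Agent.helper80.Univ

/-- `1/φ` -/
noncomputable def psi : ℝ := (Real.sqrt 5 - 1) / 2

lemma sqrt5_sq : Real.sqrt 5 ^ 2 = 5 := Real.sq_sqrt (by norm_num)

lemma sqrt5_bounds : 2.2360679 < Real.sqrt 5 ∧ Real.sqrt 5 < 2.2360680 := by
  constructor
  · exact Real.lt_sqrt_of_sq_lt (by norm_num)
  · rw [Real.sqrt_lt' (by norm_num)]; norm_num

lemma psi_sq : psi ^ 2 + psi = 1 := by
  unfold psi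
  have := sqrt5_sq
  nlinarith

lemma psi_bounds : 0.61803395 < psi ∧ psi < 0.618034 := by
  unfold psi
  have := sqrt5_bounds
  constructor <;> linarith [this.1, this.2]

lemma gg_anti {p q : ℝ} (hp : 1 < p) (hpq : p < q) : gg q < gg p := by
  unfold gg
  have h0 : 0 < p := by linarith
  have h1 : 1 / q < 1 / p := one_div_lt_one_div_of_lt h0 hpq
  have h2 : p ^ 4 * (p - 1) < q ^ 4 * (q - 1) := by
    have : p ^ 4 < q ^ 4 := pow_lt_pow_left₀ hpq h0.le (by norm_num)
    have h3 : 0 < p - 1 := by linarith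
    have h4 : 0 < p ^ 4 := by positivity
    nlinarith
  have h3 : 1 / (q ^ 4 * (q - 1)) < 1 / (p ^ 4 * (p - 1)) := by
    refine one_div_lt_one_div_of_lt ?_ h2
    have : 0 < p - 1 := by linarith
    positivity
  linarith

lemma gg_anti_le {p q : ℝ} (hp : 1 < p) (hpq : p ≤ q) : gg q ≤ gg p := by
  rcases eq_or_lt_of_le hpq with h | h
  · rw [h]
  · exact (gg_anti hp h).le

/-- No nontrivial univoque numbers below the golden ratio. -/
lemma not_mem_of_small {q x : ℝ} (hq : 1 < q) (hq2 : q ≤ 2) (h : q ^ 2 - q - 1 ≤ 0) (hx0 : 0 < x)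
    (hx1 : x < 1) : x ∉ Uq q := by
  intro hx
  have h1 : 0 < q - 1 := by linarith
  have h0 : 0 < q := by linarith
  have key : ∀ n : ℕ, q ^ n * x ∈ Uq q ∧ q ^ n * x < 1 := by
    intro n
    induction n with
    | zero => simpa using ⟨hx, hx1⟩
    | succ n ih =>
      have e : q ^ (n + 1) * x = q * (q ^ n * x) := by rw [pow_succ]; ring
      rw [e]
      have hlt : q * (q ^ n * x) < 1 := by
        rcases Uq_switch hq hq2 ih.1 with h' | h'
        · exact h'
        · exfalso
          -- q y > 1/(q-1), y < 1 -> q (q-1) > 1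
          rw [div_lt_iff₀ h1] at h'
          have hy0 : 0 ≤ q ^ n * x := by positivity
          nlinarith [ih.2, mul_nonneg hy0 (by linarith : (0:ℝ) ≤ 1 - (q ^ 2 - q))]
      exact ⟨Uq_shift_zero hq ih.1 hlt, hlt⟩
  obtain ⟨n, hn⟩ := pow_unbounded_of_one_lt (1 / x) hq
  have := (key n).2
  rw [div_lt_iff₀ hx0] at hn
  linarith

/-- The lower barrier: if `q` is a univoque base of `x ∈ [1/φ, 0.66]` then `g(q) < x`. -/
lemma lower {q x : ℝ} (hq : 1 < q) (hq2 : q ≤ 1.9) (hx0 : psi ≤ x) (hx1 : x ≤ 0.65)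
    (hx : x ∈ Uq q) : gg q < x := by
  have hq2' : q ≤ 2 := by linarith
  have h1 : 0 < q - 1 := by linarith
  have h0 : 0 < q := by linarith
  have hpb := psi_bounds
  have hpsq := psi_sq
  have hpos : 0 < x := by linarith [hpb.1]
  have hgold : 0 < q ^ 2 - q - 1 := by
    by_contra hcon
    push Not at hcon
    exact not_mem_of_small hq hq2' hcon hpos (by linarith) hx
  -- q > φ : q ψ > 1
  have hqpsi : 1 < q * psi := by
    -- (q - φ)(q + ψ) > 0
    have : 0 < (q - (1 + psi)) * (q + psi) := by nlinarith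
    have h2 : 0 < q + psi := by linarith [hpb.1]
    have h3 : 0 < q - (1 + psi) := by
      by_contra hcon
      push Not at hcon
      nlinarith [mul_nonneg (by linarith : (0:ℝ) ≤ -(q - (1 + psi))) h2.le]
    nlinarith
  have hqx : 1 < q * x := by nlinarith
  -- first digit one
  have s1 : 1 / (q - 1) < q * x := by
    rcases Uq_switch hq hq2' hx with h | h
    · linarith
    · exact h
  have u1 := Uq_shift_one hq hx s1
  set T := q * x - 1 with hT
  have hTpos : 0 < T := by linarith
  have b1 : q ^ 2 * T < 1 := by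
    -- q^2 (q x - 1) ≤ q^2 (0.65 q - 1) ≤ 1
    have : q ^ 2 * T ≤ 1.9 ^ 2 * (1.9 * 0.65 - 1) := by
      have e1 : q ^ 2 ≤ 1.9 ^ 2 := pow_le_pow_left₀ h0.le hq2 2
      have e2 : T ≤ 1.9 * 0.65 - 1 := by
        rw [hT]; nlinarith
      exact mul_le_mul e1 e2 hTpos.le (by norm_num)
    norm_num at this
    linarith
  have b0 : q * T < 1 := by nlinarith
  have u2 := Uq_shift_zero hq u1 b0
  have b1' : q * (q * T) < 1 := by nlinarith
  have u3 := Uq_shift_zero hq u2 b1'
  have e3 : q * (q * (q * T)) = q ^ 3 * T := by ring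
  have key : 1 ≤ q ^ 3 * T := by
    set t := q ^ 2 - q - (1 + psi) with ht
    by_cases hcase : 0 ≤ t
    · -- q^3 (q ψ - 1) ≥ 1
      have hTψ : q * psi - 1 ≤ T := by rw [hT]; nlinarith
      have hq3 : 0 < q ^ 3 := by positivity
      have : 1 ≤ q ^ 3 * (q * psi - 1) := by
        -- identity
        have hq2e : q ^ 2 = q + (1 + psi) + t := by rw [ht]; ring
        have hψ2 : psi ^ 2 = 1 - psi := by linarith
        have e : q ^ 3 * (q * psi - 1) = t * (2 * psi - 1) * q + (1 + psi * t) * (1 + t) := by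
          have hq3e : q ^ 3 = (2 + psi + t) * q + (1 + psi + t) := by
            calc q ^ 3 = q * q ^ 2 := by ring
              _ = q * (q + (1 + psi) + t) := by rw [hq2e]
              _ = q ^ 2 + (1 + psi + t) * q := by ring
              _ = _ := by rw [hq2e]; ring
          have hq4e : q ^ 3 * q = ((2 + psi + t) + (1 + psi + t)) * q + (2 + psi + t) * (1 + psi + t) := by
            calc q ^ 3 * q = (2 + psi + t) * q ^ 2 + (1 + psi + t) * q := by rw [hq3e]; ring
              _ = _ := by rw [hq2e]; ring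
          have : q ^ 3 * (q * psi - 1) = psi * (q ^ 3 * q) - q ^ 3 := by ring
          rw [this, hq4e, hq3e]
          have hψ3 : psi ^ 3 = psi - psi ^ 2 := by
            calc psi ^ 3 = psi * psi ^ 2 := by ring
              _ = psi * (1 - psi) := by rw [hψ2]
              _ = _ := by ring
          ring_nf
          rw [hψ3, hψ2]
          ring
        rw [e]
        have h5 : 0 ≤ t * (2 * psi - 1) * q := by
          have : 0 ≤ 2 * psi - 1 := by linarith [hpb.1]
          positivity
        have h6 : 0 ≤ psi * t := mul_nonneg (by linarith [hpb.1]) hcase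
        nlinarith
      calc 1 ≤ q ^ 3 * (q * psi - 1) := this
        _ ≤ q ^ 3 * T := by gcongr
    · push Not at hcase
      -- q^3 (1/(q-1) - 1) ≥ 1
      have hTk : 1 / (q - 1) - 1 < T := by rw [hT]; linarith
      have hq3 : 0 < q ^ 3 := by positivity
      have : 1 ≤ q ^ 3 * (1 / (q - 1) - 1) := by
        have e4 : q ^ 3 * (1 / (q - 1) - 1) = q ^ 3 * (2 - q) / (q - 1) := by field_simp; ring
        rw [e4, le_div_iff₀ h1, one_mul]
        -- 2q^3 - q^4 - q + 1 = s (2φ - 1 - s), s = -t
        set s := -t with hs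
        have hq2e : q ^ 2 = q + (1 + psi) - s := by rw [hs, ht]; ring
        have hψ2 : psi ^ 2 = 1 - psi := by linarith
        have hq3e : q ^ 3 = (2 + psi - s) * q + (1 + psi - s) := by
          calc q ^ 3 = q * q ^ 2 := by ring
            _ = q * (q + (1 + psi) - s) := by rw [hq2e]
            _ = q ^ 2 + (1 + psi - s) * q := by ring
            _ = _ := by rw [hq2e]; ring
        have hq4e : q ^ 3 * q = ((2 + psi - s) + (1 + psi - s)) * q + (2 + psi - s) * (1 + psi - s) := by
          calc q ^ 3 * q = (2 + psi - s) * q ^ 2 + (1 + psi - s) * q := by rw [hq3e]; ring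
            _ = _ := by rw [hq2e]; ring
        have e5 : q ^ 3 * (2 - q) - (q - 1) = s * (1 + 2 * psi - s) := by
          have : q ^ 3 * (2 - q) - (q - 1) = 2 * q ^ 3 - q ^ 3 * q - q + 1 := by ring
          rw [this, hq4e, hq3e]
          ring_nf
          rw [hψ2]
          ring
        have hs0 : 0 < s := by linarith
        have hs1 : s < 1 + 2 * psi := by
          have : s = 1 + psi - (q ^ 2 - q) := by rw [hs, ht]; ring
          have h7 : 0 < q ^ 2 - q := by nlinarith
          linarith [hpb.1]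
        nlinarith [mul_pos hs0 (sub_pos.mpr hs1)]
      calc 1 ≤ q ^ 3 * (1 / (q - 1) - 1) := this
        _ ≤ q ^ 3 * T := by gcongr
  have s4 : 1 / (q - 1) < q ^ 3 * T := by
    rcases Uq_switch hq hq2' u3 with h | h
    · rw [e3] at h; linarith
    · rw [e3] at h; exact h
  -- conclude
  have e6 : gg q = (1 + (1 / (q - 1)) / q ^ 3) / q := by
    unfold gg; field_simp
  rw [e6, div_lt_iff₀ h0]
  have : 1 / (q - 1) / q ^ 3 < T := by
    rw [div_lt_iff₀ (by positivity)]; linarith
  have e7 : x * q = 1 + T := by rw [hT]; ring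
  linarith

end Pool.Agent.helper80.Univ
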