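import Mathlib
import Pool.Agent.helper80.UnivLower

set_option autoImplicit false
open Filter Topology

namespace Pool.Agent.helper80.Univ

/-- The quintic whose root is the base `q_a ≈ 1.87135`. -/
noncomputable def NN (q : ℝ) : ℝ := q ^ 5 - q ^ 4 - q ^ 3 - 2 * q ^ 2 + q + 1

structure Root (a : ℝ) : Prop where
  l : 1.8713 < a
  u : a < 1.8714
  e : NN a = 0

lemma exists_root : ∃ a, Root a := by
  have hc : ContinuousOn NN (Set.Icc 1.8713 1.8714) := by
    unfold NN; fun_prop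
  have h1 : NN 1.8713 < 0 := by unfold NN; norm_num
  have h2 : 0 < NN 1.8714 := by unfold NN; norm_num
  obtain ⟨a, ha, hae⟩ := intermediate_value_Icc (by norm_num) hc ⟨h1.le, h2.le⟩
  refine ⟨a, lt_of_le_of_ne ha.1 ?_, lt_of_le_of_ne ha.2 ?_, hae⟩
  · rintro rfl; linarith
  · rintro rfl; linarith

lemma Root.pb {a : ℝ} (h : Root a) : PB a := PB.mk' (by linarith [h.l]) (by linarith [h.u])

lemma cover_ones {a x : ℝ} (ha : Root a) (hx : 1.2 ≤ x) : ∃ q ∈ univoqueBases x, q < a := by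
  have hx0 : 0 < x := by linarith
  have h1 : 1 / x ≤ 1 / 1.2 := one_div_le_one_div_of_le (by norm_num) hx
  have h1' : 1 / x ≤ 0.8334 := h1.trans (by norm_num)
  have h2 : 0 < 1 / x := by positivity
  refine ⟨1 + 1 / x, ⟨by linarith, by linarith, ?_⟩, by linarith [ha.l]⟩
  have h3 := ones_mem (q := 1 + 1 / x) (by linarith)
  have h4 : 1 / (1 + 1 / x - 1) = x := by
    rw [add_sub_cancel_left, one_div_one_div]
  rw [h4] at h3
  exact h3

lemma gold_of {q : ℝ} (h : 1.62 ≤ q) : 0 < q ^ 2 - q - 1 := by nlinarith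

lemma pow2_bd {q : ℝ} (h1 : 1.8713 < q) (h2 : q < 1.8714) : 3.50176 < q ^ 2 ∧ q ^ 2 < 3.50214 := by
  constructor <;> nlinarith

lemma pow3_bd {q : ℝ} (h1 : 1.8713 < q) (h2 : q < 1.8714) : 6.55284 < q ^ 3 ∧ q ^ 3 < 6.55391 := by
  have := pow2_bd h1 h2
  have e : q ^ 3 = q * q ^ 2 := by ring
  rw [e]
  constructor <;> nlinarith [this.1, this.2]

lemma pow4_bd {q : ℝ} (h1 : 1.8713 < q) (h2 : q < 1.8714) : 12.2623 < q ^ 4 ∧ q ^ 4 < 12.265 := by
  have := pow2_bd h1 h2
  have e : q ^ 4 = q ^ 2 * q ^ 2 := by ring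
  rw [e]
  constructor <;> nlinarith [this.1, this.2]

lemma cover_oneA {a x : ℝ} (ha : Root a) (hx1 : 0.935 < x) (hx2 : x < 1.23) :
    ∃ q ∈ univoqueBases x, q < a := by
  have hb := pow2_bd ha.l ha.u
  obtain ⟨q, hq, _, hqa⟩ := cover (a := 1.62) (b := a) (by norm_num) (by linarith [ha.l])
    (by linarith [ha.u]) (fun q => (1 + q / (q ^ 2 - 1)) / q) (by
      refine ContinuousOn.div (ContinuousOn.add continuousOn_const
        (ContinuousOn.div continuousOn_id (by fun_prop) ?_)) continuousOn_id ?_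
      · intro q hq; have := hq.1; nlinarith
      · intro q hq; have := hq.1; linarith) (x := x) (by
      have h0 : 0 < a := by linarith [ha.l]
      have h2 : 0 < a ^ 2 - 1 := by linarith [hb.1]
      have : a / (a ^ 2 - 1) < 0.749 := by
        rw [div_lt_iff₀ h2]; linarith [hb.1, ha.u]
      have h3 : (1 + a / (a ^ 2 - 1)) / a < 0.935 := by
        rw [div_lt_iff₀ h0]; linarith [ha.l]
      linarith) (by norm_num; linarith)
    (fun q hq1 hq2 _ => oneA_mem (by linarith) (gold_of hq1.le))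
  exact ⟨q, hq, hqa⟩

lemma cover_A {a x : ℝ} (ha : Root a) (hx1 : 0.749 < x) (hx2 : x < 0.99) :
    ∃ q ∈ univoqueBases x, q < a := by
  have hb := pow2_bd ha.l ha.u
  obtain ⟨q, hq, _, hqa⟩ := cover (a := 1.62) (b := a) (by norm_num) (by linarith [ha.l])
    (by linarith [ha.u]) (fun q => q / (q ^ 2 - 1)) (by
      refine ContinuousOn.div continuousOn_id (by fun_prop) ?_
      intro q hq; have := hq.1; nlinarith) (x := x) (by
      have h2 : 0 < a ^ 2 - 1 := by linarith [hb.1]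
      have : a / (a ^ 2 - 1) < 0.749 := by
        rw [div_lt_iff₀ h2]; linarith [hb.1, ha.u]
      linarith) (by norm_num; linarith)
    (fun q hq1 hq2 _ => A_mem (by linarith) (gold_of hq1.le))
  exact ⟨q, hq, hqa⟩

lemma cover_zeroA {a x : ℝ} (ha : Root a) (hx1 : 0.4 < x) (hx2 : x < psi) :
    ∃ q ∈ univoqueBases x, q < a := by
  have hb := pow2_bd ha.l ha.u
  have hpb := psi_bounds
  have hps := psi_sq
  obtain ⟨q, hq, _, hqa⟩ := cover (a := 1 + psi) (b := a) (by linarith [hpb.1])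
    (by linarith [ha.l, hpb.2])
    (by linarith [ha.u]) (fun q => q / (q ^ 2 - 1) / q ^ 1) (by
      refine ContinuousOn.div (ContinuousOn.div continuousOn_id (by fun_prop) ?_) (by fun_prop) ?_
      · intro q hq; have := hq.1; nlinarith [hpb.1]
      · intro q hq; have := hq.1
        have : q ≠ 0 := by linarith [hpb.1]
        simpa using this) (x := x) (by
      have h0 : 0 < a := by linarith [ha.l]
      have h2 : 0 < a ^ 2 - 1 := by linarith [hb.1]
      have e : a / (a ^ 2 - 1) / a ^ 1 = 1 / (a ^ 2 - 1) := by field_simp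
      show a / (a ^ 2 - 1) / a ^ 1 < x
      rw [e]
      have : 1 / (a ^ 2 - 1) < 0.4 := by
        rw [div_lt_iff₀ h2]; linarith [hb.1]
      linarith) (by
      show x < (1 + psi) / ((1 + psi) ^ 2 - 1) / (1 + psi) ^ 1
      have h2 : (1 + psi) ^ 2 - 1 = 1 + psi := by nlinarith
      have h3 : (1 + psi) ≠ 0 := by linarith [hpb.1]
      rw [h2, div_self h3, pow_one, lt_div_iff₀ (by linarith [hpb.1])]
      nlinarith)
    (fun q hq1 hq2 _ => (A_zeros_mem (by linarith [hpb.1]) (by nlinarith [hpb.1]) 1).1)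
  exact ⟨q, hq, hqa⟩

lemma cover_zeros {a x : ℝ} (ha : Root a) (hx1 : 0 < x) (hx2 : x < 0.38) :
    ∃ q ∈ univoqueBases x, q < a := by
  classical
  have hb := pow2_bd ha.l ha.u
  set c : ℝ := 1.62 / (1.62 ^ 2 - 1) with hc
  have hc1 : 0.99729 < c ∧ c < 0.9973 := by rw [hc]; constructor <;> norm_num
  have hex : ∃ n : ℕ, c / 1.62 ^ (n + 1) ≤ x := by
    obtain ⟨n, hn⟩ := pow_unbounded_of_one_lt (1 / x) (by norm_num : (1:ℝ) < 1.62)
    refine ⟨n, ?_⟩
    rw [div_le_iff₀ (by positivity)]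
    rw [div_lt_iff₀ hx1] at hn
    have : (1.62:ℝ) ^ n ≤ 1.62 ^ (n + 1) := pow_le_pow_right₀ (by norm_num) (Nat.le_succ n)
    nlinarith [hc1.2]
  set n := Nat.find hex with hn
  have hPn : c / 1.62 ^ (n + 1) ≤ x := Nat.find_spec hex
  have hn2 : 2 ≤ n := by
    by_contra hcon
    have h01 : n = 0 ∨ n = 1 := by omega
    rcases h01 with h | h
    · rw [h] at hPn
      norm_num at hPn
      have : (0.6:ℝ) < c / (81 / 50) := by rw [lt_div_iff₀ (by norm_num)]; linarith [hc1.1]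
      linarith
    · rw [h] at hPn
      norm_num at hPn
      have : (0.38:ℝ) < c / (6561 / 2500) := by rw [lt_div_iff₀ (by norm_num)]; linarith [hc1.1]
      linarith
  have hlt : x < c / 1.62 ^ n := by
    have h1 : n - 1 < n := by omega
    have := Nat.find_min hex h1
    push Not at this
    have e : n - 1 + 1 = n := by omega
    rw [e] at this
    exact this
  obtain ⟨q, hq, _, hqa⟩ := cover (a := 1.62) (b := a) (by norm_num) (by linarith [ha.l])
    (by linarith [ha.u]) (fun q => q / (q ^ 2 - 1) / q ^ n) (by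
      refine ContinuousOn.div (ContinuousOn.div continuousOn_id (by fun_prop) ?_) (by fun_prop) ?_
      · intro q hq; have := hq.1; nlinarith
      · intro q hq; have := hq.1
        have h : q ≠ 0 := by linarith
        exact pow_ne_zero _ h) (x := x) (by
      have h0 : 0 < a := by linarith [ha.l]
      have h2 : 0 < a ^ 2 - 1 := by linarith [hb.1]
      refine lt_of_lt_of_le ?_ hPn
      show a / (a ^ 2 - 1) / a ^ n < c / 1.62 ^ (n + 1)
      have hA : a / (a ^ 2 - 1) < 0.749 := by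
        rw [div_lt_iff₀ h2]; linarith [hb.1, ha.u]
      have hAp : 0 < a / (a ^ 2 - 1) := by positivity
      obtain ⟨m, hm'⟩ := Nat.exists_eq_add_of_le hn2
      rw [hm']
      have hm : (1.62:ℝ) ^ m ≤ a ^ m := pow_le_pow_left₀ (by norm_num) (by linarith [ha.l]) m
      have hmp : (0:ℝ) < 1.62 ^ m := by positivity
      have hap : 0 < a ^ m := by positivity
      rw [div_lt_div_iff₀ (by positivity) (by positivity)]
      have e1 : (1.62:ℝ) ^ (2 + m + 1) = 1.62 ^ 3 * 1.62 ^ m := by ring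
      have e2 : a ^ (2 + m) = a ^ 2 * a ^ m := by ring
      rw [e1, e2]
      calc a / (a ^ 2 - 1) * (1.62 ^ 3 * 1.62 ^ m) < 0.749 * (1.62 ^ 3 * 1.62 ^ m) := by
            refine mul_lt_mul_of_pos_right hA (by positivity)
        _ ≤ 0.749 * (1.62 ^ 3 * a ^ m) := by gcongr
        _ = (0.749 * 1.62 ^ 3) * a ^ m := by ring
        _ ≤ (c * a ^ 2) * a ^ m := by
            refine mul_le_mul_of_nonneg_right ?_ hap.le
            nlinarith [hc1.1, hb.1]
        _ = c * (a ^ 2 * a ^ m) := by ring) (by exact hlt)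
    (fun q hq1 hq2 _ => (A_zeros_mem (by linarith) (gold_of hq1.le) n).1)
  exact ⟨q, hq, hqa⟩

lemma C_cond {q : ℝ} (h1 : 1.76 ≤ q) (h2 : q < 2) : (q ^ 3 + 1) / (q ^ 4 - 1) ∈ Uq q ∧
    (q ^ 3 + 1) / (q ^ 4 - 1) < 1 := by
  have h0 : 0 < q := by linarith
  obtain ⟨u, hu, hqu⟩ : ∃ u : ℝ, 0 ≤ u ∧ q = 1.76 + u := ⟨q - 1.76, by linarith, by ring⟩
  have hu2 := mul_nonneg hu hu
  have hu3 := mul_nonneg hu2 hu
  have hu4 := mul_nonneg hu3 hu
  have h4 : 0 < q ^ 4 - 1 := by
    rw [hqu]; nlinarith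
  have e1 : (q ^ 3 + q ^ 2) / (q ^ 4 - 1) < 1 := by
    rw [div_lt_one h4]
    rw [hqu]; nlinarith
  refine ⟨C_mem (by linarith) e1 ?_, ?_⟩
  · have hfac : q ^ 4 - 1 = (q - 1) * (q + 1) * (q ^ 2 + 1) := by ring
    have hq1 : 0 < q - 1 := by linarith
    have : (q + 1) / (q ^ 4 - 1) = 1 / ((q - 1) * (q ^ 2 + 1)) := by
      rw [hfac]; field_simp
    rw [this, div_lt_div_iff₀ hq1 (by positivity)]
    -- (2-q)(q^2+1) < 1
    have : (2 - q) * (q ^ 2 + 1) < 1 := by
      rw [hqu]; nlinarith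
    nlinarith
  · refine lt_of_le_of_lt ?_ e1
    rw [div_le_div_iff_of_pos_right h4]; nlinarith

lemma cover_C {a x : ℝ} (ha : Root a) (hx1 : 0.671 < x) (hx2 : x < 0.75) :
    ∃ q ∈ univoqueBases x, q < a := by
  have hb3 := pow3_bd ha.l ha.u
  have hb4 := pow4_bd ha.l ha.u
  obtain ⟨q, hq, _, hqa⟩ := cover (a := 1.76) (b := a) (by norm_num) (by linarith [ha.l])
    (by linarith [ha.u]) (fun q => (q ^ 3 + 1) / (q ^ 4 - 1)) (by
      refine ContinuousOn.div (by fun_prop) (by fun_prop) ?_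
      intro q hq
      have h1 : (1.76:ℝ) ^ 4 ≤ q ^ 4 := pow_le_pow_left₀ (by norm_num) hq.1 4
      norm_num at h1
      have : 0 < q ^ 4 - 1 := by linarith
      exact this.ne') (x := x) (by
      have h2 : 0 < a ^ 4 - 1 := by linarith [hb4.1]
      have : (a ^ 3 + 1) / (a ^ 4 - 1) < 0.671 := by
        rw [div_lt_iff₀ h2]; linarith [hb3.2, hb4.1]
      linarith) (by norm_num; linarith)
    (fun q hq1 hq2 _ => (C_cond hq1.le (by linarith [ha.u])).1)
  exact ⟨q, hq, hqa⟩

lemma cover_zeroC {a x : ℝ} (ha : Root a) (hx1 : 0.3586 < x) (hx2 : x < 0.42) :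
    ∃ q ∈ univoqueBases x, q < a := by
  have hb3 := pow3_bd ha.l ha.u
  have hb4 := pow4_bd ha.l ha.u
  obtain ⟨q, hq, _, hqa⟩ := cover (a := 1.76) (b := a) (by norm_num) (by linarith [ha.l])
    (by linarith [ha.u]) (fun q => (q ^ 3 + 1) / (q ^ 4 - 1) / q) (by
      refine ContinuousOn.div (ContinuousOn.div (by fun_prop) (by fun_prop) ?_) continuousOn_id ?_
      · intro q hq
        have h1 : (1.76:ℝ) ^ 4 ≤ q ^ 4 := pow_le_pow_left₀ (by norm_num) hq.1 4
        norm_num at h1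
        have : 0 < q ^ 4 - 1 := by linarith
        exact this.ne'
      · intro q hq; have := hq.1; linarith) (x := x) (by
      have h2 : 0 < a ^ 4 - 1 := by linarith [hb4.1]
      have h3 : (a ^ 3 + 1) / (a ^ 4 - 1) < 0.671 := by
        rw [div_lt_iff₀ h2]; linarith [hb3.2, hb4.1]
      have h4 : (a ^ 3 + 1) / (a ^ 4 - 1) / a < 0.3586 := by
        rw [div_lt_iff₀ (by linarith [ha.l])]; linarith [ha.l]
      linarith) (by norm_num; linarith)
    (fun q hq1 hq2 _ => Uq_cons_zero (by linarith) (C_cond hq1.le (by linarith [ha.u])).1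
      (C_cond hq1.le (by linarith [ha.u])).2)
  exact ⟨q, hq, hqa⟩

lemma cover_A100 {a x : ℝ} (ha : Root a) (hx1 : 0.6486 < x) (hx2 : x < 0.69) :
    ∃ q ∈ univoqueBases x, q < a := by
  have hb := pow2_bd ha.l ha.u
  obtain ⟨q, hq, _, hqa⟩ := cover (a := 1.803) (b := a) (by norm_num) (by linarith [ha.l])
    (by linarith [ha.u]) (fun q => (1 + q / (q ^ 2 - 1) / q ^ 2) / q) (by
      refine ContinuousOn.div (ContinuousOn.add continuousOn_const
        (ContinuousOn.div (ContinuousOn.div continuousOn_id (by fun_prop) ?_) (by fun_prop) ?_)) continuousOn_id ?_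
      · intro q hq; have := hq.1; nlinarith
      · intro q hq; have := hq.1
        have h : q ≠ 0 := by linarith
        exact pow_ne_zero _ h
      · intro q hq; have := hq.1; linarith) (x := x) (by
      have h0 : 0 < a := by linarith [ha.l]
      have h2 : 0 < a ^ 2 - 1 := by linarith [hb.1]
      have h3 : a / (a ^ 2 - 1) < 0.74804 := by
        rw [div_lt_iff₀ h2]; linarith [hb.1, ha.u]
      have h4 : a / (a ^ 2 - 1) / a ^ 2 < 0.21363 := by
        rw [div_lt_iff₀ (by positivity)]; linarith [hb.1]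
      have h5 : (1 + a / (a ^ 2 - 1) / a ^ 2) / a < 0.6486 := by
        rw [div_lt_iff₀ h0]; linarith [ha.l]
      linarith) (by norm_num; linarith)
    (fun q hq1 hq2 _ => A100_mem (by linarith) (gold_of (by linarith)) (by
      have h0 : 0 < q := by linarith
      have h1 : 0 < q - 1 := by linarith
      have e : q / (q ^ 2 - 1) / q ^ 2 = 1 / ((q - 1) * (q * (q + 1))) := by
        have h2 : q ^ 2 - 1 = (q - 1) * (q + 1) := by ring
        rw [h2]; field_simp
      rw [e, div_lt_div_iff₀ h1 (by positivity)]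
      have : (2 - q) * (q * (q + 1)) < 1 := by
        obtain ⟨u, hu, hqu⟩ : ∃ u : ℝ, 0 ≤ u ∧ q = 1.803 + u := ⟨q - 1.803, by linarith, by ring⟩
        rw [hqu]; nlinarith [mul_nonneg hu hu, mul_nonneg (mul_nonneg hu hu) hu]
      nlinarith))
  exact ⟨q, hq, hqa⟩

lemma A100100_mem {q : ℝ} (h1 : 1.836 ≤ q) (h2 : q < 1.8714) :
    (1 + (1 + q / (q ^ 2 - 1) / q ^ 2) / q / q ^ 2) / q ∈ Uq q := by
  have h0 : 0 < q := by linarith
  have hq1 : 0 < q - 1 := by linarith
  have hq : 1 < q := by linarith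
  obtain ⟨u, hu, hqu⟩ : ∃ u : ℝ, 0 ≤ u ∧ q = 1.836 + u := ⟨q - 1.836, by linarith, by ring⟩
  have e : q / (q ^ 2 - 1) / q ^ 2 = 1 / ((q - 1) * (q * (q + 1))) := by
    have h2 : q ^ 2 - 1 = (q - 1) * (q + 1) := by ring
    rw [h2]; field_simp
  have hA : q / (q ^ 2 - 1) / q ^ 2 < 0.25 := by
    rw [e, div_lt_iff₀ (by positivity)]
    rw [hqu]; nlinarith [mul_nonneg hu hu, mul_nonneg (mul_nonneg hu hu) hu]
  have m1 : (1 + q / (q ^ 2 - 1) / q ^ 2) / q ∈ Uq q := A100_mem hq (gold_of (by linarith)) (by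
      rw [e, div_lt_div_iff₀ hq1 (by positivity)]
      have : (2 - q) * (q * (q + 1)) < 1 := by
        rw [hqu]; nlinarith [mul_nonneg hu hu, mul_nonneg (mul_nonneg hu hu) hu]
      nlinarith)
  have l1 : (1 + q / (q ^ 2 - 1) / q ^ 2) / q < 1 := by
    rw [div_lt_one h0]; linarith
  have m2 := Uq_cons_zero hq m1 l1
  have l2 : (1 + q / (q ^ 2 - 1) / q ^ 2) / q / q < 1 := by
    rw [div_lt_one h0]; linarith
  have m3 := Uq_cons_zero hq m2 l2
  have e2 : (1 + q / (q ^ 2 - 1) / q ^ 2) / q / q / q = (1 + q / (q ^ 2 - 1) / q ^ 2) / q / q ^ 2 := by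
    generalize (1 + q / (q ^ 2 - 1) / q ^ 2) / q = t
    field_simp
  rw [e2] at m3
  refine Uq_cons_one hq m3 ?_
  have e3 : 1 / (q - 1) = 1 + (2 - q) / (q - 1) := by field_simp; ring
  rw [e3, add_lt_add_iff_left, e]
  have e4 : (1 + 1 / ((q - 1) * (q * (q + 1)))) / q / q ^ 2
      = ((q - 1) * (q * (q + 1)) + 1) / ((q - 1) * (q ^ 4 * (q + 1))) := by field_simp
  rw [e4, div_lt_div_iff₀ hq1 (by positivity)]
  have hu5 : (2 - q) * (q ^ 4 * (q + 1)) < (q - 1) * (q * (q + 1)) + 1 := by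
    have hq2 : 3.370896 ≤ q ^ 2 := by nlinarith
    have hq4 : q ^ 4 = q ^ 2 * q ^ 2 := by ring
    -- increasing difference, bound by Taylor expansion
    have hu2 : u ≤ 0.0354 := by linarith
    rw [hqu]
    nlinarith [mul_nonneg hu hu, mul_nonneg (mul_nonneg hu hu) hu, mul_nonneg (mul_nonneg (mul_nonneg hu hu) hu) hu,
      mul_nonneg (mul_nonneg (mul_nonneg (mul_nonneg hu hu) hu) hu) hu,
      mul_nonneg (mul_nonneg (mul_nonneg (mul_nonneg (mul_nonneg hu hu) hu) hu) hu) hu]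
  nlinarith

lemma cover_A100100 {a x : ℝ} (ha : Root a) (hx1 : 0.6335 < x) (hx2 : x < 0.652) :
    ∃ q ∈ univoqueBases x, q < a := by
  have hb := pow2_bd ha.l ha.u
  obtain ⟨q, hq, _, hqa⟩ := cover (a := 1.836) (b := a) (by norm_num) (by linarith [ha.l])
    (by linarith [ha.u]) (fun q => (1 + (1 + q / (q ^ 2 - 1) / q ^ 2) / q / q ^ 2) / q) (by
      have hne : ∀ q ∈ Set.Icc (1.836:ℝ) a, q ≠ 0 := by intro q hq; have := hq.1; linarith
      have hne2 : ∀ q ∈ Set.Icc (1.836:ℝ) a, q ^ 2 ≠ 0 := fun q hq => pow_ne_zero _ (hne q hq)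
      refine ContinuousOn.div (ContinuousOn.add continuousOn_const
        (ContinuousOn.div (ContinuousOn.div (ContinuousOn.add continuousOn_const
          (ContinuousOn.div (ContinuousOn.div continuousOn_id (by fun_prop) ?_) (by fun_prop) hne2))
          continuousOn_id hne) (by fun_prop) hne2)) continuousOn_id hne
      intro q hq; have := hq.1; nlinarith) (x := x) (by
      have h0 : 0 < a := by linarith [ha.l]
      have h2 : 0 < a ^ 2 - 1 := by linarith [hb.1]
      have h3 : a / (a ^ 2 - 1) < 0.74804 := by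
        rw [div_lt_iff₀ h2]; linarith [hb.1, ha.u]
      have h4 : a / (a ^ 2 - 1) / a ^ 2 < 0.21363 := by
        rw [div_lt_iff₀ (by positivity)]; linarith [hb.1]
      have h5 : (1 + a / (a ^ 2 - 1) / a ^ 2) / a < 0.6486 := by
        rw [div_lt_iff₀ h0]; linarith [ha.l]
      have h6 : (1 + a / (a ^ 2 - 1) / a ^ 2) / a / a ^ 2 < 0.18523 := by
        rw [div_lt_iff₀ (by positivity)]; linarith [hb.1]
      have h7 : (1 + (1 + a / (a ^ 2 - 1) / a ^ 2) / a / a ^ 2) / a < 0.6335 := by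
        rw [div_lt_iff₀ h0]; linarith [ha.l]
      linarith) (by norm_num; linarith)
    (fun q hq1 hq2 _ => A100100_mem hq1.le (by linarith [ha.u]))
  exact ⟨q, hq, hqa⟩

lemma cover_B {a x : ℝ} (ha : Root a) (hx1 : 0.63064 < x) (hx2 : x < 0.647) :
    ∃ q ∈ univoqueBases x, q < a := by
  have hb := pow2_bd ha.l ha.u
  have hb3 := pow3_bd ha.l ha.u
  obtain ⟨q, hq, _, hqa⟩ := cover (a := 1.84) (b := a) (by norm_num) (by linarith [ha.l])
    (by linarith [ha.u]) (fun q => q ^ 2 / (q ^ 3 - 1)) (by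
      refine ContinuousOn.div (by fun_prop) (by fun_prop) ?_
      intro q hq
      have h1 : (1.84:ℝ) ^ 3 ≤ q ^ 3 := pow_le_pow_left₀ (by norm_num) hq.1 3
      norm_num at h1
      have : 0 < q ^ 3 - 1 := by linarith
      exact this.ne') (x := x) (by
      have h2 : 0 < a ^ 3 - 1 := by linarith [hb3.1]
      -- decreasing function: compare at 1.8713
      have : a ^ 2 / (a ^ 3 - 1) < 0.63064 := by
        rw [div_lt_iff₀ h2]
        -- 0.63064 (a^3-1) - a^2 > 0
        obtain ⟨u, hu, hqu⟩ : ∃ u : ℝ, 0 ≤ u ∧ a = 1.8713 + u := ⟨a - 1.8713, by linarith [ha.l], by ring⟩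
        rw [hqu]; nlinarith [mul_nonneg hu hu, mul_nonneg (mul_nonneg hu hu) hu]
      linarith) (by norm_num; linarith)
    (fun q hq1 hq2 _ => by
      have h0 : 0 < q := by linarith
      have hq1' : 0 < q - 1 := by linarith
      obtain ⟨u, hu, hqu⟩ : ∃ u : ℝ, 0 ≤ u ∧ q = 1.84 + u := ⟨q - 1.84, by linarith, by ring⟩
      have hu2 := mul_nonneg hu hu
      have hu3 := mul_nonneg hu2 hu
      have h3 : 0 < q ^ 3 - 1 := by rw [hqu]; nlinarith
      refine B_mem (by linarith) ?_ ?_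
      · rw [div_lt_one h3]; rw [hqu]; nlinarith
      · have e : q ^ 3 - 1 = (q - 1) * (q ^ 2 + q + 1) := by ring
        rw [e, div_lt_div_iff₀ hq1' (by positivity)]
        have : (2 - q) * (q ^ 2 + q + 1) < 1 := by
          rw [hqu]; nlinarith
        nlinarith)
  exact ⟨q, hq, hqa⟩

end Pool.Agent.helper80.Univ
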