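import Mathlib
import Pool.Agent.helper80.UnivCover

set_option autoImplicit false
open Filter Topology

namespace Pool.Agent.helper80.Univ

lemma XX_cont (k : ℕ) {b : ℝ} (s : ℝ) (hs : 1.8 ≤ s) : ContinuousOn (XX k) (Set.Icc s b) := by
  have hne : ∀ q ∈ Set.Icc s b, q ≠ 0 := by intro q hq; have := hq.1; linarith
  have hn : ∀ n : ℕ, ∀ q ∈ Set.Icc s b, q ^ n ≠ 0 := fun n q hq => pow_ne_zero _ (hne q hq)
  have h1 : ∀ q ∈ Set.Icc s b, (q - 1) * (q ^ 3 + 1) ≠ 0 := by
    intro q hq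
    have h := hq.1
    have h2 : 0 < q - 1 := by linarith
    have h3 : 0 < q := by linarith
    positivity
  have h2 : ∀ q ∈ Set.Icc s b, q ^ 3 - 1 ≠ 0 := by
    intro q hq
    have h := hq.1
    have h2 : 1 < q ^ 3 := one_lt_pow₀ (by linarith) (by norm_num)
    linarith
  have c1 : ContinuousOn hh (Set.Icc s b) := by
    unfold hh
    exact ContinuousOn.div (by fun_prop) (by fun_prop) h1
  have c2 : ContinuousOn mm (Set.Icc s b) := by
    unfold mm
    exact ContinuousOn.div (by fun_prop) (by fun_prop) h2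
  have c3 : ContinuousOn (MM k) (Set.Icc s b) := by
    unfold MM
    exact c2.add ((c1.sub c2).div (by fun_prop) (hn _))
  unfold XX
  exact (ContinuousOn.div continuousOn_const continuousOn_id hne).add
    ((continuousOn_const.add (c3.div (by fun_prop) (hn 3))).div (by fun_prop) (hn 4))

/-- The correction term. -/
noncomputable def PP (q : ℝ) : ℝ := NN q / (q ^ 2 * (q ^ 3 - 1))

lemma XX_eq {q : ℝ} (hq : 1 < q) (k : ℕ) :
    XX k q = gg q + (PP q + (hh q - mm q) / q ^ (3 * k + 3)) / q ^ 4 := by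
  have h0 : q ≠ 0 := by linarith
  have h3 : 1 < q ^ 3 := one_lt_pow₀ hq (by norm_num)
  have h1 : q - 1 ≠ 0 := by linarith
  have h2 : q ^ 2 + q + 1 ≠ 0 := by
    have : 0 < q := by linarith
    positivity
  have e1 : q ^ 3 - 1 = (q - 1) * (q ^ 2 + q + 1) := by ring
  have key : 1 + mm q / q ^ 3 = 1 / (q - 1) + PP q := by
    unfold mm PP NN
    rw [e1]
    field_simp
    ring
  have e2 : q ^ (3 * k + 3) = q ^ (3 * k) * q ^ 3 := by rw [← pow_add]
  unfold XX gg MM
  set D := hh q - mm q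
  have hp : q ^ (3 * k) ≠ 0 := pow_ne_zero _ h0
  rw [e2]
  have e3 : 1 + (mm q + D / q ^ (3 * k)) / q ^ 3 = (1 + mm q / q ^ 3) + D / (q ^ (3 * k) * q ^ 3) := by
    field_simp
    ring
  rw [e3, key]
  field_simp
  ring

lemma Root.PP {a : ℝ} (h : Root a) : PP a = 0 := by
  unfold Univ.PP; rw [h.e]; simp

lemma XX_root {a : ℝ} (h : Root a) (k : ℕ) :
    XX k a = gg a + (hh a - mm a) / a ^ (3 * k + 7) := by
  have hq : 1 < a := by linarith [h.l]
  have h0 : a ≠ 0 := by linarith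
  rw [XX_eq hq k, h.PP, zero_add, div_div, ← pow_add]

lemma XX0_lower : (0.63065:ℝ) < XX 0 1.8668 := by
  unfold XX MM hh mm
  norm_num

lemma gg_lower : (0.6305:ℝ) < gg 1.8668 := by
  unfold gg
  norm_num

lemma gg_lt_XX0 {q : ℝ} (h : PB q) : gg q < XX 0 q := by
  have hq : 1 < q := by linarith [h.l1]
  have h0 : 0 < q := by linarith
  have h1 := hh_lt_one h.l1
  have h2 := hh_add hq
  have e : MM 0 q = hh q := by unfold MM; simp
  unfold XX gg
  rw [e]
  have e2 : 1 + hh q / q ^ 3 = 1 / (q - 1) + (1 - hh q) := by linarith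
  rw [e2]
  have hq1 : q - 1 ≠ 0 := by linarith
  have e3 : 1 / (q ^ 4 * (q - 1)) = (1 / (q - 1)) / q ^ 4 := by field_simp
  rw [e3, add_lt_add_iff_left, div_lt_div_iff_of_pos_right (by positivity)]
  linarith

lemma cover_fam0 {a x : ℝ} (ha : Root a) (hx1 : XX 0 a < x) (hx2 : x < 0.63065) :
    ∃ q ∈ univoqueBases x, q < a := by
  obtain ⟨q, hq, _, hqa⟩ := cover (a := 1.8668) (b := a) (by norm_num) (by linarith [ha.l])
    (by linarith [ha.u]) (XX 0) (XX_cont 0 _ (by norm_num)) hx1 (hx2.trans XX0_lower)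
    (fun q hq1 hq2 _ => XX_mem (PB.mk' hq1.le (by linarith [ha.u])) 0
      (gg_lt_XX0 (PB.mk' hq1.le (by linarith [ha.u]))))
  exact ⟨q, hq, hqa⟩

lemma gg_cont {b : ℝ} (s : ℝ) (hs : 1 < s) : ContinuousOn gg (Set.Icc s b) := by
  unfold gg
  refine ContinuousOn.add (ContinuousOn.div continuousOn_const continuousOn_id ?_)
    (ContinuousOn.div continuousOn_const (by fun_prop) ?_)
  · intro q hq; have := hq.1; linarith
  · intro q hq
    have h := hq.1
    have h2 : 0 < q - 1 := by linarith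
    have h3 : 0 < q := by linarith
    positivity

/-- bounds for mixed powers -/
lemma mixed {p a : ℝ} (hp : 1.8668 ≤ p) (hpa : p ≤ a) (ha : a < 1.8714) (i j : ℕ) :
    (1.8668:ℝ) ^ (i + j) ≤ a ^ i * p ^ j ∧ a ^ i * p ^ j ≤ (1.8714:ℝ) ^ (i + j) := by
  rw [pow_add, pow_add]
  have hp0 : 0 < p := by linarith
  have ha0 : 0 < a := by linarith
  constructor
  · exact mul_le_mul (pow_le_pow_left₀ (by norm_num) (by linarith) i)
      (pow_le_pow_left₀ (by norm_num) hp j) (by positivity) (by positivity)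
  · exact mul_le_mul (pow_le_pow_left₀ ha0.le ha.le i)
      (pow_le_pow_left₀ hp0.le (by linarith) j) (by positivity) (by positivity)

lemma NN_diff {p a : ℝ} (hp : 1.8668 ≤ p) (hpa : p ≤ a) (ha : a < 1.8714) :
    NN a - NN p ≤ 18.4 * (a - p) := by
  have e : NN a - NN p = (a - p) * ((a ^ 4 * p ^ 0 + a ^ 3 * p ^ 1 + a ^ 2 * p ^ 2 + a ^ 1 * p ^ 3 + a ^ 0 * p ^ 4)
      - (a ^ 3 * p ^ 0 + a ^ 2 * p ^ 1 + a ^ 1 * p ^ 2 + a ^ 0 * p ^ 3)
      - (a ^ 2 * p ^ 0 + a ^ 1 * p ^ 1 + a ^ 0 * p ^ 2) - 2 * (a + p) + 1) := by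
    unfold NN; ring
  rw [e]
  have h : ((a ^ 4 * p ^ 0 + a ^ 3 * p ^ 1 + a ^ 2 * p ^ 2 + a ^ 1 * p ^ 3 + a ^ 0 * p ^ 4)
      - (a ^ 3 * p ^ 0 + a ^ 2 * p ^ 1 + a ^ 1 * p ^ 2 + a ^ 0 * p ^ 3)
      - (a ^ 2 * p ^ 0 + a ^ 1 * p ^ 1 + a ^ 0 * p ^ 2) - 2 * (a + p) + 1) ≤ 18.4 := by
    have h40 := (mixed hp hpa ha 4 0).2
    have h31 := (mixed hp hpa ha 3 1).2
    have h22 := (mixed hp hpa ha 2 2).2
    have h13 := (mixed hp hpa ha 1 3).2
    have h04 := (mixed hp hpa ha 0 4).2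
    have h30 := (mixed hp hpa ha 3 0).1
    have h21 := (mixed hp hpa ha 2 1).1
    have h12 := (mixed hp hpa ha 1 2).1
    have h03 := (mixed hp hpa ha 0 3).1
    have h20 := (mixed hp hpa ha 2 0).1
    have h11 := (mixed hp hpa ha 1 1).1
    have h02 := (mixed hp hpa ha 0 2).1
    norm_num only at h40 h31 h22 h13 h04 h30 h21 h12 h03 h20 h11 h02 ⊢
    linarith
  nlinarith

lemma gg_diff {p a : ℝ} (hp : 1.8668 ≤ p) (hpa : p ≤ a) (ha : a < 1.8714) :
    0.585 * (a - p) ≤ gg p - gg a := by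
  have hp0 : 0 < p := by linarith
  have ha0 : 0 < a := by linarith
  have hp1 : 0 < p - 1 := by linarith
  have ha1 : 0 < a - 1 := by linarith
  have h1 : 0.2855 * (a - p) ≤ 1 / p - 1 / a := by
    have e : 1 / p - 1 / a = (a - p) / (a * p) := by field_simp
    rw [e, le_div_iff₀ (by positivity)]
    have := (mixed hp hpa ha 1 1).2
    norm_num at this
    have h5 : 0.2855 * (a * p) ≤ 1 := by linarith
    nlinarith
  have h2 : 0.301 * (a - p) ≤ 1 / (p ^ 4 * (p - 1)) - 1 / (a ^ 4 * (a - 1)) := by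
    have e : 1 / (p ^ 4 * (p - 1)) - 1 / (a ^ 4 * (a - 1))
        = (a - p) * ((a ^ 4 * p ^ 0 + a ^ 3 * p ^ 1 + a ^ 2 * p ^ 2 + a ^ 1 * p ^ 3 + a ^ 0 * p ^ 4)
      - (a ^ 3 * p ^ 0 + a ^ 2 * p ^ 1 + a ^ 1 * p ^ 2 + a ^ 0 * p ^ 3)) / ((p ^ 4 * (p - 1)) * (a ^ 4 * (a - 1))) := by
      field_simp; ring
    rw [e, le_div_iff₀ (by positivity)]
    have h40 := (mixed hp hpa ha 4 0).1
    have h31 := (mixed hp hpa ha 3 1).1
    have h22 := (mixed hp hpa ha 2 2).1
    have h13 := (mixed hp hpa ha 1 3).1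
    have h04 := (mixed hp hpa ha 0 4).1
    have h30 := (mixed hp hpa ha 3 0).2
    have h21 := (mixed hp hpa ha 2 1).2
    have h12 := (mixed hp hpa ha 1 2).2
    have h03 := (mixed hp hpa ha 0 3).2
    have h44 := (mixed hp hpa ha 4 4).2
    have hB : 34.5 ≤ ((a ^ 4 * p ^ 0 + a ^ 3 * p ^ 1 + a ^ 2 * p ^ 2 + a ^ 1 * p ^ 3 + a ^ 0 * p ^ 4)
      - (a ^ 3 * p ^ 0 + a ^ 2 * p ^ 1 + a ^ 1 * p ^ 2 + a ^ 0 * p ^ 3)) := by
      norm_num only at h40 h31 h22 h13 h04 h30 h21 h12 h03 ⊢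
      linarith
    have hD : (p ^ 4 * (p - 1)) * (a ^ 4 * (a - 1)) ≤ 114.5 := by
      have e2 : (p ^ 4 * (p - 1)) * (a ^ 4 * (a - 1)) = (a ^ 4 * p ^ 4) * ((p - 1) * (a - 1)) := by ring
      rw [e2]
      have h6 : (p - 1) * (a - 1) ≤ 0.8714 * 0.8714 := mul_le_mul (by linarith) (by linarith) ha1.le (by norm_num)
      calc (a ^ 4 * p ^ 4) * ((p - 1) * (a - 1)) ≤ (1.8714:ℝ) ^ (4 + 4) * (0.8714 * 0.8714) :=
            mul_le_mul h44 h6 (by positivity) (by positivity)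
        _ ≤ 114.5 := by norm_num
    have hap : 0 ≤ a - p := by linarith
    have h7 : 0.301 * ((p ^ 4 * (p - 1)) * (a ^ 4 * (a - 1))) ≤ 34.5 := by linarith
    calc 0.301 * (a - p) * ((p ^ 4 * (p - 1)) * (a ^ 4 * (a - 1)))
        = (a - p) * (0.301 * ((p ^ 4 * (p - 1)) * (a ^ 4 * (a - 1)))) := by ring
      _ ≤ _ := mul_le_mul_of_nonneg_left (h7.trans hB) hap
  unfold gg
  linarith

lemma DD_upper {a : ℝ} (ha : Root a) : hh a - mm a ≤ 0.0282 := by
  have hq : 1 < a := by linarith [ha.l]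
  have h2 := pow2_bd ha.l ha.u
  have h3 := pow3_bd ha.l ha.u
  rw [DD_eq hq]
  have e : a ^ 6 = a ^ 3 * a ^ 3 := by ring
  have h6 : 42.93 < a ^ 6 := by rw [e]; nlinarith
  rw [div_le_iff₀ (by linarith)]
  linarith [ha.l]

lemma DD_lower {p : ℝ} (hp : 1.8668 ≤ p) (h1 : p < 1.8714) : 0.0269 ≤ hh p - mm p := by
  have hq : 1 < p := by linarith
  have h := PB.mk' hp (by linarith)
  have h2 : p ^ 2 ≤ (1.8714:ℝ) ^ 2 := pow_le_pow_left₀ (by linarith) h1.le 2
  have h3 : p ^ 3 ≤ (1.8714:ℝ) ^ 3 := pow_le_pow_left₀ (by linarith) h1.le 3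
  norm_num only at h2 h3
  rw [DD_eq hq]
  have e : p ^ 6 = p ^ 3 * p ^ 3 := by ring
  have h3' : p ^ 3 ≤ 6.554 := by norm_num only; linarith
  have h6 : p ^ 6 ≤ 6.554 * 6.554 := by
    rw [e]; exact mul_le_mul h3' h3' (by positivity) (by norm_num)
  have h6l : 1 < p ^ 6 := one_lt_pow₀ hq (by norm_num)
  rw [le_div_iff₀ (by linarith)]
  norm_num only at h6 ⊢
  linarith [h.l3]

lemma cover_fam {a x : ℝ} (ha : Root a) (hx1 : gg a < x) (hx2 : x ≤ XX 0 a) :
    ∃ q ∈ univoqueBases x, q < a := by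
  classical
  have haq : 1 < a := by linarith [ha.l]
  have ha0 : 0 < a := by linarith
  have hD := DD_upper ha
  have hDpos := DD_pos ha.pb
  -- existence of k
  have hex : ∃ k : ℕ, XX k a < x := by
    obtain ⟨n, hn⟩ := pow_unbounded_of_one_lt ((hh a - mm a) / (x - gg a)) haq
    refine ⟨n, ?_⟩
    rw [XX_root ha]
    have hxp : 0 < x - gg a := by linarith
    have h1 : a ^ n ≤ a ^ (3 * n + 7) := pow_le_pow_right₀ haq.le (by omega)
    have h2 : (hh a - mm a) / a ^ (3 * n + 7) < x - gg a := by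
      rw [div_lt_iff₀ (by positivity)]
      rw [div_lt_iff₀ hxp] at hn
      nlinarith
    linarith
  obtain ⟨k, hk⟩ : ∃ k, k = Nat.find hex := ⟨_, rfl⟩
  have hPk : XX k a < x := by rw [hk]; exact Nat.find_spec hex
  have hk1 : 1 ≤ k := by
    by_contra hcon
    have : k = 0 := by omega
    rw [this] at hPk
    linarith
  have hprev : x ≤ XX (k - 1) a := by
    have h1 : k - 1 < Nat.find hex := by omega
    have := Nat.find_min hex h1
    push Not at this
    exact this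
  -- the parameter p
  have hx3 : x < gg 1.8668 := by
    refine lt_of_le_of_lt hx2 ?_
    rw [XX_root ha]
    have h7 : (0:ℝ) < (hh a - mm a) := hDpos
    have hga : gg a ≤ gg 1.8713 := gg_anti_le (by norm_num) ha.l.le
    have hg2 : gg 1.8713 < 0.628 := by unfold gg; norm_num
    have h8 : (hh a - mm a) / a ^ (3 * 0 + 7) ≤ 0.001 := by
      rw [div_le_iff₀ (by positivity)]
      have : (1.8713:ℝ) ^ (3 * 0 + 7) ≤ a ^ (3 * 0 + 7) := pow_le_pow_left₀ (by norm_num) ha.l.le _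
      norm_num at this
      norm_num
      linarith
    linarith [gg_lower]
  obtain ⟨p, hp, hpx⟩ := intermediate_value_Icc' (by linarith [ha.l] : (1.8668:ℝ) ≤ a)
    (gg_cont (b := a) 1.8668 (by norm_num)) ⟨hx1.le, hx3.le⟩
  have hpa : p < a := by
    refine lt_of_le_of_ne hp.2 ?_
    rintro rfl; linarith
  have hp1 : 1 < p := by linarith [hp.1]
  have hp0 : 0 < p := by linarith
  have hpPB : PB p := PB.mk' hp.1 (by linarith [ha.u])
  -- main inequality
  have hmain : gg p < XX k p := by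
    rw [XX_eq hp1 k]
    have hDp := DD_lower hp.1 (by linarith [ha.u])
    have hgd := gg_diff hp.1 hp.2 ha.u
    have hNd := NN_diff hp.1 hp.2 ha.u
    rw [ha.e] at hNd
    rw [XX_root ha] at hprev
    have hidx : 3 * (k - 1) + 7 = (3 * k + 3) + 1 := by omega
    rw [hidx, pow_succ] at hprev
    set A := a ^ (3 * k + 3) with hA
    set P := p ^ (3 * k + 3) with hP
    have hPpos : 0 < P := by positivity
    have hApos : 0 < A := by positivity
    have hPA : P ≤ A := pow_le_pow_left₀ hp0.le hpa.le _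
    have h1 : 0.585 * (a - p) ≤ (hh a - mm a) / (A * a) := by rw [hpx] at hgd; linarith
    have h2 : (hh a - mm a) / (A * a) ≤ 0.01507 / A := by
      rw [div_le_div_iff₀ (by positivity) hApos]
      have h3 : (hh a - mm a) ≤ 0.01507 * a := by linarith [ha.l]
      calc (hh a - mm a) * A ≤ (0.01507 * a) * A := mul_le_mul_of_nonneg_right h3 hApos.le
        _ = 0.01507 * (A * a) := by ring
    have h4 : 0.01507 / A ≤ 0.01507 / P := by
      exact div_le_div_of_nonneg_left (by norm_num) hPpos hPA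
    have h5 : a - p ≤ 0.02577 / P := by
      have : 0.585 * (a - p) ≤ 0.01507 / P := h1.trans (h2.trans h4)
      rw [le_div_iff₀ hPpos] at this ⊢
      linarith
    have h6 : -(NN p) ≤ 0.4742 / P := by
      have h7 : 18.4 * (a - p) ≤ 0.4742 / P := by
        rw [le_div_iff₀ hPpos] at h5 ⊢
        linarith
      linarith
    have hden : 19.18 ≤ p ^ 2 * (p ^ 3 - 1) := by
      have : (3.4849:ℝ) * 5.5056 ≤ p ^ 2 * (p ^ 3 - 1) :=
        mul_le_mul hpPB.l2 (by linarith [hpPB.l3]) (by norm_num) (by positivity)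
      norm_num at this ⊢
      linarith
    have h8 : -(0.0248 / P) ≤ PP p := by
      unfold PP
      rw [neg_le, ← neg_div, div_le_iff₀ (by linarith)]
      refine h6.trans ?_
      have : 0.4742 / P = 0.0248 / P * (0.4742 / 0.0248) := by field_simp
      rw [this]
      refine mul_le_mul_of_nonneg_left ?_ (by positivity)
      norm_num at hden ⊢
      linarith
    have h9 : 0.0269 / P ≤ (hh p - mm p) / P := div_le_div_of_nonneg_right hDp hPpos.le
    have h10 : 0.0248 / P < 0.0269 / P := div_lt_div_of_pos_right (by norm_num) hPpos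
    have h11 : 0 < PP p + (hh p - mm p) / P := by linarith
    have h12 : 0 < (PP p + (hh p - mm p) / P) / p ^ 4 := by positivity
    linarith
  obtain ⟨q, hq, _, hqa⟩ := cover (a := p) (b := a) hp1 hpa.le
    (by linarith [ha.u]) (XX k) (XX_cont k _ (by linarith [hp.1])) hPk (by rw [← hpx]; exact hmain)
    (fun q hq1 hq2 hqx => by
      refine XX_mem (PB.mk' (by linarith [hp.1]) (by linarith [ha.u])) k ?_
      rw [hqx, ← hpx]
      exact gg_anti hp1 hq1)
  exact ⟨q, hq, hqa⟩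

end Pool.Agent.helper80.Univ
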