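import Mathlib
import Pool.Agent.helper80.UnivFam

set_option autoImplicit false
open Filter Topology

namespace Pool.Agent.helper80.Univ

/-- the limiting value `1001000(110)^∞` -/
noncomputable def XI (q : ℝ) : ℝ := gg q + PP q / q ^ 4

lemma XI_eq {q : ℝ} (hq : 1 < q) : XI q = 1 / q + 1 / q ^ 4 + (q + 1) / (q ^ 6 * (q ^ 3 - 1)) := by
  have h0 : q ≠ 0 := by linarith
  have h3 : 1 < q ^ 3 := one_lt_pow₀ hq (by norm_num)
  have h1 : q - 1 ≠ 0 := by linarith
  have h2 : q ^ 2 + q + 1 ≠ 0 := by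
    have : 0 < q := by linarith
    positivity
  have e1 : q ^ 3 - 1 = (q - 1) * (q ^ 2 + q + 1) := by ring
  unfold XI gg PP NN
  rw [e1]
  field_simp
  ring

lemma XI_anti {p q : ℝ} (hp : 1 < p) (hpq : p < q) : XI q < XI p := by
  rw [XI_eq hp, XI_eq (hp.trans hpq)]
  have hp0 : 0 < p := by linarith
  have hq0 : 0 < q := by linarith
  have hp3 : 1 < p ^ 3 := one_lt_pow₀ hp (by norm_num)
  have hq3 : 1 < q ^ 3 := one_lt_pow₀ (hp.trans hpq) (by norm_num)
  have h1 : 1 / q < 1 / p := one_div_lt_one_div_of_lt hp0 hpq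
  have h2 : 1 / q ^ 4 ≤ 1 / p ^ 4 := one_div_le_one_div_of_le (by positivity) (pow_le_pow_left₀ hp0.le hpq.le 4)
  have e : ∀ r : ℝ, 1 < r → (r + 1) / (r ^ 6 * (r ^ 3 - 1)) = (1 / r ^ 5 + 1 / r ^ 6) * (1 / (r ^ 3 - 1)) := by
    intro r hr
    have hr0 : 0 < r := by linarith
    have hr3 : 1 < r ^ 3 := one_lt_pow₀ hr (by norm_num)
    have : r ^ 3 - 1 ≠ 0 := by linarith
    field_simp
  rw [e p hp, e q (hp.trans hpq)]
  have h5 : 1 / q ^ 5 ≤ 1 / p ^ 5 := one_div_le_one_div_of_le (by positivity) (pow_le_pow_left₀ hp0.le hpq.le 5)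
  have h6 : 1 / q ^ 6 ≤ 1 / p ^ 6 := one_div_le_one_div_of_le (by positivity) (pow_le_pow_left₀ hp0.le hpq.le 6)
  have h7 : 1 / (q ^ 3 - 1) ≤ 1 / (p ^ 3 - 1) := by
    refine one_div_le_one_div_of_le (by linarith) ?_
    linarith [pow_le_pow_left₀ hp0.le hpq.le 3]
  have h8 : (1 / q ^ 5 + 1 / q ^ 6) * (1 / (q ^ 3 - 1)) ≤ (1 / p ^ 5 + 1 / p ^ 6) * (1 / (p ^ 3 - 1)) := by
    refine mul_le_mul (by linarith) h7 ?_ (by positivity)
    have : 0 < q ^ 3 - 1 := by linarith
    positivity
  linarith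

/-- numerical position of the special value -/
lemma gg_root_bounds {a : ℝ} (ha : Root a) : psi < gg a ∧ gg a < 0.65 := by
  have hpb := psi_bounds
  have h1 : gg 1.8714 ≤ gg a := gg_anti_le (by linarith [ha.l]) ha.u.le
  have h2 : gg a ≤ gg 1.8713 := gg_anti_le (by norm_num) ha.l.le
  have h3 : (0.62 : ℝ) < gg 1.8714 := by unfold gg; norm_num
  have h4 : gg 1.8713 < 0.65 := by unfold gg; norm_num
  exact ⟨by linarith [hpb.2], by linarith⟩

lemma base_gt_of_le {a q x : ℝ} (ha : Root a) (hx1 : psi ≤ x) (hx2 : x ≤ gg a) (hq : q ∈ univoqueBases x) :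
    a < q := by
  by_contra hcon
  push Not at hcon
  have hg := gg_root_bounds ha
  have := lower hq.1 (by linarith [ha.u]) hx1 (by linarith) hq.2.2
  have h2 : gg a ≤ gg q := gg_anti_le hq.1 hcon
  linarith

/-- bases approximating the root from above -/
lemma exists_base_near {a : ℝ} (ha : Root a) {ε : ℝ} (hε : 0 < ε) : ∃ q ∈ univoqueBases (gg a), q < a + ε := by
  have haq : 1 < a := by linarith [ha.l]
  set b := min (a + ε) 1.8719 with hb
  have hab : a < b := lt_min (by linarith) (by linarith [ha.u])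
  have hb2 : b ≤ 1.8719 := min_le_right _ _
  have hbε : b ≤ a + ε := min_le_left _ _
  have hbq : 1 < b := by linarith
  have hXI : XI b < gg a := by
    have h1 := XI_anti haq hab
    have h2 : XI a = gg a := by unfold XI; rw [ha.PP]; simp
    linarith
  obtain ⟨n, hn⟩ := pow_unbounded_of_one_lt ((hh b - mm b) / (gg a - XI b)) hbq
  have hD : 0 < hh b - mm b := DD_pos (PB.mk' (by linarith [ha.l]) (by linarith))
  have hXb : XX n b < gg a := by
    have e : XX n b = XI b + (hh b - mm b) / b ^ (3 * n + 7) := by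
      rw [XX_eq hbq]
      unfold XI
      have : b ^ (3 * n + 7) = b ^ (3 * n + 3) * b ^ 4 := by rw [← pow_add]
      rw [this]
      have hb0 : b ≠ 0 := by linarith
      field_simp
      ring
    rw [e]
    have h1 : b ^ n ≤ b ^ (3 * n + 7) := pow_le_pow_right₀ hbq.le (by omega)
    have hxp : 0 < gg a - XI b := by linarith
    have h2 : (hh b - mm b) / b ^ (3 * n + 7) < gg a - XI b := by
      rw [div_lt_iff₀ (by positivity)]
      rw [div_lt_iff₀ hxp] at hn
      nlinarith
    linarith
  have hXa : gg a < XX n a := by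
    rw [XX_root ha]
    have : 0 < (hh a - mm a) / a ^ (3 * n + 7) := by
      have := DD_pos ha.pb
      positivity
    linarith
  obtain ⟨q, hq, _, hqb⟩ := cover (a := a) (b := b) haq hab.le (by linarith) (XX n)
    (XX_cont n _ (by linarith [ha.l])) hXb hXa (fun q hq1 hq2 hqx => by
      refine XX_mem (PB.mk' (by linarith [ha.l]) (by linarith)) n ?_
      rw [hqx]
      exact gg_anti haq hq1)
  exact ⟨q, hq, by linarith⟩

lemma qs_root {a : ℝ} (ha : Root a) : qs (gg a) = a := by
  have hg := gg_root_bounds ha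
  apply le_antisymm
  · refine le_of_forall_pos_lt_add fun ε hε => ?_
    obtain ⟨q, hq, hqa⟩ := exists_base_near ha hε
    exact lt_of_le_of_lt (qs_le_of_mem hq) hqa
  · obtain ⟨q, hq, _⟩ := exists_base_near ha one_pos
    exact le_csInf ⟨q, hq⟩ fun r hr => (base_gt_of_le ha hg.1.le le_rfl hr).le

/-- below the special value, all univoque bases stay away from the root -/
lemma qs_ne_of_lt {a x : ℝ} (ha : Root a) (hx1 : psi ≤ x) (hx2 : x < gg a) : qs x ≠ a := by
  have haq : 1 < a := by linarith [ha.l]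
  have hg := gg_root_bounds ha
  by_cases hne : (univoqueBases x).Nonempty
  · -- a point p > a with gg p > x
    obtain ⟨p, hpa, hp19, hpx⟩ : ∃ p, a < p ∧ p ≤ 1.9 ∧ x < gg p := by
      have hc : ContinuousWithinAt gg (Set.Icc a 1.9) a :=
        (gg_cont (b := 1.9) a haq) a ⟨le_rfl, by linarith [ha.u]⟩
      have hev : ∀ᶠ p in 𝓝[Set.Icc a 1.9] a, x < gg p := hc.eventually (lt_mem_nhds hx2)
      rw [eventually_nhdsWithin_iff, Metric.eventually_nhds_iff] at hev
      obtain ⟨δ, hδ, hev⟩ := hev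
      refine ⟨min (a + δ / 2) 1.9, ?_, min_le_right _ _, ?_⟩
      · exact lt_min (by linarith) (by linarith [ha.u])
      · have h1 : a < min (a + δ / 2) 1.9 := lt_min (by linarith) (by linarith [ha.u])
        refine hev ?_ ⟨h1.le, min_le_right _ _⟩
        rw [Real.dist_eq, abs_of_pos (by linarith)]
        linarith [min_le_left (a + δ / 2) 1.9]
    have : p ≤ qs x := by
      refine le_csInf hne fun q hq => ?_
      by_contra hcon
      push Not at hcon
      have h1 := lower hq.1 (by linarith) hx1 (by linarith) hq.2.2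
      have h2 := gg_anti hq.1 hcon
      linarith
    linarith
  · rw [Set.not_nonempty_iff_eq_empty] at hne
    unfold qs
    rw [hne, Real.sInf_empty]
    linarith

/-- outside of `[1/φ, g(a)]` there are univoque bases below the root -/
lemma exists_base_lt {a x : ℝ} (ha : Root a) (hx0 : 0 < x) (hx : x < psi ∨ gg a < x) :
    ∃ q ∈ univoqueBases x, q < a := by
  have hpb := psi_bounds
  rcases hx with hx | hx
  · rcases lt_or_ge x 0.37 with h | h
    · exact cover_zeros ha hx0 (by linarith)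
    rcases lt_or_ge x 0.41 with h' | h'
    · exact cover_zeroC ha (by linarith) (by linarith)
    · exact cover_zeroA ha (by linarith) hx
  · rcases le_or_gt x (XX 0 a) with h | h
    · exact cover_fam ha hx h
    rcases lt_or_ge x 0.630645 with h1 | h1
    · exact cover_fam0 ha h (by linarith)
    rcases lt_or_ge x 0.64 with h2 | h2
    · exact cover_B ha (by linarith) (by linarith)
    rcases lt_or_ge x 0.65 with h3 | h3
    · exact cover_A100100 ha (by linarith) (by linarith)
    rcases lt_or_ge x 0.68 with h4 | h4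
    · exact cover_A100 ha (by linarith) (by linarith)
    rcases lt_or_ge x 0.7495 with h5 | h5
    · exact cover_C ha (by linarith) (by linarith)
    rcases lt_or_ge x 0.95 with h6 | h6
    · exact cover_A ha (by linarith) (by linarith)
    rcases lt_or_ge x 1.21 with h7 | h7
    · exact cover_oneA ha (by linarith) (by linarith)
    · exact cover_ones ha (by linarith)

/-- The base `a` is univoque. -/
lemma root_univoque {a : ℝ} (ha : Root a) : a ∈ univoqueBases 1 := by
  have haq : 1 < a := by linarith [ha.l]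
  have ha0 : 0 < a := by linarith
  have h2 := pow2_bd ha.l ha.u
  have h3 := pow3_bd ha.l ha.u
  have hNN : a ^ 5 - a ^ 4 - a ^ 3 - 2 * a ^ 2 + a + 1 = 0 := ha.e
  have ha1 : 0 < a - 1 := by linarith
  have hk : 1 / (a - 1) < 1.148 := by
    rw [div_lt_iff₀ ha1]; linarith [ha.l]
  set t := a ^ 3 - a ^ 2 - a - 1 with ht
  have ht0 : 0.17 < t := by rw [ht]; linarith [ha.u]
  have ht1 : t < 0.19 := by rw [ht]; linarith [ha.l]
  have hta : a ^ 3 * t - 1 = t := by
    rw [ht]
    have : a ^ 3 * (a ^ 3 - a ^ 2 - a - 1) - 1 - (a ^ 3 - a ^ 2 - a - 1)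
      = a * (a ^ 5 - a ^ 4 - a ^ 3 - 2 * a ^ 2 + a + 1) := by ring
    rw [hNN, mul_zero] at this
    linarith
  have hge : (1.14:ℝ) ≤ 1 / (a - 1) := by
    rw [le_div_iff₀ ha1]; linarith [ha.u]
  refine ⟨haq, by linarith [ha.u], ?_⟩
  refine mem_Uq_of_inv haq {1, a - 1, a ^ 2 - a - 1, t, a * t, a ^ 2 * t} ?_ ?_ (by simp)
  · rintro y (rfl | rfl | rfl | rfl | rfl | rfl)
    · exact ⟨by norm_num, by linarith⟩
    · exact ⟨by linarith, by linarith [ha.u]⟩
    · exact ⟨by linarith [ha.u], by linarith [ha.l]⟩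
    · exact ⟨by linarith, by linarith⟩
    · exact ⟨by positivity, by nlinarith [ha.u]⟩
    · exact ⟨by positivity, by nlinarith [ha.u]⟩
  · rintro y (rfl | rfl | rfl | rfl | rfl | rfl)
    · right
      refine ⟨by simp, by linarith [ha.l]⟩
    · right
      have e : a * (a - 1) - 1 = a ^ 2 - a - 1 := by ring
      rw [e]
      refine ⟨by simp, ?_⟩
      have e2 : a * (a - 1) = a ^ 2 - a := by ring
      rw [e2]; linarith [ha.u]
    · right
      have e : a * (a ^ 2 - a - 1) - 1 = t := by rw [ht]; ring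
      rw [e]
      refine ⟨by simp, ?_⟩
      have e2 : a * (a ^ 2 - a - 1) = t + 1 := by rw [ht]; ring
      rw [e2]; linarith
    · left
      exact ⟨by simp, by nlinarith [ha.u]⟩
    · left
      have e : a * (a * t) = a ^ 2 * t := by ring
      rw [e]
      exact ⟨by simp, by nlinarith [ha.u]⟩
    · right
      have e : a * (a ^ 2 * t) = a ^ 3 * t := by ring
      rw [e, hta]
      exact ⟨by simp, by linarith⟩

/-- `13/21` is univoque in base `2`, and `q_s(13/21)` is larger than the root. -/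
lemma thirteen : (2:ℝ) ∈ univoqueBases (13 / 21) := by
  refine ⟨by norm_num, le_rfl, ?_⟩
  refine mem_Uq_of_inv (by norm_num) {13 / 21, 5 / 21, 10 / 21, 20 / 21, 19 / 21, 17 / 21} ?_ ?_ (by simp)
  · rintro y (rfl | rfl | rfl | rfl | rfl | rfl) <;> norm_num
  · rintro y (rfl | rfl | rfl | rfl | rfl | rfl) <;> norm_num

lemma root_lt_qmax {a : ℝ} (ha : Root a) : a < qmax := by
  have hpb := psi_bounds
  have h1 : (1.872:ℝ) ≤ qs (13 / 21) := by
    refine le_csInf ⟨2, thirteen⟩ fun q hq => ?_
    by_contra hcon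
    push Not at hcon
    have h1 := lower hq.1 (by linarith) (x := 13 / 21) (by linarith [hpb.2]) (by norm_num) hq.2.2
    have h2 : gg 1.872 ≤ gg q := gg_anti_le hq.1 hcon.le
    have h3 : (13 / 21 : ℝ) < gg 1.872 := by unfold gg; norm_num
    linarith
  have h2 : qs (13 / 21) ≤ qmax := qs_le_qmax (by norm_num)
  linarith [ha.u]

lemma levelSet_root {a : ℝ} (ha : Root a) : levelSet a = {gg a} := by
  have hg := gg_root_bounds ha
  have hpb := psi_bounds
  ext x
  constructor
  · rintro ⟨hx0, hx⟩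
    by_contra hne
    have hne' : x ≠ gg a := hne
    rcases lt_or_ge x psi with h | h
    · obtain ⟨q, hq, hqa⟩ := exists_base_lt ha hx0 (Or.inl h)
      have := qs_le_of_mem hq
      linarith
    rcases lt_trichotomy x (gg a) with h' | h' | h'
    · exact qs_ne_of_lt ha h h' hx
    · exact hne' h'
    · obtain ⟨q, hq, hqa⟩ := exists_base_lt ha hx0 (Or.inr h')
      have := qs_le_of_mem hq
      linarith
  · rintro rfl
    exact ⟨by linarith [hg.1], qs_root ha⟩

end Pool.Agent.helper80.Univ
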