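import Mathlib
import Pool.Agent.helper80.Univoque

set_option autoImplicit false
open Filter Topology

namespace Pool.Agent.helper80.Univ

/-- value of a digit sequence in base `q` -/
noncomputable def val (q : ℝ) (d : ℕ → Fin 2) : ℝ := ∑' i : ℕ, ((d i : ℕ) : ℝ) / q ^ (i + 1)

/-- digit as a real number -/
noncomputable def dg (b : Fin 2) : ℝ := ((b : ℕ) : ℝ)

@[simp] lemma dg_zero : dg 0 = 0 := by simp [dg]
@[simp] lemma dg_one : dg 1 = 1 := by simp [dg]
lemma dg_nonneg (b : Fin 2) : 0 ≤ dg b := digit_nonneg b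
lemma dg_le_one (b : Fin 2) : dg b ≤ 1 := digit_le_one b

/-- reflection -/
def refl (d : ℕ → Fin 2) : ℕ → Fin 2 := fun i => 1 - d i

/-- shift -/
def sh (n : ℕ) (d : ℕ → Fin 2) : ℕ → Fin 2 := fun i => d (i + n)

lemma fin2_sub (b : Fin 2) : dg (1 - b) = 1 - dg b := by
  rcases fin2_cases b with rfl | rfl <;> simp

lemma fin2_sub_sub (b : Fin 2) : 1 - (1 - b) = b := by
  rcases fin2_cases b with rfl | rfl <;> rfl

lemma refl_refl (d : ℕ → Fin 2) : refl (refl d) = d := by
  funext i; exact fin2_sub_sub _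

lemma refl_apply (d : ℕ → Fin 2) (i : ℕ) : refl d i = 1 - d i := rfl

lemma sh_apply (n : ℕ) (d : ℕ → Fin 2) (i : ℕ) : sh n d i = d (i + n) := rfl

lemma sh_sh (m n : ℕ) (d : ℕ → Fin 2) : sh m (sh n d) = sh (m + n) d := by
  funext i; simp only [sh_apply]; congr 1; ring

lemma sh_zero (d : ℕ → Fin 2) : sh 0 d = d := by
  funext i; simp [sh_apply]

lemma sh_refl (n : ℕ) (d : ℕ → Fin 2) : sh n (refl d) = refl (sh n d) := rfl

lemma summable_ones {q : ℝ} (hq : 1 < q) : Summable (fun i : ℕ => (1:ℝ) / q ^ (i + 1)) :=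
  (hasSum_ones hq).summable

lemma summable_dig {q : ℝ} (hq : 1 < q) (d : ℕ → Fin 2) :
    Summable (fun i : ℕ => dg (d i) / q ^ (i + 1)) := by
  have h0 : 0 < q := by linarith
  refine Summable.of_nonneg_of_le (fun i => div_nonneg (dg_nonneg _) (by positivity)) (fun i => ?_)
    (summable_ones hq)
  exact div_le_div_of_nonneg_right (dg_le_one _) (by positivity)

lemma val_hasSum {q : ℝ} (hq : 1 < q) (d : ℕ → Fin 2) : IsExpansion q (val q d) d :=
  (summable_dig hq d).hasSum

lemma val_eq_of {q x : ℝ} {d : ℕ → Fin 2} (h : IsExpansion q x d) : val q d = x := h.tsum_eq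

lemma val_nonneg {q : ℝ} (hq : 1 < q) (d : ℕ → Fin 2) : 0 ≤ val q d := (val_hasSum hq d).nonneg hq

lemma val_le {q : ℝ} (hq : 1 < q) (d : ℕ → Fin 2) : val q d ≤ 1 / (q - 1) := (val_hasSum hq d).le hq

lemma val_step {q : ℝ} (hq : 1 < q) (d : ℕ → Fin 2) : q * val q d = dg (d 0) + val q (sh 1 d) := by
  have h1 := (val_hasSum hq d).shift hq
  have h2 := val_eq_of h1
  have h3 : sh 1 d = fun i => d (i + 1) := rfl
  rw [h3, h2]
  unfold dg; ring

/-- partial sums -/
noncomputable def psum (q : ℝ) (d : ℕ → Fin 2) (n : ℕ) : ℝ := ∑ i ∈ Finset.range n, dg (d i) / q ^ (i + 1)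

lemma psum_succ (q : ℝ) (d : ℕ → Fin 2) (n : ℕ) :
    psum q d (n + 1) = psum q d n + dg (d n) / q ^ (n + 1) := Finset.sum_range_succ _ _

@[simp] lemma psum_zero (q : ℝ) (d : ℕ → Fin 2) : psum q d 0 = 0 := by simp [psum]

lemma val_split {q : ℝ} (hq : 1 < q) (d : ℕ → Fin 2) (n : ℕ) :
    val q d = psum q d n + val q (sh n d) / q ^ n := by
  have h0 : q ≠ 0 := by linarith
  induction n with
  | zero => simp [sh_zero]
  | succ n ih =>
    have h1 := val_step hq (sh n d)
    rw [sh_sh, sh_apply, zero_add, add_comm 1 n] at h1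
    rw [ih, psum_succ]
    have h2 : val q (sh n d) = (dg (d n) + val q (sh (n + 1) d)) / q := by
      rw [← h1]; field_simp
    rw [h2, pow_succ]
    have hp : q ^ n ≠ 0 := pow_ne_zero _ h0
    field_simp
    ring

lemma val_refl {q : ℝ} (hq : 1 < q) (d : ℕ → Fin 2) : val q (refl d) = 1 / (q - 1) - val q d := by
  have h1 := (hasSum_ones hq).sub (val_hasSum hq d)
  refine val_eq_of ?_
  unfold IsExpansion
  refine h1.congr_fun ?_ |> fun h => h
  intro i
  have : (((refl d i : Fin 2) : ℕ) : ℝ) = 1 - ((d i : ℕ) : ℝ) := fin2_sub (d i)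
  rw [this]; ring

lemma psum_congr {q : ℝ} {d e : ℕ → Fin 2} {n : ℕ} (h : ∀ i < n, d i = e i) : psum q d n = psum q e n := by
  unfold psum
  refine Finset.sum_congr rfl fun i hi => ?_
  rw [h i (Finset.mem_range.mp hi)]

lemma psum_nonneg {q : ℝ} (hq : 1 < q) (d : ℕ → Fin 2) (n : ℕ) : 0 ≤ psum q d n :=
  Finset.sum_nonneg fun i _ => div_nonneg (dg_nonneg _) (by positivity)

/-- first difference formula -/
lemma val_diff {q : ℝ} (hq : 1 < q) {d e : ℕ → Fin 2} {k : ℕ} (h : ∀ i < k, d i = e i) :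
    val q d - val q e = (dg (d k) - dg (e k) + val q (sh (k + 1) d) - val q (sh (k + 1) e)) / q ^ (k + 1) := by
  rw [val_split hq d (k + 1), val_split hq e (k + 1), psum_succ, psum_succ, psum_congr h]
  ring

lemma val_close {q : ℝ} (hq : 1 < q) {d e : ℕ → Fin 2} {k : ℕ} (h : ∀ i < k, d i = e i) :
    |val q d - val q e| ≤ 1 / (q - 1) / q ^ k := by
  have h0 : 0 < q := by linarith
  have h1 : 0 < q - 1 := by linarith
  rw [val_split hq d k, val_split hq e k, psum_congr h]
  have e1 : psum q e k + val q (sh k d) / q ^ k - (psum q e k + val q (sh k e) / q ^ k)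
      = (val q (sh k d) - val q (sh k e)) / q ^ k := by ring
  rw [e1, abs_div, abs_of_pos (by positivity : 0 < q ^ k)]
  refine div_le_div_of_nonneg_right ?_ (by positivity)
  rw [abs_le]
  constructor
  · linarith [val_nonneg hq (sh k d), val_le hq (sh k e)]
  · linarith [val_nonneg hq (sh k e), val_le hq (sh k d)]

/-- monotonicity in the base -/
lemma val_mul_le {p q : ℝ} (hp : 1 < p) (hpq : p ≤ q) (d : ℕ → Fin 2) : val q d ≤ p / q * val p d := by
  have hq : 1 < q := by linarith
  have hp0 : 0 < p := by linarith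
  have hq0 : 0 < q := by linarith
  have h1 := (val_hasSum hp d).mul_left (p / q)
  refine hasSum_le (fun i => ?_) (val_hasSum hq d) h1
  have h2 : p / q * (((d i : ℕ) : ℝ) / p ^ (i + 1)) = ((d i : ℕ) : ℝ) / (q * p ^ i) := by
    rw [pow_succ]; field_simp
  rw [h2, pow_succ, mul_comm (q ^ i) q]
  have h3 : p ^ i ≤ q ^ i := pow_le_pow_left₀ hp0.le hpq i
  exact div_le_div_of_nonneg_left (digit_nonneg _) (by positivity) (mul_le_mul_of_nonneg_left h3 hq0.le)

lemma val_anti {p q : ℝ} (hp : 1 < p) (hpq : p ≤ q) (d : ℕ → Fin 2) : val q d ≤ val p d := by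
  have hq0 : 0 < q := by linarith
  have h1 := val_mul_le hp hpq d
  have h2 : p / q ≤ 1 := by rw [div_le_one hq0]; exact hpq
  have h3 := val_nonneg hp d
  nlinarith

lemma val_lt_one {p q : ℝ} (hp : 1 < p) (hpq : p < q) {d : ℕ → Fin 2} (h : val p d ≤ 1) : val q d < 1 := by
  have hq0 : 0 < q := by linarith
  have h1 := val_mul_le hp hpq.le d
  have h2 : p / q < 1 := by rw [div_lt_one hq0]; exact hpq
  have h3 := val_nonneg hp d
  have h4 : 0 ≤ p / q := by positivity
  nlinarith

lemma val_strictAnti {p q : ℝ} (hp : 1 < p) (hpq : p < q) {d : ℕ → Fin 2} (h : 0 < val p d) :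
    val q d < val p d := by
  have hq0 : 0 < q := by linarith
  have h1 := val_mul_le hp hpq.le d
  have h2 : p / q < 1 := by rw [div_lt_one hq0]; exact hpq
  nlinarith

lemma psum_anti {p q : ℝ} (hp : 1 < p) (hpq : p ≤ q) (d : ℕ → Fin 2) (n : ℕ) : psum q d n ≤ psum p d n := by
  unfold psum
  refine Finset.sum_le_sum fun i _ => ?_
  exact div_le_div_of_nonneg_left (dg_nonneg _) (by positivity) (pow_le_pow_left₀ (by linarith) hpq _)

lemma psum_anti' {p q : ℝ} (hp : 1 < p) (hpq : p ≤ q) (d : ℕ → Fin 2) (hd : d 0 = 1) {n : ℕ} (hn : 1 ≤ n) :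
    psum q d n + (1 / p - 1 / q) ≤ psum p d n := by
  obtain ⟨m, rfl⟩ := Nat.exists_eq_add_of_le hn
  unfold psum
  rw [add_comm 1 m, Finset.sum_range_succ', Finset.sum_range_succ']
  rw [hd]
  simp only [dg_one, zero_add, pow_one]
  have : ∑ i ∈ Finset.range m, dg (d (i + 1)) / q ^ (i + 1 + 1) ≤ ∑ i ∈ Finset.range m, dg (d (i + 1)) / p ^ (i + 1 + 1) := by
    refine Finset.sum_le_sum fun i _ => ?_
    exact div_le_div_of_nonneg_left (dg_nonneg _) (by positivity) (pow_le_pow_left₀ (by linarith) hpq _)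
  linarith

lemma val_cont {s b : ℝ} (hs : 1 < s) (d : ℕ → Fin 2) : ContinuousOn (fun q => val q d) (Set.Icc s b) := by
  unfold val
  refine continuousOn_tsum (u := fun i => 1 / s ^ (i + 1)) (fun i => ?_) (summable_ones hs) (fun i q hq => ?_)
  · refine ContinuousOn.div continuousOn_const (by fun_prop) ?_
    intro q hq
    have : q ≠ 0 := by linarith [hq.1]
    exact pow_ne_zero _ this
  · have hq0 : 0 < q := by linarith [hq.1]
    rw [Real.norm_eq_abs, abs_of_nonneg (div_nonneg (digit_nonneg _) (by positivity))]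
    have h1 : ((d i : ℕ) : ℝ) / q ^ (i + 1) ≤ 1 / q ^ (i + 1) :=
      div_le_div_of_nonneg_right (digit_le_one _) (by positivity)
    refine h1.trans (one_div_le_one_div_of_le (by positivity) (pow_le_pow_left₀ (by linarith) hq.1 _))

/-- the tail attached to a position -/
def tl (d : ℕ → Fin 2) (n : ℕ) : ℕ → Fin 2 := if d n = 0 then sh (n + 1) d else refl (sh (n + 1) d)

lemma tl_zero {d : ℕ → Fin 2} {n : ℕ} (h : d n = 0) : tl d n = sh (n + 1) d := by simp [tl, h]

lemma tl_one {d : ℕ → Fin 2} {n : ℕ} (h : d n = 1) : tl d n = refl (sh (n + 1) d) := by simp [tl, h]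

/-- strict and weak univoque conditions -/
def Uni (q : ℝ) (d : ℕ → Fin 2) : Prop := ∀ n, val q (tl d n) < 1

def Wni (q : ℝ) (d : ℕ → Fin 2) : Prop := ∀ n, val q (tl d n) ≤ 1

lemma Uni.wni {q : ℝ} {d : ℕ → Fin 2} (h : Uni q d) : Wni q d := fun n => (h n).le

lemma Wni.uni {p q : ℝ} (hp : 1 < p) (hpq : p < q) {d : ℕ → Fin 2} (h : Wni p d) : Uni q d :=
  fun n => val_lt_one hp hpq (h n)

lemma Uni.mono {p q : ℝ} (hp : 1 < p) (hpq : p ≤ q) {d : ℕ → Fin 2} (h : Uni p d) : Uni q d :=
  fun n => lt_of_le_of_lt (val_anti hp hpq _) (h n)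

lemma Uni.zero {q : ℝ} {d : ℕ → Fin 2} (h : Uni q d) {n : ℕ} (hn : d n = 0) : val q (sh (n + 1) d) < 1 := by
  have := h n; rwa [tl_zero hn] at this

lemma Uni.one {q : ℝ} (hq : 1 < q) {d : ℕ → Fin 2} (h : Uni q d) {n : ℕ} (hn : d n = 1) :
    1 / (q - 1) - 1 < val q (sh (n + 1) d) := by
  have := h n; rw [tl_one hn, val_refl hq] at this; linarith

lemma Uni.shift {q : ℝ} {d : ℕ → Fin 2} (h : Uni q d) (m : ℕ) : Uni q (sh m d) := by
  intro n
  have := h (n + m)
  unfold tl at *
  rw [sh_apply, sh_sh]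
  have e : n + 1 + m = n + m + 1 := by ring
  rw [e]
  exact this

lemma Uni.mem {q : ℝ} (hq : 1 < q) {d : ℕ → Fin 2} (h : Uni q d) : val q d ∈ Uq q := by
  refine mem_Uq_of_inv hq (Set.range fun n => val q (sh n d)) ?_ ?_ ⟨0, by simp [sh_zero]⟩
  · rintro _ ⟨n, rfl⟩
    exact ⟨val_nonneg hq _, val_le hq _⟩
  · rintro _ ⟨n, rfl⟩
    have h1 := val_step hq (sh n d)
    rw [sh_sh, sh_apply, zero_add, add_comm 1 n] at h1
    simp only
    rcases fin2_cases (d n) with h0 | h0
    · left
      rw [h1, h0, dg_zero, zero_add]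
      exact ⟨⟨n + 1, rfl⟩, h.zero h0⟩
    · right
      rw [h1, h0, dg_one, add_sub_cancel_left]
      exact ⟨⟨n + 1, rfl⟩, by linarith [h.one hq h0]⟩

/-- The unique expansion of a univoque number satisfies the univoque condition. -/
lemma exists_uni {q x : ℝ} (hq : 1 < q) (hq2 : q ≤ 2) (hx : x ∈ Uq q) : ∃ d, val q d = x ∧ Uni q d := by
  have hx' := hx
  obtain ⟨d, hd, _⟩ := hx'
  have hv := val_eq_of hd
  refine ⟨d, hv, ?_⟩
  have hq1 : 0 < q - 1 := by linarith
  have key : ∀ n, val q (sh n d) ∈ Uq q := by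
    intro n
    induction n with
    | zero => rw [sh_zero, hv]; exact hx
    | succ n ih =>
      have h1 := val_step hq (sh n d)
      rw [sh_sh, sh_apply, zero_add, add_comm 1 n] at h1
      rcases Uq_switch hq hq2 ih with h | h
      · have h0 := digit_zero_of hq (val_hasSum hq (sh n d)) h
        rw [sh_apply, zero_add] at h0
        have h3 := Uq_shift_zero hq ih h
        rw [h1, h0, dg_zero, zero_add] at h3
        exact h3
      · have h0 := digit_one_of hq (val_hasSum hq (sh n d)) h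
        rw [sh_apply, zero_add] at h0
        have h3 := Uq_shift_one hq ih h
        rw [h1, h0, dg_one, add_sub_cancel_left] at h3
        exact h3
  intro n
  have h1 := val_step hq (sh n d)
  rw [sh_sh, sh_apply, zero_add, add_comm 1 n] at h1
  rcases fin2_cases (d n) with h0 | h0
  · rw [tl_zero h0]
    rw [h0, dg_zero, zero_add] at h1
    rcases Uq_switch hq hq2 (key n) with h | h
    · linarith
    · exfalso
      have := val_le hq (sh (n + 1) d)
      linarith
  · rw [tl_one h0, val_refl hq]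
    rw [h0, dg_one] at h1
    rcases Uq_switch hq hq2 (key n) with h | h
    · exfalso
      have := val_nonneg hq (sh (n + 1) d)
      linarith
    · linarith

/-- lexicographic comparison by first difference -/
def LL (t a : ℕ → Fin 2) (k : ℕ) : Prop := (∀ i < k, t i = a i) ∧ t k = 0 ∧ a k = 1

lemma exists_LL {q : ℝ} (hq : 1 < q) {a t : ℕ → Fin 2} (ha : val q a = 1)
    (hz : ∀ k, a k = 0 → val q (sh (k + 1) a) ≤ 1) (ht : val q t < 1) : ∃ k, LL t a k := by
  classical
  have hne : ∃ k, t k ≠ a k := by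
    by_contra hcon
    push Not at hcon
    have : t = a := funext hcon
    rw [this] at ht
    linarith
  obtain ⟨k, hk, hmin⟩ : ∃ k, t k ≠ a k ∧ ∀ i < k, t i = a i :=
    ⟨Nat.find hne, Nat.find_spec hne, fun i hi => by simpa using Nat.find_min hne hi⟩
  refine ⟨k, hmin, ?_⟩
  rcases fin2_cases (a k) with h0 | h0
  · exfalso
    have h1 : t k = 1 := by
      rcases fin2_cases (t k) with h | h
      · exact absurd (h.trans h0.symm) hk
      · exact h
    have h2 := val_diff hq hmin
    rw [h0, h1, dg_zero, dg_one] at h2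
    have h3 := hz k h0
    have h4 := val_nonneg hq (sh (k + 1) t)
    have h5 : 0 ≤ (1 - 0 + val q (sh (k + 1) t) - val q (sh (k + 1) a)) / q ^ (k + 1) :=
      div_nonneg (by linarith) (by positivity)
    linarith
  · refine ⟨?_, h0⟩
    rcases fin2_cases (t k) with h | h
    · exact h
    · exact absurd (h.trans h0.symm) hk

lemma Uni.LL {q : ℝ} (hq : 1 < q) {a : ℕ → Fin 2} (ha : val q a = 1) (h : Uni q a) (n : ℕ) :
    ∃ k, LL (tl a n) a k :=
  exists_LL hq ha (fun _ hk => (h.zero hk).le) (h n)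

lemma tl_tl {d : ℕ → Fin 2} {n k : ℕ} (h : tl d n k = 0) : sh (k + 1) (tl d n) = tl d (n + 1 + k) := by
  rcases fin2_cases (d n) with h0 | h0
  · rw [tl_zero h0] at h ⊢
    rw [sh_apply] at h
    have h1 : d (n + 1 + k) = 0 := by rw [← h]; congr 1; ring
    rw [tl_zero h1, sh_sh]
    congr 1; ring
  · rw [tl_one h0] at h ⊢
    rw [refl_apply, sh_apply] at h
    have h1 : d (n + 1 + k) = 1 := by
      rcases fin2_cases (d (n + 1 + k)) with h2 | h2
      · rw [add_comm k (n + 1), h2] at h; exact absurd h (by decide)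
      · exact h2
    rw [tl_one h1, sh_refl, sh_sh]
    congr 2; ring

/-- lexicographic condition implies value condition -/
lemma uni_of_lex {q : ℝ} (hq : 1 < q) {c : ℕ → Fin 2} (hc : val q c = 1) (h : ∀ n, ∃ k, LL (tl c n) c k) :
    Uni q c := by
  have h0 : 0 < q := by linarith
  have hq1 : 0 < q - 1 := by linarith
  -- recursion
  have hrec : ∀ n, ∃ m k, val q (tl c n) = 1 - (1 + val q (sh (k + 1) c) - val q (tl c m)) / q ^ (k + 1) ∧ c k = 1 := by
    intro n
    obtain ⟨k, hk, hk0, hk1⟩ := h n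
    refine ⟨n + 1 + k, k, ?_, hk1⟩
    have h2 := val_diff hq hk
    rw [hk0, hk1, dg_zero, dg_one, tl_tl hk0, hc] at h2
    have h3 : val q (tl c n) = 1 + (0 - 1 + val q (tl c (n + 1 + k)) - val q (sh (k + 1) c)) / q ^ (k + 1) := by
      linarith
    rw [h3]; ring
  have hbdd : BddAbove (Set.range fun n => val q (tl c n)) := ⟨1 / (q - 1), by
    rintro _ ⟨n, rfl⟩; exact val_le hq _⟩
  set S := sSup (Set.range fun n => val q (tl c n)) with hS
  have hle : ∀ n, val q (tl c n) ≤ S := fun n => le_csSup hbdd ⟨n, rfl⟩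
  have hS1 : S ≤ 1 := by
    by_contra hcon
    push Not at hcon
    have h5 : S ≤ 1 + (S - 1) / q := by
      refine csSup_le (Set.range_nonempty _) ?_
      rintro _ ⟨n, rfl⟩
      obtain ⟨m, k, he, _⟩ := hrec n
      simp only
      rw [he]
      have h6 := hle m
      have h7 := val_nonneg hq (sh (k + 1) c)
      have h8 : q ≤ q ^ (k + 1) := by
        calc q = q ^ 1 := (pow_one q).symm
          _ ≤ q ^ (k + 1) := pow_le_pow_right₀ hq.le (by omega)
      have h9 : -(1 + val q (sh (k + 1) c) - val q (tl c m)) / q ^ (k + 1) ≤ (S - 1) / q := by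
        rw [div_le_div_iff₀ (by positivity) h0]
        have : -(1 + val q (sh (k + 1) c) - val q (tl c m)) * q ≤ (S - 1) * q :=
          mul_le_mul_of_nonneg_right (by linarith) h0.le
        have h10 : (S - 1) * q ≤ (S - 1) * q ^ (k + 1) := mul_le_mul_of_nonneg_left h8 (by linarith)
        linarith
      have h11 : -(1 + val q (sh (k + 1) c) - val q (tl c m)) / q ^ (k + 1)
        = - ((1 + val q (sh (k + 1) c) - val q (tl c m)) / q ^ (k + 1)) := by ring
      linarith
    have h12 : (S - 1) / q < S - 1 := by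
      rw [div_lt_iff₀ h0]; nlinarith
    linarith
  intro n
  obtain ⟨m, k, he, hk1⟩ := hrec n
  rw [he]
  have h6 : val q (tl c m) ≤ 1 := (hle m).trans hS1
  -- the tail of `c` is not zero
  have hpos : 0 < val q (sh (k + 1) c) := by
    obtain ⟨j, _, hj0, _⟩ := h k
    rw [tl_one hk1, refl_apply] at hj0
    have hj1 : sh (k + 1) c j = 1 := by
      rcases fin2_cases (sh (k + 1) c j) with h2 | h2
      · rw [h2] at hj0; exact absurd hj0 (by decide)
      · exact h2
    rw [val_split hq (sh (k + 1) c) (j + 1), psum_succ, hj1, dg_one]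
    have h13 := psum_nonneg hq (sh (k + 1) c) j
    have h14 := val_nonneg hq (sh (j + 1) (sh (k + 1) c))
    have h15 : 0 < 1 / q ^ (j + 1) := by positivity
    have h16 : 0 ≤ val q (sh (j + 1) (sh (k + 1) c)) / q ^ (j + 1) := by positivity
    linarith
  have : 0 < (1 + val q (sh (k + 1) c) - val q (tl c m)) / q ^ (k + 1) := div_pos (by linarith) (by positivity)
  linarith

end Pool.Agent.helper80.Univ
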