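import Mathlib
import Pool.Agent.helper80.UnivSeq

set_option autoImplicit false
open Filter Topology

namespace Pool.Agent.helper80.Univ

lemma LL_unique {t a : ℕ → Fin 2} {k k' : ℕ} (h : LL t a k) (h' : LL t a k') : k = k' := by
  rcases lt_trichotomy k k' with hlt | he | hlt
  · have := h'.1 k hlt
    rw [h.2.1, h.2.2] at this
    exact absurd this (by decide)
  · exact he
  · have := h.1 k' hlt
    rw [h'.2.1, h'.2.2] at this
    exact absurd this (by decide)

/-- `N` is good: no proper suffix of the block `a_0 ... a_N` is a reflected prefix. -/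
def Good (a : ℕ → Fin 2) (N : ℕ) : Prop := a N = 1 ∧ ∀ n < N, a n = 1 → ∀ k, LL (tl a n) a k → n + 1 + k ≤ N

lemma tl_one_apply {a : ℕ → Fin 2} {n : ℕ} (h : a n = 1) (i : ℕ) : tl a n i = 1 - a (n + 1 + i) := by
  rw [tl_one h, refl_apply, sh_apply]; congr 2; ring

lemma tl_zero_apply {a : ℕ → Fin 2} {n : ℕ} (h : a n = 0) (i : ℕ) : tl a n i = a (n + 1 + i) := by
  rw [tl_zero h, sh_apply]; congr 1; ring

lemma one_of_sub {b : Fin 2} (h : 1 - b = 0) : b = 1 := by
  rcases fin2_cases b with rfl | rfl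
  · exact absurd h (by decide)
  · rfl

lemma zero_of_sub {b : Fin 2} (h : 1 - b = 1) : b = 0 := by
  rcases fin2_cases b with rfl | rfl
  · rfl
  · exact absurd h (by decide)

/-- nesting of the matching intervals -/
lemma nested {a : ℕ → Fin 2} (hL : ∀ n, ∃ k, LL (tl a n) a k) {n n' k k' : ℕ} (hn : a n = 1) (hn' : a n' = 1)
    (hk : LL (tl a n) a k) (hk' : LL (tl a n') a k') (h1 : n < n') (h2 : n' < n + 1 + k) :
    n' + 1 + k' ≤ n + 1 + k := by
  by_contra hcon
  push Not at hcon
  obtain ⟨j, rfl⟩ : ∃ j, n' = n + 1 + j := ⟨n' - n - 1, by omega⟩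
  have hjk : j < k := by omega
  have hj0 : a j = 0 := by
    have := hk.1 j hjk
    rw [tl_one_apply hn, hn'] at this
    rw [← this]; rfl
  obtain ⟨k'', h''⟩ := hL j
  -- the position s
  obtain ⟨s, hs⟩ : ∃ s, k = j + 1 + s := ⟨k - j - 1, by omega⟩
  have hs' : s < k' := by omega
  have hagree : ∀ i < s, tl a j i = a i := by
    intro i hi
    rw [tl_zero_apply hj0]
    have e1 := hk.1 (j + 1 + i) (by omega)
    rw [tl_one_apply hn] at e1
    have e2 := hk'.1 i (by omega)
    rw [tl_one_apply hn'] at e2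
    rw [← e1, ← e2]
    congr 2; ring
  have hs1 : tl a j s = 1 := by
    rw [tl_zero_apply hj0, ← hs]; exact hk.2.2
  have hs2 : a s = 0 := by
    have e2 := hk'.1 s hs'
    rw [tl_one_apply hn'] at e2
    have e3 := hk.2.1
    rw [tl_one_apply hn] at e3
    rw [← e2, ← e3]
    congr 2; omega
  rcases lt_trichotomy k'' s with h | h | h
  · have := hagree k'' h
    rw [h''.2.1, h''.2.2] at this
    exact absurd this (by decide)
  · rw [← h, h''.2.2] at hs2
    exact absurd hs2 (by decide)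
  · have := h''.1 s h
    rw [hs1, hs2] at this
    exact absurd this (by decide)

/-- there are infinitely many good positions -/
lemma exists_good {a : ℕ → Fin 2} (hL : ∀ n, ∃ k, LL (tl a n) a k) (hinf : ∀ N0, ∃ N, N0 ≤ N ∧ a N = 1) (N0 : ℕ) :
    ∃ N, N0 ≤ N ∧ Good a N := by
  classical
  obtain ⟨N, hN, hN1⟩ := hinf N0
  by_cases hg : Good a N
  · exact ⟨N, hN, hg⟩
  have hex : ∃ n, n < N ∧ a n = 1 ∧ ∃ k, LL (tl a n) a k ∧ N < n + 1 + k := by
    unfold Good at hg
    push Not at hg
    obtain ⟨n, h1, h2, k, h3, h4⟩ := hg hN1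
    exact ⟨n, h1, h2, k, h3, by omega⟩
  obtain ⟨n, ⟨hnN, hn1, k, hk, hkN⟩, hmin⟩ : ∃ n, (n < N ∧ a n = 1 ∧ ∃ k, LL (tl a n) a k ∧ N < n + 1 + k) ∧
      ∀ n' < n, ¬ (n' < N ∧ a n' = 1 ∧ ∃ k, LL (tl a n') a k ∧ N < n' + 1 + k) :=
    ⟨Nat.find hex, Nat.find_spec hex, fun _ h => Nat.find_min hex h⟩
  refine ⟨n + 1 + k, by omega, ?_, ?_⟩
  · have := hk.2.1
    rw [tl_one_apply hn1] at this
    exact one_of_sub this
  · intro n' hn' hn'1 k' hk'
    rcases lt_trichotomy n' n with h | h | h
    · have := hmin n' h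
      by_contra hcon
      exact this ⟨by omega, hn'1, k', hk', by omega⟩
    · subst h
      rw [LL_unique hk hk']
    · exact nested hL hn1 hn'1 hk hk' h hn'

/-- first difference of `c` and `a`, after changing the digit at `M` -/
lemma LL_of_zero {a : ℕ → Fin 2} (hL : ∀ n, ∃ k, LL (tl a n) a k) {M n : ℕ} (hM : a M = 1) (hn : n < M) (hn0 : a n = 0)
    {c t : ℕ → Fin 2} (hc : ∀ i < M, c i = a i) (ht : ∀ i, n + 1 + i < M → t i = a (n + 1 + i))
    (ht' : ∀ i, n + 1 + i = M → t i = 0) : ∃ k, LL t c k := by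
  obtain ⟨k, hk⟩ := hL n
  have hka : ∀ i < k, a (n + 1 + i) = a i := fun i hi => by
    rw [← tl_zero_apply hn0]; exact hk.1 i hi
  have hk0 : a (n + 1 + k) = 0 := by rw [← tl_zero_apply hn0]; exact hk.2.1
  rcases lt_trichotomy (n + 1 + k) M with h | h | h
  · refine ⟨k, ?_, ?_, ?_⟩
    · intro i hi
      rw [ht i (by omega), hc i (by omega), hka i hi]
    · rw [ht k h]; exact hk0
    · rw [hc k (by omega)]; exact hk.2.2
  · exfalso
    rw [h, hM] at hk0
    exact absurd hk0 (by decide)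
  · obtain ⟨s, hs⟩ : ∃ s, n + 1 + s = M := ⟨M - n - 1, by omega⟩
    refine ⟨s, ?_, ht' s hs, ?_⟩
    · intro i hi
      rw [ht i (by omega), hc i (by omega), hka i (by omega)]
    · rw [hc s (by omega), ← hka s (by omega), hs, hM]

/-- the case of a digit one in a good block -/
lemma LL_of_one {a : ℕ → Fin 2} (hL : ∀ n, ∃ k, LL (tl a n) a k) {M n K : ℕ} (hM : Good a M) (hn : n < M) (hn1 : a n = 1)
    (hK : ∀ L k, Good a L → LL (tl a L) a k → k < K)
    {c t : ℕ → Fin 2} {R : ℕ} (hR : M - n + K ≤ R) (hc : ∀ i < R, c i = a i) (ht : ∀ i, n + 1 + i < M → t i = 1 - a (n + 1 + i))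
    (ht' : ∀ i, n + 1 + i = M → t i = 1) (ht2 : ∀ i, i ≤ K → t (M - n + i) = 1 - a i) : ∃ k, LL t c k := by
  obtain ⟨k, hk⟩ := hL n
  have hkM := hM.2 n hn hn1 k hk
  have hka : ∀ i < k, 1 - a (n + 1 + i) = a i := fun i hi => by
    rw [← tl_one_apply hn1]; exact hk.1 i hi
  have hk0 : 1 - a (n + 1 + k) = 0 := by rw [← tl_one_apply hn1]; exact hk.2.1
  rcases lt_or_eq_of_le hkM with h | h
  · refine ⟨k, ?_, ?_, ?_⟩
    · intro i hi
      rw [ht i (by omega), hc i (by omega), hka i hi]
    · rw [ht k h]; exact hk0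
    · rw [hc k (by omega)]; exact hk.2.2
  · -- `k` is a good position
    have hgk : Good a k := by
      refine ⟨hk.2.2, ?_⟩
      intro j hj hj1 k' hk'
      by_contra hcon
      push Not at hcon
      -- position n+1+j is a zero
      have hz : a (n + 1 + j) = 0 := by
        have := hka j hj
        rw [hj1] at this
        exact zero_of_sub this
      obtain ⟨k'', h''⟩ := hL (n + 1 + j)
      obtain ⟨s, hs⟩ : ∃ s, k = j + 1 + s := ⟨k - j - 1, by omega⟩
      have hagree : ∀ i < s, tl a (n + 1 + j) i = a i := by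
        intro i hi
        rw [tl_zero_apply hz]
        have e1 := hka (j + 1 + i) (by omega)
        have e2 := hk'.1 i (by omega)
        rw [tl_one_apply hj1] at e2
        rw [← e2, ← e1, fin2_sub_sub]
        congr 1; ring
      have hs1 : tl a (n + 1 + j) s = 1 := by
        rw [tl_zero_apply hz]
        have e : n + 1 + j + 1 + s = n + 1 + k := by omega
        rw [e, h]; exact hM.1
      have hs2 : a s = 0 := by
        have e2 := hk'.1 s (by omega)
        rw [tl_one_apply hj1, ← hs, hk.2.2] at e2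
        rw [← e2]; rfl
      rcases lt_trichotomy k'' s with h | h | h
      · have := hagree k'' h
        rw [h''.2.1, h''.2.2] at this
        exact absurd this (by decide)
      · rw [← h, h''.2.2] at hs2
        exact absurd hs2 (by decide)
      · have := h''.1 s h
        rw [hs1, hs2] at this
        exact absurd this (by decide)
    obtain ⟨r, hr⟩ := hL k
    have hrK := hK k r hgk hr
    refine ⟨k + 1 + r, ?_, ?_, ?_⟩
    · intro i hi
      rcases lt_trichotomy i k with h1 | h1 | h1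
      · rw [ht i (by omega), hc i (by omega), hka i h1]
      · rw [h1, ht' k h, hc k (by omega), hk.2.2]
      · obtain ⟨j, rfl⟩ : ∃ j, i = k + 1 + j := ⟨i - k - 1, by omega⟩
        have e : k + 1 + j = M - n + j := by omega
        rw [hc _ (by omega)]
        rw [e, ht2 j (by omega), ← e]
        have := hr.1 j (by omega)
        rw [tl_one_apply hk.2.2] at this
        rw [← this, fin2_sub_sub]
    · have e : k + 1 + r = M - n + r := by omega
      rw [e, ht2 r (by omega), hr.2.2]; rfl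
    · rw [hc _ (by omega)]
      have := hr.2.1
      rw [tl_one_apply hk.2.2] at this
      exact one_of_sub this

lemma LL_of_one' {a : ℕ → Fin 2} {M n k : ℕ} (hn1 : a n = 1) (hk : LL (tl a n) a k) (hkM : n + 1 + k < M)
    {c t : ℕ → Fin 2} (hc : ∀ i < M, c i = a i) (ht : ∀ i, n + 1 + i < M → t i = 1 - a (n + 1 + i)) :
    ∃ k, LL t c k := by
  refine ⟨k, ?_, ?_, ?_⟩
  · intro i hi
    rw [ht i (by omega), hc i (by omega), ← tl_one_apply hn1]
    exact hk.1 i hi
  · rw [ht k hkM, ← tl_one_apply hn1]; exact hk.2.1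
  · rw [hc k (by omega)]; exact hk.2.2

/-- the periodic sequence `(a_0 ... a_{P-1} 0)^∞` -/
def per (a : ℕ → Fin 2) (P : ℕ) : ℕ → Fin 2 := fun i => if i % (P + 1) = P then 0 else a (i % (P + 1))

lemma per_lt {a : ℕ → Fin 2} {P i : ℕ} (h : i < P) : per a P i = a i := by
  unfold per
  rw [Nat.mod_eq_of_lt (by omega), if_neg (by omega)]

lemma per_eq {a : ℕ → Fin 2} {P : ℕ} : per a P P = 0 := by
  unfold per
  rw [Nat.mod_eq_of_lt (by omega), if_pos rfl]

lemma per_add {a : ℕ → Fin 2} {P i : ℕ} : per a P (P + 1 + i) = per a P i := by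
  unfold per
  rw [Nat.add_mod_left]

lemma per_mod {a : ℕ → Fin 2} {P j i : ℕ} : per a P (j + i) = per a P (j % (P + 1) + i) := by
  unfold per
  rw [Nat.add_mod j i, Nat.add_mod (j % (P + 1)) i, Nat.mod_mod]

/-- the sequence `a_0 ... a_{M-1} 0 (a_0 ... a_{P-1} 0)^∞` -/
def cc (a : ℕ → Fin 2) (M P : ℕ) : ℕ → Fin 2 := fun i => if i < M then a i else if i = M then 0 else per a P (i - M - 1)

lemma cc_lt {a : ℕ → Fin 2} {M P i : ℕ} (h : i < M) : cc a M P i = a i := by
  unfold cc; rw [if_pos h]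

lemma cc_eq {a : ℕ → Fin 2} {M P : ℕ} : cc a M P M = 0 := by
  unfold cc; rw [if_neg (lt_irrefl _), if_pos rfl]

lemma cc_gt {a : ℕ → Fin 2} {M P i : ℕ} : cc a M P (M + 1 + i) = per a P i := by
  unfold cc; rw [if_neg (by omega), if_neg (by omega)]
  congr 1; omega

lemma cc_lex {a : ℕ → Fin 2} (hL : ∀ n, ∃ k, LL (tl a n) a k) {M P K : ℕ} (hM : Good a M) (hP : Good a P)
    (hKP : K < P) (hPM : P + K < M) (hK : ∀ L k, Good a L → LL (tl a L) a k → k < K)
    (hMK : ∀ n < K, a n = 1 → ∀ k, LL (tl a n) a k → n + 1 + k < M) (n : ℕ) :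
    ∃ k, LL (tl (cc a M P) n) (cc a M P) k := by
  have hcM : ∀ i < M, cc a M P i = a i := fun i hi => cc_lt hi
  have hcP : ∀ i < P, cc a M P i = a i := fun i hi => cc_lt (by omega)
  have hper : ∀ t : ℕ → Fin 2, (∀ i, t i = per a P i) → ∃ k, LL t (cc a M P) k := by
    intro t ht
    refine ⟨P, ?_, ?_, ?_⟩
    · intro i hi
      rw [ht, per_lt hi, hcP i hi]
    · rw [ht, per_eq]
    · rw [hcM P (by omega)]; exact hP.1
  rcases lt_trichotomy n M with h | h | h
  · have hcn : cc a M P n = a n := hcM n h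
    rcases fin2_cases (a n) with h0 | h0
    · have hcn0 : cc a M P n = 0 := by rw [hcn, h0]
      refine LL_of_zero hL hM.1 h h0 hcM ?_ ?_
      · intro i hi
        rw [tl_zero_apply hcn0, hcM _ hi]
      · intro i hi
        rw [tl_zero_apply hcn0, hi, cc_eq]
    · have hcn0 : cc a M P n = 1 := by rw [hcn, h0]
      have ht : ∀ i, n + 1 + i < M → tl (cc a M P) n i = 1 - a (n + 1 + i) := by
        intro i hi
        rw [tl_one_apply hcn0, hcM _ hi]
      rcases lt_or_ge n K with h1 | h1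
      · obtain ⟨k, hk⟩ := hL n
        exact LL_of_one' h0 hk (hMK n h1 h0 k hk) hcM ht
      · refine LL_of_one hL hM h h0 hK (R := M) (by omega) hcM ht ?_ ?_
        · intro i hi
          rw [tl_one_apply hcn0, hi, cc_eq]; rfl
        · intro i hi
          have e : n + 1 + (M - n + i) = M + 1 + i := by omega
          rw [tl_one_apply hcn0, e, cc_gt, per_lt (by omega)]
  · subst h
    refine hper _ fun i => ?_
    rw [tl_zero_apply cc_eq, cc_gt]
  · obtain ⟨j, rfl⟩ : ∃ j, n = M + 1 + j := ⟨n - M - 1, by omega⟩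
    have hcn : cc a M P (M + 1 + j) = per a P j := cc_gt
    have hshift : ∀ i, cc a M P (M + 1 + j + 1 + i) = per a P (j % (P + 1) + 1 + i) := by
      intro i
      have e : M + 1 + j + 1 + i = M + 1 + (j + (1 + i)) := by ring
      rw [e, cc_gt, per_mod]
      congr 1; ring
    obtain ⟨s, hs⟩ : ∃ s, s = j % (P + 1) := ⟨_, rfl⟩
    have hsP : s < P + 1 := by rw [hs]; exact Nat.mod_lt _ (by omega)
    rw [← hs] at hshift
    have hpj : per a P j = per a P s := by
      have := per_mod (a := a) (P := P) (j := j) (i := 0)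
      rw [← hs] at this
      simpa using this
    rw [hpj] at hcn
    rcases Nat.lt_or_ge s P with h1 | h1
    · rw [per_lt h1] at hcn
      rcases fin2_cases (a s) with h0 | h0
      · rw [h0] at hcn
        refine LL_of_zero hL hP.1 h1 h0 hcP ?_ ?_
        · intro i hi
          rw [tl_zero_apply hcn, hshift, per_lt hi]
        · intro i hi
          rw [tl_zero_apply hcn, hshift, hi, per_eq]
      · rw [h0] at hcn
        refine LL_of_one hL hP h1 h0 hK (R := M) (by omega) hcM ?_ ?_ ?_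
        · intro i hi
          rw [tl_one_apply hcn, hshift, per_lt hi]
        · intro i hi
          rw [tl_one_apply hcn, hshift, hi, per_eq]; rfl
        · intro i hi
          have e : s + 1 + (P - s + i) = P + 1 + i := by omega
          rw [tl_one_apply hcn, hshift, e, per_add, per_lt (by omega)]
    · have hsP' : s = P := by omega
      rw [hsP', per_eq] at hcn
      refine hper _ fun i => ?_
      rw [tl_zero_apply hcn, hshift, hsP', per_add]

/-- sequences below `a` satisfying the lexicographic condition strictly -/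
lemma exists_cc {a : ℕ → Fin 2} (hL : ∀ n, ∃ k, LL (tl a n) a k) (hinf : ∀ N0, ∃ N, N0 ≤ N ∧ a N = 1) {K : ℕ}
    (hK : ∀ L k, Good a L → LL (tl a L) a k → k < K) (R : ℕ) :
    ∃ M, R ≤ M ∧ ∃ c : ℕ → Fin 2, (∀ i < M, c i = a i) ∧ c M = 0 ∧ a M = 1 ∧ ∀ n, ∃ k, LL (tl c n) c k := by
  classical
  obtain ⟨P, hP0, hP⟩ := exists_good hL hinf (K + 1)
  choose f hf using hL
  obtain ⟨M, hM0, hM⟩ := exists_good (fun n => ⟨f n, hf n⟩) hinf (R + P + K + 1 + ∑ n ∈ Finset.range K, (n + 2 + f n))
  refine ⟨M, by omega, cc a M P, fun i hi => cc_lt hi, cc_eq, hM.1, ?_⟩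
  refine cc_lex (fun n => ⟨f n, hf n⟩) hM hP (by omega) (by omega) hK ?_
  intro n hn _ k hk
  have h1 : k = f n := LL_unique hk (hf n)
  have h2 : n + 2 + f n ≤ ∑ n ∈ Finset.range K, (n + 2 + f n) :=
    Finset.single_le_sum (f := fun n => n + 2 + f n) (fun _ _ => Nat.zero_le _) (Finset.mem_range.mpr hn)
  omega

lemma LL_trans {t c a : ℕ → Fin 2} {k M : ℕ} (h1 : LL t c k) (h2 : LL c a M) : ∃ j, LL t a j := by
  rcases lt_trichotomy k M with h | h | h
  · refine ⟨k, fun i hi => (h1.1 i hi).trans (h2.1 i (by omega)), h1.2.1, ?_⟩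
    rw [← h2.1 k h]; exact h1.2.2
  · exfalso
    subst h
    have := h1.2.2.symm.trans h2.2.1
    exact absurd this (by decide)
  · refine ⟨M, fun i hi => (h1.1 i (by omega)).trans (h2.1 i hi), ?_, h2.2.2⟩
    rw [h1.1 M h]; exact h2.2.1

end Pool.Agent.helper80.Univ
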