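import Mathlib
import Pool.Agent.helper80.UnivGood

set_option autoImplicit false
open Filter Topology

namespace Pool.Agent.helper80.Univ

/-- General form of the passage from the lexicographic to the value condition (weak). -/
lemma wni_of_lex {q : ℝ} (hq : 1 < q) {a c : ℕ → Fin 2} (ha : val q a = 1) (h : ∀ n, ∃ k, LL (tl c n) a k) :
    Wni q c := by
  have h0 : 0 < q := by linarith
  have hq1 : 0 < q - 1 := by linarith
  have hrec : ∀ n, ∃ m k, val q (tl c n) = 1 - (1 + val q (sh (k + 1) a) - val q (tl c m)) / q ^ (k + 1) := by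
    intro n
    obtain ⟨k, hk, hk0, hk1⟩ := h n
    refine ⟨n + 1 + k, k, ?_⟩
    have h2 := val_diff hq hk
    rw [hk0, hk1, dg_zero, dg_one, tl_tl hk0, ha] at h2
    have h3 : val q (tl c n) = 1 + (0 - 1 + val q (tl c (n + 1 + k)) - val q (sh (k + 1) a)) / q ^ (k + 1) := by
      linarith
    rw [h3]; ring
  have hbdd : BddAbove (Set.range fun n => val q (tl c n)) := ⟨1 / (q - 1), by
    rintro _ ⟨n, rfl⟩; exact val_le hq _⟩
  set S := sSup (Set.range fun n => val q (tl c n)) with hS
  have hle : ∀ n, val q (tl c n) ≤ S := fun n => le_csSup hbdd ⟨n, rfl⟩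
  have hS1 : S ≤ 1 := by
    by_contra hcon
    push Not at hcon
    have h5 : S ≤ 1 + (S - 1) / q := by
      refine csSup_le (Set.range_nonempty _) ?_
      rintro _ ⟨n, rfl⟩
      obtain ⟨m, k, he⟩ := hrec n
      simp only
      rw [he]
      have h6 := hle m
      have h7 := val_nonneg hq (sh (k + 1) a)
      have h8 : q ≤ q ^ (k + 1) := by
        calc q = q ^ 1 := (pow_one q).symm
          _ ≤ q ^ (k + 1) := pow_le_pow_right₀ hq.le (by omega)
      have h9 : -(1 + val q (sh (k + 1) a) - val q (tl c m)) / q ^ (k + 1) ≤ (S - 1) / q := by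
        rw [div_le_div_iff₀ (by positivity) h0]
        have : -(1 + val q (sh (k + 1) a) - val q (tl c m)) * q ≤ (S - 1) * q :=
          mul_le_mul_of_nonneg_right (by linarith) h0.le
        have h10 : (S - 1) * q ≤ (S - 1) * q ^ (k + 1) := mul_le_mul_of_nonneg_left h8 (by linarith)
        linarith
      have h11 : -(1 + val q (sh (k + 1) a) - val q (tl c m)) / q ^ (k + 1)
        = - ((1 + val q (sh (k + 1) a) - val q (tl c m)) / q ^ (k + 1)) := by ring
      linarith
    have h12 : (S - 1) / q < S - 1 := by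
      rw [div_lt_iff₀ h0]; nlinarith
    linarith
  intro n
  exact (hle n).trans hS1

/-- infinitely many ones -/
lemma inf_ones {q : ℝ} (hq : 1 < q) (hq2 : q ≤ 2) {a : ℕ → Fin 2} (ha : val q a = 1) (hu : Uni q a) (N0 : ℕ) :
    ∃ N, N0 ≤ N ∧ a N = 1 := by
  have hq1 : 0 < q - 1 := by linarith
  have hge : 1 ≤ 1 / (q - 1) := by rw [le_div_iff₀ hq1]; linarith
  by_contra hcon
  push Not at hcon
  have h0 : ∀ N, N0 ≤ N → a N = 0 := fun N hN => by
    rcases fin2_cases (a N) with h | h
    · exact h
    · exact absurd h (hcon N hN)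
  clear hcon
  have hz : ∀ N, (∀ m, N ≤ m → a m = 0) → val q (sh N a) = 0 := by
    intro N hN
    unfold val
    have : ∀ i, (((sh N a i : Fin 2) : ℕ) : ℝ) / q ^ (i + 1) = 0 := by
      intro i
      rw [sh_apply, hN (i + N) (by omega)]
      simp
    simp_rw [this]
    exact tsum_zero
  induction N0 with
  | zero =>
    have := hz 0 h0
    rw [sh_zero, ha] at this
    exact one_ne_zero this
  | succ N ih =>
    apply ih
    intro m hm
    rcases Nat.eq_or_lt_of_le hm with h | h
    · subst h
      rcases fin2_cases (a N) with h1 | h1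
      · exact h1
      · exfalso
        have h2 := hu N
        rw [tl_one h1, val_refl hq, hz (N + 1) h0] at h2
        linarith
    · exact h0 m h

/-- good positions whose tail follows the reflection of the expansion for a long time -/
lemma strong_good {q q₀ : ℝ} (hq : 1 < q) (hq2 : q ≤ 2) {a : ℕ → Fin 2} (ha : val q a = 1) (hu : Uni q a)
    (hq₀ : q₀ < q) (hgap : ∀ p ∈ univoqueBases 1, p ≤ q₀ ∨ q ≤ p) (K N0 : ℕ) :
    ∃ N, N0 ≤ N ∧ Good a N ∧ ∀ k, LL (tl a N) a k → K ≤ k := by
  classical
  by_contra hcon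
  push Not at hcon
  have hL := hu.LL hq ha
  have hinf := inf_ones hq hq2 ha hu
  have hL' := hL
  choose f hf using hL'
  have hK : ∀ L k, Good a L → LL (tl a L) a k → k < K + ∑ n ∈ Finset.range N0, (f n + 1) := by
    intro L k hg hk
    rcases lt_or_ge L N0 with h | h
    · have h1 : k = f L := LL_unique hk (hf L)
      have h2 : f L + 1 ≤ ∑ n ∈ Finset.range N0, (f n + 1) :=
        Finset.single_le_sum (f := fun n => f n + 1) (fun _ _ => Nat.zero_le _) (Finset.mem_range.mpr h)
      omega
    · obtain ⟨k', hk', hlt⟩ := hcon L h hg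
      have := LL_unique hk hk'
      omega
  set p := max q₀ ((1 + q) / 2) with hp
  have hp1 : 1 < p := lt_of_lt_of_le (by linarith) (le_max_right _ _)
  have hpq : p < q := max_lt hq₀ (by linarith)
  have hp0 : 0 < p := by linarith
  have hpm : 0 < p - 1 := by linarith
  -- choose R
  obtain ⟨R, hR⟩ : ∃ R : ℕ, 1 / (p - 1) / p ^ R < q / p - 1 := by
    have h1 : 0 < q / p - 1 := by
      rw [sub_pos, one_lt_div hp0]; exact hpq
    obtain ⟨R, hR⟩ := pow_unbounded_of_one_lt (1 / (p - 1) / (q / p - 1)) hp1
    refine ⟨R, ?_⟩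
    rw [div_lt_iff₀ h1] at hR
    rw [div_lt_iff₀ (by positivity)]
    linarith
  obtain ⟨M, hMR, c, hc, hcM, haM, hlex⟩ := exists_cc hL hinf hK R
  have hLLc : LL c a M := ⟨hc, hcM, haM⟩
  -- the value at p
  have hvp : 1 < val p c := by
    have h1 := val_close hp1 hc
    have h2 := val_mul_le hp1 hpq.le a
    rw [ha] at h2
    have h3 : q / p ≤ val p a := by
      rw [div_le_iff₀ hp0]
      have h4 : p / q * val p a * q = val p a * p := by field_simp
      have h5 : 1 * q ≤ p / q * val p a * q := mul_le_mul_of_nonneg_right h2 (by linarith)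
      linarith
    have h6 : 1 / (p - 1) / p ^ M ≤ 1 / (p - 1) / p ^ R :=
      div_le_div_of_nonneg_left (by positivity) (by positivity) (pow_le_pow_right₀ hp1.le hMR)
    have h7 := (abs_le.mp h1).1
    linarith
  have hvq : val q c < 1 := by
    have hw := wni_of_lex hq ha (c := c) (fun n => by
      obtain ⟨k, hk⟩ := hlex n
      exact LL_trans hk hLLc)
    have h1 := val_diff hq hc
    have h2 := hw M
    rw [tl_zero hcM] at h2
    rw [hcM, haM, dg_zero, dg_one, ha] at h1
    have h3 := hu.one hq haM
    have hge : 1 ≤ 1 / (q - 1) := by rw [le_div_iff₀ (by linarith)]; linarith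
    have h4 : (0 - 1 + val q (sh (M + 1) c) - val q (sh (M + 1) a)) / q ^ (M + 1) < 0 :=
      div_neg_of_neg_of_pos (by linarith) (by positivity)
    linarith
  obtain ⟨r, hr, hrv⟩ := intermediate_value_Icc' hpq.le (val_cont hp1 c) ⟨hvq.le, hvp.le⟩
  have hrv' : val r c = 1 := hrv
  have hr1 : 1 < r := by linarith [hr.1]
  have hpr : p < r := lt_of_le_of_ne hr.1 (by rintro rfl; linarith)
  have hrq : r < q := lt_of_le_of_ne hr.2 (by rintro rfl; linarith)
  have hmem : r ∈ univoqueBases 1 := by
    refine ⟨hr1, by linarith, ?_⟩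
    rw [← hrv']
    exact (uni_of_lex hr1 hrv' hlex).mem hr1
  rcases hgap r hmem with h | h
  · have := le_max_left q₀ ((1 + q) / 2)
    linarith
  · linarith

lemma val_sh_eq {q : ℝ} (hq : 1 < q) (d : ℕ → Fin 2) (n : ℕ) :
    val q (sh n d) = q ^ n * (val q d - psum q d n) := by
  have h := val_split hq d n
  have hp : q ^ n ≠ 0 := by positivity
  rw [h]; field_simp; ring

/-- the set of univoque bases contains its limits from the right -/
lemma mem_of_gap {q q₀ : ℝ} (hq : 1 < q) (hq2 : q < 2) (hq₀ : q₀ < q) (hcl : q ∈ closure (univoqueBases 1))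
    (hgap : ∀ p ∈ univoqueBases 1, p ≤ q₀ ∨ q ≤ p) : q ∈ univoqueBases 1 := by
  classical
  by_contra hnot
  have hq0 : 0 < q := by linarith
  have hqm : 0 < q - 1 := by linarith
  have hex : ∀ j : ℕ, ∃ p, p ∈ univoqueBases 1 ∧ q < p ∧ p < q + 1 / ((j:ℝ) + 1) := by
    intro j
    rw [Metric.mem_closure_iff] at hcl
    obtain ⟨p, hp, hd⟩ := hcl (min (1 / ((j:ℝ) + 1)) (q - q₀)) (lt_min (by positivity) (by linarith))
    rw [Real.dist_eq, abs_lt] at hd
    have h1 := min_le_left (1 / ((j:ℝ) + 1)) (q - q₀)
    have h2 := min_le_right (1 / ((j:ℝ) + 1)) (q - q₀)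
    refine ⟨p, hp, ?_, by linarith [hd.1]⟩
    rcases hgap p hp with h | h
    · linarith [hd.2]
    · exact lt_of_le_of_ne h (by rintro rfl; exact hnot hp)
  choose p hpU hqp hpq using hex
  have hpt : Tendsto p atTop (𝓝 q) := by
    refine tendsto_of_tendsto_of_tendsto_of_le_of_le (g := fun _ => q) (h := fun j : ℕ => q + 1 / ((j:ℝ) + 1))
      tendsto_const_nhds ?_ (fun j => (hqp j).le) (fun j => (hpq j).le)
    have := tendsto_one_div_add_atTop_nhds_zero_nat (𝕜 := ℝ)
    simpa using this.const_add q
  have hp1 : ∀ j, 1 < p j := fun j => (hpU j).1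
  have hseq : ∀ j, ∃ d, val (p j) d = 1 ∧ Uni (p j) d := fun j => exists_uni (hp1 j) (hpU j).2.1 (hpU j).2.2
  choose d hdv hdu using hseq
  obtain ⟨a, φ, hφ, hlim⟩ := CompactSpace.tendsto_subseq d
  have hagree : ∀ n, ∀ᶠ j in atTop, ∀ i < n, d (φ j) i = a i := by
    intro n
    have h1 : ∀ i ∈ Finset.range n, ∀ᶠ j in atTop, d (φ j) i = a i := by
      intro i _
      have h2 := (tendsto_pi_nhds.mp hlim) i
      rw [nhds_discrete, tendsto_pure] at h2
      exact h2
    have h3 := (Filter.eventually_all_finset (Finset.range n)).mpr h1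
    filter_upwards [h3] with j hj i hi
    exact hj i (Finset.mem_range.mpr hi)
  have hpφ : Tendsto (fun j => p (φ j)) atTop (𝓝 q) := hpt.comp hφ.tendsto_atTop
  -- value of the limit
  have hcont : ContinuousWithinAt (fun t => val t a) (Set.Icc q 3) q := val_cont hq a q ⟨le_rfl, by linarith⟩
  have hpφ' : Tendsto (fun j => p (φ j)) atTop (𝓝[Set.Icc q 3] q) := by
    rw [tendsto_nhdsWithin_iff]
    refine ⟨hpφ, Filter.Eventually.of_forall fun j => ⟨(hqp _).le, ?_⟩⟩
    have := (hpU (φ j)).2.1
    linarith
  have hvlim : Tendsto (fun j => val (p (φ j)) a) atTop (𝓝 (val q a)) := hcont.tendsto.comp hpφ'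
  have ha : val q a = 1 := by
    have hb : ∀ n : ℕ, |1 - val q a| ≤ 1 / (q - 1) / q ^ n := by
      intro n
      have h1 : Tendsto (fun j => |1 - val (p (φ j)) a|) atTop (𝓝 |1 - val q a|) :=
        (tendsto_const_nhds.sub hvlim).abs
      refine le_of_tendsto h1 ?_
      filter_upwards [hagree n] with j hj
      have h2 := val_close (hp1 (φ j)) hj
      rw [hdv] at h2
      refine h2.trans ?_
      have h3 := hqp (φ j)
      have h4 : 1 / (p (φ j) - 1) ≤ 1 / (q - 1) := one_div_le_one_div_of_le hqm (by linarith)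
      have h5 : q ^ n ≤ p (φ j) ^ n := pow_le_pow_left₀ hq0.le h3.le n
      exact div_le_div₀ (by positivity) h4 (by positivity) h5
    have h6 : |1 - val q a| ≤ 0 := by
      have h7 : Tendsto (fun n : ℕ => 1 / (q - 1) / q ^ n) atTop (𝓝 0) := by
        have := (tendsto_pow_atTop_nhds_zero_of_lt_one (r := 1 / q) (by positivity)
          (by rw [div_lt_one hq0]; exact hq)).const_mul (1 / (q - 1))
        rw [mul_zero] at this
        refine this.congr fun n => ?_
        rw [one_div_pow, ← div_eq_mul_one_div]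
      exact ge_of_tendsto' h7 hb
    have h8 := abs_nonpos_iff.mp h6
    linarith
  -- zeros
  have hzero : ∀ n, a n = 0 → val q (sh (n + 1) a) < 1 := by
    intro n hn
    by_contra hcon
    push Not at hcon
    obtain ⟨j, hj⟩ := (hagree (n + 1)).exists
    have h1 := (hdu (φ j)).zero (n := n) (by rw [hj n (by omega)]; exact hn)
    rw [val_sh_eq (hp1 _), hdv, psum_congr hj] at h1
    rw [val_sh_eq hq, ha] at hcon
    have h3 := hqp (φ j)
    have h2 := psum_anti hq h3.le a (n + 1)
    have hP : 0 < p (φ j) ^ (n + 1) := by have := hp1 (φ j); positivity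
    have hQ : 0 < q ^ (n + 1) := by positivity
    have h5 : q ^ (n + 1) ≤ p (φ j) ^ (n + 1) := pow_le_pow_left₀ hq0.le h3.le _
    have h6 : 0 < 1 - psum q a (n + 1) := by
      by_contra h7
      push Not at h7
      nlinarith
    nlinarith
  -- ones, weak
  have hone : ∀ n, a n = 1 → 1 / (q - 1) - 1 ≤ val q (sh (n + 1) a) := by
    intro n hn
    rw [val_sh_eq hq, ha]
    have hps : Tendsto (fun j => psum (p (φ j)) a (n + 1)) atTop (𝓝 (psum q a (n + 1))) := by
      unfold psum
      refine tendsto_finsetSum _ fun i _ => ?_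
      exact tendsto_const_nhds.div (hpφ.pow _) (by positivity)
    have h1 : Tendsto (fun j => p (φ j) ^ (n + 1) * (1 - psum (p (φ j)) a (n + 1))) atTop
        (𝓝 (q ^ (n + 1) * (1 - psum q a (n + 1)))) := (hpφ.pow _).mul (tendsto_const_nhds.sub hps)
    have h2 : Tendsto (fun j => 1 / (p (φ j) - 1) - 1) atTop (𝓝 (1 / (q - 1) - 1)) :=
      (tendsto_const_nhds.div (hpφ.sub_const 1) (by linarith)).sub_const 1
    refine le_of_tendsto_of_tendsto h2 h1 ?_
    filter_upwards [hagree (n + 1)] with j hj
    have h3 := (hdu (φ j)).one (hp1 _) (n := n) (by rw [hj n (by omega)]; exact hn)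
    rw [val_sh_eq (hp1 _), hdv, psum_congr hj] at h3
    exact h3.le
  have hgt : 1 < 1 / (q - 1) := by rw [lt_div_iff₀ hqm]; linarith
  -- ones, strict
  have hone' : ∀ n, a n = 1 → 1 / (q - 1) - 1 < val q (sh (n + 1) a) := by
    intro n hn
    refine lt_of_le_of_ne (hone n hn) ?_
    intro heq
    set e := refl (sh (n + 1) a) with he
    have hev : val q e = 1 := by rw [he, val_refl hq, ← heq]; ring
    have hea : e = a := by
      by_contra hne
      have hne' : ∃ k, e k ≠ a k := by
        by_contra hcon; push Not at hcon; exact hne (funext hcon)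
      obtain ⟨k, hk, hmin⟩ : ∃ k, e k ≠ a k ∧ ∀ i < k, e i = a i :=
        ⟨Nat.find hne', Nat.find_spec hne', fun i hi => by simpa using Nat.find_min hne' hi⟩
      have hd := val_diff hq hmin
      rw [hev, ha, sub_self] at hd
      have hpk : q ^ (k + 1) ≠ 0 := by positivity
      have hnum : dg (e k) - dg (a k) + val q (sh (k + 1) e) - val q (sh (k + 1) a) = 0 := by
        rcases (div_eq_zero_iff.mp hd.symm) with h | h
        · exact h
        · exact absurd h hpk
      rcases fin2_cases (a k) with h0 | h0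
      · have h1 : e k = 1 := by
          rcases fin2_cases (e k) with h | h
          · exact absurd (h.trans h0.symm) hk
          · exact h
        rw [h0, h1, dg_zero, dg_one] at hnum
        have := hzero k h0
        have := val_nonneg hq (sh (k + 1) e)
        linarith
      · have h1 : e k = 0 := by
          rcases fin2_cases (e k) with h | h
          · exact h
          · exact absurd (h.trans h0.symm) hk
        rw [h0, h1, dg_zero, dg_one] at hnum
        have h2 : a (n + 1 + k) = 1 := by
          rw [he, refl_apply, sh_apply] at h1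
          rw [add_comm (n + 1) k]; exact one_of_sub h1
        have h3 : val q (sh (k + 1) e) ≤ 1 := by
          have h4 := hone _ h2
          rw [he, sh_refl, sh_sh, val_refl hq]
          have e2 : k + 1 + (n + 1) = n + 1 + k + 1 := by ring
          rw [e2]; linarith
        have h5 := hone k h0
        linarith
    have h2n : a (2 * n + 1) = 0 := by
      have h1 := congrFun hea n
      rw [he, refl_apply, sh_apply, hn] at h1
      have : n + (n + 1) = 2 * n + 1 := by ring
      rw [this] at h1
      exact zero_of_sub h1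
    have h3 := hzero _ h2n
    have h4 : sh (2 * n + 1 + 1) a = a := by
      have h5 : refl (sh (n + 1) (refl (sh (n + 1) a))) = a := by rw [← he, hea]; exact hea
      rw [sh_refl, refl_refl, sh_sh] at h5
      have : n + 1 + (n + 1) = 2 * n + 1 + 1 := by ring
      rw [this] at h5
      exact h5
    rw [h4, ha] at h3
    exact lt_irrefl _ h3
  apply hnot
  refine ⟨hq, hq2.le, ?_⟩
  rw [← ha]
  refine Uni.mem hq fun n => ?_
  rcases fin2_cases (a n) with h0 | h0
  · rw [tl_zero h0]; exact hzero n h0
  · rw [tl_one h0, val_refl hq]; linarith [hone' n h0]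

end Pool.Agent.helper80.Univ
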