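import Mathlib
import Pool.Agent.helper80.UnivGap
import Pool.Agent.helper80.UnivLower

set_option autoImplicit false
open Filter Topology

namespace Pool.Agent.helper80.Univ

lemma lower_key {q x : ℝ} (hq : 1 < q) (hq2 : q ≤ 1.9) (hx0 : psi ≤ x) (hx1 : x ≤ 0.65)
    (hx : x ∈ Uq q) : 0 < q ^ 2 - q - 1 ∧ 1 < q * x ∧ q * (q * x - 1) < 1 ∧ q ^ 2 * (q * x - 1) < 1 ∧
      1 ≤ q ^ 3 * (q * x - 1) := by
  have hq2' : q ≤ 2 := by linarith
  have h1 : 0 < q - 1 := by linarith
  have h0 : 0 < q := by linarith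
  have hpb := psi_bounds
  have hpsq := psi_sq
  have hpos : 0 < x := by linarith [hpb.1]
  have hgold : 0 < q ^ 2 - q - 1 := by
    by_contra hcon
    push Not at hcon
    exact not_mem_of_small hq hq2' hcon hpos (by linarith) hx
  have hqpsi : 1 < q * psi := by
    have : 0 < (q - (1 + psi)) * (q + psi) := by nlinarith
    have h2 : 0 < q + psi := by linarith [hpb.1]
    have h3 : 0 < q - (1 + psi) := by
      by_contra hcon
      push Not at hcon
      nlinarith [mul_nonneg (by linarith : (0:ℝ) ≤ -(q - (1 + psi))) h2.le]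
    nlinarith
  have hqx : 1 < q * x := by nlinarith
  have s1 : 1 / (q - 1) < q * x := by
    rcases Uq_switch hq hq2' hx with h | h
    · linarith
    · exact h
  have hbar := lower hq hq2 hx0 hx1 hx
  have hTpos : 0 < q * x - 1 := by linarith
  have b1 : q ^ 2 * (q * x - 1) < 1 := by
    have : q ^ 2 * (q * x - 1) ≤ 1.9 ^ 2 * (1.9 * 0.65 - 1) := by
      have e1 : q ^ 2 ≤ 1.9 ^ 2 := pow_le_pow_left₀ h0.le hq2 2
      have e2 : q * x - 1 ≤ 1.9 * 0.65 - 1 := by nlinarith
      exact mul_le_mul e1 e2 hTpos.le (by norm_num)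
    norm_num at this
    linarith
  have b0 : q * (q * x - 1) < 1 := by nlinarith
  refine ⟨hgold, hqx, b0, b1, ?_⟩
  -- gg q < x gives q^3 T > 1/(q-1) ≥ 1
  have e6 : gg q = (1 + (1 / (q - 1)) / q ^ 3) / q := by
    unfold gg; field_simp
  rw [e6, div_lt_iff₀ h0] at hbar
  have h5 : 1 / (q - 1) / q ^ 3 < q * x - 1 := by linarith
  rw [div_lt_iff₀ (by positivity)] at h5
  have hge : 1 ≤ 1 / (q - 1) := by rw [le_div_iff₀ h1]; linarith
  linarith

/-- `\bar a_0 ... \bar a_{N-1} 1 t` -/
def blk (a : ℕ → Fin 2) (N : ℕ) (t : ℕ → Fin 2) : ℕ → Fin 2 :=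
  fun i => if i < N then 1 - a i else if i = N then 1 else t (i - N - 1)

lemma blk_lt {a t : ℕ → Fin 2} {N i : ℕ} (h : i < N) : blk a N t i = 1 - a i := by
  unfold blk; rw [if_pos h]

lemma blk_eq {a t : ℕ → Fin 2} {N : ℕ} : blk a N t N = 1 := by
  unfold blk; rw [if_neg (lt_irrefl _), if_pos rfl]

lemma blk_gt {a t : ℕ → Fin 2} {N i : ℕ} : blk a N t (N + 1 + i) = t i := by
  unfold blk; rw [if_neg (by omega), if_neg (by omega)]
  congr 1; omega

lemma sh_blk {a t : ℕ → Fin 2} {N : ℕ} : sh (N + 1) (blk a N t) = t := by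
  funext i
  rw [sh_apply, add_comm i (N + 1), blk_gt]

lemma val_blk {q : ℝ} (hq : 1 < q) (a t : ℕ → Fin 2) (N : ℕ) :
    val q (blk a N t) = psum q (refl a) N + (1 + val q t) / q ^ (N + 1) := by
  rw [val_split hq _ (N + 1), psum_succ, blk_eq, sh_blk, dg_one,
    psum_congr (d := blk a N t) (e := refl a) (fun i hi => by rw [blk_lt hi, refl_apply])]
  ring

lemma psum_refl {q : ℝ} (hq : 1 < q) (a : ℕ → Fin 2) (n : ℕ) :
    psum q (refl a) n = 1 / (q - 1) - 1 / (q - 1) / q ^ n - psum q a n := by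
  have h1 : q - 1 ≠ 0 := by linarith
  have h0 : q ≠ 0 := by linarith
  induction n with
  | zero => simp
  | succ n ih =>
    rw [psum_succ, psum_succ, ih, refl_apply, fin2_sub, pow_succ]
    have hp : q ^ n ≠ 0 := pow_ne_zero _ h0
    field_simp
    ring

lemma val_refl_nonneg_aux {q : ℝ} (hq : 1 < q) (hq2 : q ≤ 2) : (0:ℝ) ≤ 1 / (q - 1) - 1 := by
  have : 1 ≤ 1 / (q - 1) := by rw [le_div_iff₀ (by linarith)]; linarith
  linarith

/-- No smaller univoque bases for the special points. -/
lemma no_smaller {q : ℝ} (h1q : 1.87 ≤ q) (hq2 : q ≤ 1.889) {a : ℕ → Fin 2} (ha : val q a = 1) (hu : Uni q a)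
    {N : ℕ} (hN : a N = 1) (hy : val q (sh (N + 1) a) - (1 / (q - 1) - 1) ≤ 0.00125) {x : ℝ}
    (hx : x = 1 / q + 1 / q ^ 4 + val q (blk a N (refl a)) / q ^ 4) (hx0 : psi ≤ x) (hx1 : x ≤ 0.65)
    {p : ℝ} (hp : p ∈ univoqueBases x) : q ≤ p := by
  by_contra hcon
  push Not at hcon
  have hq : 1 < q := by linarith
  have hq0 : 0 < q := by linarith
  obtain ⟨hp1, hp2, hpU⟩ := hp
  have hp0 : 0 < p := by linarith
  have hpm : 0 < p - 1 := by linarith
  have hqm : 0 < q - 1 := by linarith
  obtain ⟨kg, k1, k2, k3, k4⟩ := lower_key hp1 (by linarith) hx0 hx1 hpU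
  have hpφ : 1.6 < p := by nlinarith
  obtain ⟨d, hdv, hdu⟩ := exists_uni hp1 hp2 hpU
  -- first digit of `a`
  have ha0 : a 0 = 1 := by
    rcases fin2_cases (a 0) with h | h
    · exfalso
      have h2 := hu.zero h
      have h3 := val_step hq a
      rw [h, ha, dg_zero] at h3
      simp only [zero_add] at h2 h3
      linarith
    · exact h
  -- digits of the expansion in base p
  have v1 : val p (sh 1 d) = p * x - dg (d 0) := by
    have := val_step hp1 d; rw [hdv] at this; linarith
  have hd0 : d 0 = 1 := by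
    rcases fin2_cases (d 0) with h | h
    · exfalso
      have h2 := hdu.zero h
      rw [zero_add, v1, h, dg_zero] at h2
      linarith
    · exact h
  rw [hd0, dg_one] at v1
  have v2 : val p (sh 2 d) = p * (p * x - 1) - dg (d 1) := by
    have := val_step hp1 (sh 1 d)
    rw [sh_sh, sh_apply, v1] at this
    simp only [zero_add] at this
    have e : 1 + 1 = 2 := rfl
    rw [e] at this
    linarith
  have hd1 : d 1 = 0 := by
    rcases fin2_cases (d 1) with h | h
    · exact h
    · exfalso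
      rw [h, dg_one] at v2
      have := val_nonneg hp1 (sh 2 d)
      linarith
  rw [hd1, dg_zero, sub_zero] at v2
  have v3 : val p (sh 3 d) = p ^ 2 * (p * x - 1) - dg (d 2) := by
    have := val_step hp1 (sh 2 d)
    rw [sh_sh, sh_apply, v2] at this
    simp only [zero_add] at this
    have e : 1 + 2 = 3 := rfl
    rw [e] at this
    linarith
  have hd2 : d 2 = 0 := by
    rcases fin2_cases (d 2) with h | h
    · exact h
    · exfalso
      rw [h, dg_one] at v3
      have := val_nonneg hp1 (sh 3 d)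
      linarith
  rw [hd2, dg_zero, sub_zero] at v3
  have v4 : val p (sh 4 d) = p ^ 3 * (p * x - 1) - dg (d 3) := by
    have := val_step hp1 (sh 3 d)
    rw [sh_sh, sh_apply, v3] at this
    simp only [zero_add] at this
    have e : 1 + 3 = 4 := rfl
    rw [e] at this
    linarith
  have hd3 : d 3 = 1 := by
    rcases fin2_cases (d 3) with h | h
    · exfalso
      have h2 := hdu.zero h
      have e : 3 + 1 = 4 := rfl
      rw [e, v4, h, dg_zero] at h2
      linarith
    · exact h
  rw [hd3, dg_one] at v4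
  have hb := hdu.one hp1 hd3
  have e34 : 3 + 1 = 4 := rfl
  rw [e34] at hb
  set z := sh 4 d with hz
  have hzu : Uni p z := hdu.shift 4
  have hFp : val p z = x * p ^ 4 - p ^ 3 - 1 := by rw [v4]; ring
  set ζ := blk a N (refl a) with hζ
  have hFq : val q ζ = x * q ^ 4 - q ^ 3 - 1 := by
    rw [hx]; field_simp; ring
  -- monotonicity of F
  have hxp : 1 < x * p := by linarith
  have hxq : 1 < x * q := by nlinarith
  have hFlt : val p z < val q ζ := by
    rw [hFp, hFq]
    have e : x * q ^ 4 - q ^ 3 - 1 - (x * p ^ 4 - p ^ 3 - 1)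
      = (q - p) * ((x * q - 1) * q ^ 2 + (x * q - 1) * (q * p) + (x * q - 1) * p ^ 2 + x * p ^ 3) := by ring
    have hpos : 0 < (q - p) * ((x * q - 1) * q ^ 2 + (x * q - 1) * (q * p) + (x * q - 1) * p ^ 2 + x * p ^ 3) := by
      have h2 : 0 < x * q - 1 := by linarith
      have h3 : 0 < x := by
        by_contra h4
        push Not at h4
        nlinarith
      have h4 : 0 < q - p := by linarith
      positivity
    linarith
  have hζanti : val q ζ ≤ val p ζ := val_anti hp1 hcon.le ζ
  have hpa : 1 ≤ val p a := by rw [← ha]; exact val_anti hp1 hcon.le a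
  have hbp : (0:ℝ) ≤ 1 / (p - 1) - 1 := val_refl_nonneg_aux hp1 hp2
  have hbq : (0:ℝ) ≤ 1 / (q - 1) - 1 := val_refl_nonneg_aux hq (by linarith)
  -- z starts with the reflection of the block
  have hs1 : ∀ j ≤ N, z j = 1 - a j := by
    intro j
    induction j using Nat.strong_induction_on with
    | _ j ih =>
      intro hjN
      have hag : ∀ i < j, z i = refl a i := fun i hi => ih i hi (by omega)
      by_contra hne
      have hPj : 0 < p ^ (j + 1) := by positivity
      have hsplit := val_split hp1 z (j + 1)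
      rw [psum_succ, psum_congr hag, psum_refl hp1] at hsplit
      rcases fin2_cases (a j) with h0 | h0
      · have hz0 : z j = 0 := by
          rcases fin2_cases (z j) with h | h
          · exact h
          · exfalso; apply hne; rw [h, h0]; rfl
        rw [hz0, dg_zero, zero_div, add_zero] at hsplit
        have h2 := hzu.zero hz0
        have h3 := hu.zero h0
        have h4 := val_split hq a (j + 1)
        rw [psum_succ, h0, dg_zero, zero_div, add_zero, ha] at h4
        have h5 := psum_anti hp1 hcon.le a j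
        have h6 : val q (sh (j + 1) a) / q ^ (j + 1) ≤ 1 / p ^ (j + 1) :=
          div_le_div₀ zero_le_one h3.le hPj (pow_le_pow_left₀ hp0.le hcon.le _)
        have h7 : val p (sh (j + 1) z) / p ^ (j + 1) ≤ 1 / p ^ (j + 1) :=
          div_le_div_of_nonneg_right h2.le hPj.le
        have h8 : 1 / (p - 1) / p ^ j = 1 / p ^ (j + 1) + 1 / (p - 1) / p ^ (j + 1) := by
          rw [pow_succ]; field_simp; ring
        have h9 : 1 / p ^ (j + 1) ≤ 1 / (p - 1) / p ^ (j + 1) := by
          apply div_le_div_of_nonneg_right _ hPj.le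
          linarith
        linarith
      · have hz1 : z j = 1 := by
          rcases fin2_cases (z j) with h | h
          · exfalso; apply hne; rw [h, h0]; rfl
          · exact h
        rw [hz1, dg_one] at hsplit
        have h2 := hzu.one hp1 hz1
        have h3 : val p ζ ≤ psum p (refl a) j + 1 / (p - 1) / p ^ (j + 1) := by
          rcases Nat.lt_or_eq_of_le hjN with h | h
          · rw [val_split hp1 ζ (j + 1), psum_succ,
              psum_congr (d := ζ) (e := refl a) (fun i hi => by rw [hζ, blk_lt (by omega), refl_apply])]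
            have h4 : ζ j = 0 := by rw [hζ, blk_lt h, h0]; rfl
            rw [h4, dg_zero, zero_div, add_zero]
            have h5 : val p (sh (j + 1) ζ) / p ^ (j + 1) ≤ 1 / (p - 1) / p ^ (j + 1) :=
              div_le_div_of_nonneg_right (val_le hp1 _) hPj.le
            linarith
          · rw [h, hζ, val_blk hp1, val_refl hp1]
            rw [h] at hPj
            have h5 : (1 + (1 / (p - 1) - val p a)) / p ^ (N + 1) ≤ 1 / (p - 1) / p ^ (N + 1) :=
              div_le_div_of_nonneg_right (by linarith) hPj.le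
            linarith
        rw [psum_refl hp1] at h3
        have h6 : 1 / (p - 1) / p ^ (j + 1) ≤ 1 / p ^ (j + 1) + val p (sh (j + 1) z) / p ^ (j + 1) := by
          rw [← add_div]
          exact div_le_div_of_nonneg_right (by linarith) hPj.le
        linarith
  -- conclusion
  have hag : ∀ i < N + 1, z i = refl a i := fun i hi => hs1 i (by omega)
  have hzN : z N = 0 := by rw [hs1 N le_rfl, hN]; rfl
  have hP : 0 < p ^ (N + 1) := by positivity
  have hQ : 0 < q ^ (N + 1) := by positivity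
  have hPQ : p ^ (N + 1) ≤ q ^ (N + 1) := pow_le_pow_left₀ hp0.le hcon.le _
  have hFp2 : val p z < psum p (refl a) (N + 1) + 1 / p ^ (N + 1) := by
    rw [val_split hp1 z (N + 1), psum_congr hag]
    have h2 := hzu.zero hzN
    have h3 : val p (sh (N + 1) z) / p ^ (N + 1) < 1 / p ^ (N + 1) := div_lt_div_of_pos_right h2 hP
    linarith
  set y := val q (sh (N + 1) a) with hyd
  have hya : 1 = psum q a (N + 1) + y / q ^ (N + 1) := by
    rw [← ha]; exact val_split hq a (N + 1)
  have hi : (1 / p - 1 / q) < (y - (1 / (q - 1) - 1)) / q ^ (N + 1) := by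
    have h2 := psum_anti' hp1 hcon.le a ha0 (n := N + 1) (by omega)
    have h3 : 1 / (p - 1) - 1 < psum p (refl a) (N + 1) + 1 / p ^ (N + 1) := hb.trans hFp2
    rw [psum_refl hp1] at h3
    have h4 : (1 / (q - 1) - 1) / q ^ (N + 1) ≤ (1 / (p - 1) - 1) / p ^ (N + 1) := by
      refine div_le_div₀ hbp ?_ hP hPQ
      have : 1 / (q - 1) ≤ 1 / (p - 1) := one_div_le_one_div_of_le hpm (by linarith)
      linarith
    have h5 : (1 / (p - 1) - 1) / p ^ (N + 1) = 1 / (p - 1) / p ^ (N + 1) - 1 / p ^ (N + 1) := by ring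
    rw [sub_div]
    linarith
  -- second inequality
  have hFq2 : val q ζ = psum q (refl a) (N + 1) + 1 / q ^ (N + 1) + (1 / (q - 1) - 1) / q ^ (N + 1) := by
    rw [hζ, val_blk hq, val_refl hq, ha, psum_succ, refl_apply, hN]
    have : dg (1 - 1) = 0 := by simp
    rw [this]
    ring
  have hdiff : (1 / (q - 1) - 1) / q ^ (N + 1) < (val q ζ - val p z) +
      ((psum p (refl a) (N + 1) + 1 / p ^ (N + 1)) - (psum q (refl a) (N + 1) + 1 / q ^ (N + 1))) := by
    linarith
  have hqp : 0 < q - p := by linarith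
  have hF : val q ζ - val p z ≤ 18 * (q - p) := by
    rw [hFp, hFq]
    have e : x * q ^ 4 - q ^ 3 - 1 - (x * p ^ 4 - p ^ 3 - 1)
      = (q - p) * (x * (q ^ 3 + q ^ 2 * p + q * p ^ 2 + p ^ 3) - (q ^ 2 + q * p + p ^ 2)) := by ring
    rw [e, mul_comm 18 (q - p)]
    refine mul_le_mul_of_nonneg_left ?_ hqp.le
    have hxpos : 0 < x := by linarith [psi_bounds.1]
    have hpq' : p ≤ 1.9 := by linarith
    have hqq' : q ≤ 1.9 := by linarith
    have c1 : q ^ 3 ≤ 1.9 ^ 3 := pow_le_pow_left₀ hq0.le hqq' 3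
    have c2 : q ^ 2 * p ≤ 1.9 ^ 2 * 1.9 := mul_le_mul (pow_le_pow_left₀ hq0.le hqq' 2) hpq' hp0.le (by norm_num)
    have c3 : q * p ^ 2 ≤ 1.9 * 1.9 ^ 2 := mul_le_mul hqq' (pow_le_pow_left₀ hp0.le hpq' 2) (by positivity) (by norm_num)
    have c4 : p ^ 3 ≤ 1.9 ^ 3 := pow_le_pow_left₀ hp0.le hpq' 3
    have c5 : x * (q ^ 3 + q ^ 2 * p + q * p ^ 2 + p ^ 3) ≤ 0.65 * (1.9 ^ 3 + 1.9 ^ 2 * 1.9 + 1.9 * 1.9 ^ 2 + 1.9 ^ 3) :=
      mul_le_mul hx1 (by linarith) (by positivity) (by norm_num)
    have c6 : 0 < q ^ 2 + q * p + p ^ 2 := by positivity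
    norm_num at c5
    linarith
  have hdd : 1 / (p - 1) - 1 / (q - 1) ≤ 2 * (q - p) := by
    have e : 1 / (p - 1) - 1 / (q - 1) = (q - p) / ((p - 1) * (q - 1)) := by
      field_simp; ring
    rw [e, div_le_iff₀ (by positivity)]
    have h2 : (0.5:ℝ) ≤ (p - 1) * (q - 1) := by
      calc (0.5:ℝ) ≤ 0.6 * 0.87 := by norm_num
        _ ≤ (p - 1) * (q - 1) := mul_le_mul (by linarith) (by linarith) (by norm_num) hpm.le
    nlinarith
  have hH : (psum p (refl a) (N + 1) + 1 / p ^ (N + 1)) - (psum q (refl a) (N + 1) + 1 / q ^ (N + 1)) ≤ 4 * (q - p) := by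
    -- first part
    have g1 : psum p (refl a) (N + 1) - psum q (refl a) (N + 1) ≤ 1 / (p - 1) - 1 / (q - 1) := by
      rw [psum_refl hp1, psum_refl hq]
      have h2 := psum_anti hp1 hcon.le a (N + 1)
      have h3 : 1 / (q - 1) / q ^ (N + 1) ≤ 1 / (p - 1) / p ^ (N + 1) :=
        div_le_div₀ (by positivity) (one_div_le_one_div_of_le hpm (by linarith)) hP hPQ
      linarith
    -- second part, from the full sum of ones
    have g2 : 1 / p ^ (N + 1) - 1 / q ^ (N + 1) ≤ 1 / (p - 1) - 1 / (q - 1) := by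
      have e1 : ∀ t : ℝ, 1 < t → psum t (fun _ => 1) (N + 1) = 1 / (t - 1) - 1 / (t - 1) / t ^ (N + 1) := by
        intro t ht
        have h2 := psum_refl ht (fun _ => 0) (N + 1)
        have h3 : refl (fun _ => (0 : Fin 2)) = fun _ => 1 := by funext i; rfl
        have h4 : psum t (fun _ => (0 : Fin 2)) (N + 1) = 0 := by
          unfold psum; simp
        rw [h3, h4] at h2
        linarith
      have h5 := psum_anti hp1 hcon.le (fun _ => (1 : Fin 2)) N
      have h6 := psum_succ p (fun _ => (1 : Fin 2)) N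
      have h7 := psum_succ q (fun _ => (1 : Fin 2)) N
      rw [dg_one] at h6 h7
      rw [e1 p hp1] at h6
      rw [e1 q hq] at h7
      have h3 : 1 / (q - 1) / q ^ (N + 1) ≤ 1 / (p - 1) / p ^ (N + 1) :=
        div_le_div₀ (by positivity) (one_div_le_one_div_of_le hpm (by linarith)) hP hPQ
      linarith
    linarith
  have hfin1 : (1 / (q - 1) - 1) / q ^ (N + 1) < 22 * (q - p) := by linarith
  have hfin2 : q - p < 3.61 * ((y - (1 / (q - 1) - 1)) / q ^ (N + 1)) := by
    have e : 1 / p - 1 / q = (q - p) / (p * q) := by field_simp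
    rw [e, div_lt_iff₀ (by positivity)] at hi
    have h2 : p * q ≤ 3.61 := by
      calc p * q ≤ 1.9 * 1.9 := mul_le_mul (by linarith) (by linarith) hq0.le (by norm_num)
        _ = 3.61 := by norm_num
    have h3 : 0 < (y - (1 / (q - 1) - 1)) / q ^ (N + 1) := by
      have h4 : 0 < 1 / p - 1 / q := by
        rw [e]; positivity
      have h5 : 0 < (y - (1 / (q - 1) - 1)) / q ^ (N + 1) * (p * q) := lt_trans hqp hi
      by_contra h6
      push Not at h6
      have : (y - (1 / (q - 1) - 1)) / q ^ (N + 1) * (p * q) ≤ 0 := mul_nonpos_of_nonpos_of_nonneg h6 (by positivity)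
      linarith
    nlinarith
  have hbq2 : (0.1248:ℝ) ≤ 1 / (q - 1) - 1 := by
    have : (1.1248:ℝ) ≤ 1 / (q - 1) := by
      rw [le_div_iff₀ hqm]; linarith
    linarith
  have h10 : (y - (1 / (q - 1) - 1)) / q ^ (N + 1) ≤ 0.00125 / q ^ (N + 1) :=
    div_le_div_of_nonneg_right hy hQ.le
  have h11 : 0.1248 / q ^ (N + 1) ≤ (1 / (q - 1) - 1) / q ^ (N + 1) := div_le_div_of_nonneg_right hbq2 hQ.le
  have h12 : 0.1248 / q ^ (N + 1) < 22 * (3.61 * (0.00125 / q ^ (N + 1))) := by linarith
  have h13 : 22 * (3.61 * (0.00125 / q ^ (N + 1))) = (22 * 3.61 * 0.00125) / q ^ (N + 1) := by ring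
  rw [h13, div_lt_div_iff_of_pos_right hQ] at h12
  norm_num at h12

end Pool.Agent.helper80.Univ
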