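import Mathlib
import Pool.Agent.helper80.UnivLB

set_option autoImplicit false
open Filter Topology

namespace Pool.Agent.helper80.Univ

lemma tl_refl (a : ℕ → Fin 2) (n : ℕ) : tl (refl a) n = tl a n := by
  rcases fin2_cases (a n) with h | h
  · have h1 : refl a n = 1 := by rw [refl_apply, h]; rfl
    rw [tl_zero h, tl_one h1, sh_refl, refl_refl]
  · have h1 : refl a n = 0 := by rw [refl_apply, h]; rfl
    rw [tl_one h, tl_zero h1, sh_refl]

lemma blk_W {q : ℝ} (hq : 1 < q) {a : ℕ → Fin 2} (ha : val q a = 1) (hu : Uni q a) {N : ℕ}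
    (hg : Good a N) {t : ℕ → Fin 2} (ht : Wni q t) (hb : 1 / (q - 1) - 1 ≤ val q t)
    (hμ : ∀ k < N, a k = 1 → val q t ≤ val q (sh (k + 1) a)) : Wni q (blk a N t) := by
  intro n
  have hq0 : 0 < q := by linarith
  rcases lt_trichotomy n N with h | h | h
  · obtain ⟨r, hr⟩ : ∃ r, N = n + 1 + r := ⟨N - n - 1, by omega⟩
    have hD : sh (r + 1) (sh (n + 1) (blk a N t)) = t := by
      rw [sh_sh]
      have e : r + 1 + (n + 1) = N + 1 := by omega
      rw [e, sh_blk]
    have hE : sh (r + 1) (sh (n + 1) a) = sh (N + 1) a := by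
      rw [sh_sh]; congr 1; omega
    rcases fin2_cases (a n) with h0 | h0
    · have hbn : blk a N t n = 1 := by rw [blk_lt h, h0]; rfl
      rw [tl_one hbn]
      have hag : ∀ i < r, refl (sh (n + 1) (blk a N t)) i = sh (n + 1) a i := by
        intro i hi
        rw [refl_apply, sh_apply, blk_lt (by omega), fin2_sub_sub, sh_apply]
      have hd := val_diff hq hag
      have hDr : refl (sh (n + 1) (blk a N t)) r = 0 := by
        have e : r + (n + 1) = N := by omega
        rw [refl_apply, sh_apply, e, blk_eq]; rfl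
      have hEr : sh (n + 1) a r = 1 := by
        have e : r + (n + 1) = N := by omega
        rw [sh_apply, e]; exact hg.1
      rw [hDr, hEr, dg_zero, dg_one, sh_refl, hD, hE, val_refl hq t] at hd
      have h1 := hu.zero h0
      have h2 := val_nonneg hq (sh (N + 1) a)
      have h3 : (0 - 1 + (1 / (q - 1) - val q t) - val q (sh (N + 1) a)) / q ^ (r + 1) ≤ 0 :=
        div_nonpos_of_nonpos_of_nonneg (by linarith) (by positivity)
      linarith
    · have hbn : blk a N t n = 0 := by rw [blk_lt h, h0]; rfl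
      rw [tl_zero hbn]
      obtain ⟨k, hk⟩ := hu.LL hq ha n
      have hkN := hg.2 n h h0 k hk
      have hag : ∀ i < r, sh (n + 1) (blk a N t) i = tl a n i := by
        intro i hi
        rw [sh_apply, blk_lt (by omega), tl_one_apply h0]; congr 2; ring
      have hd := val_diff hq hag
      have hDr : sh (n + 1) (blk a N t) r = 1 := by
        have e : r + (n + 1) = N := by omega
        rw [sh_apply, e, blk_eq]
      have hEr : tl a n r = 0 := by
        rw [tl_one_apply h0, ← hr, hg.1]; rfl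
      have hE2 : val q (sh (r + 1) (tl a n)) = 1 / (q - 1) - val q (sh (N + 1) a) := by
        rw [tl_one h0, sh_refl, val_refl hq, hE]
      rw [hDr, hEr, dg_zero, dg_one, hD, hE2] at hd
      -- value of the tail
      have hm1 : a (n + 1 + k) = 1 := by
        have := hk.2.1
        rw [tl_one_apply h0] at this
        exact one_of_sub this
      have hd2 := val_diff hq hk.1
      rw [hk.2.1, hk.2.2, dg_zero, dg_one, tl_tl hk.2.1, tl_one hm1, val_refl hq, ha] at hd2
      -- y_{m+1} ≥ y_{N+1} / q^{N-m}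
      obtain ⟨s, hs⟩ : ∃ s, N = n + 1 + k + s := ⟨N - (n + 1 + k), by omega⟩
      have hy : val q (sh (N + 1) a) / q ^ s ≤ val q (sh (n + 1 + k + 1) a) := by
        rw [val_split hq (sh (n + 1 + k + 1) a) s, sh_sh]
        have e : s + (n + 1 + k + 1) = N + 1 := by omega
        rw [e]
        have := psum_nonneg hq (sh (n + 1 + k + 1) a) s
        linarith
      have hrs : r = k + s := by omega
      have hpk : 0 < q ^ (k + 1) := by positivity
      have hps : 0 < q ^ s := by positivity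
      have e1 : q ^ (r + 1) = q ^ s * q ^ (k + 1) := by rw [hrs, ← pow_add]; congr 1; ring
      have hkk := hμ k (by omega) hk.2.2
      have h4 : (val q t - (1 / (q - 1) - 1)) / q ^ s ≤ val q (sh (k + 1) a) - (1 / (q - 1) - 1) := by
        have h5 : (val q t - (1 / (q - 1) - 1)) / q ^ s ≤ val q t - (1 / (q - 1) - 1) :=
          div_le_self (by linarith) (one_le_pow₀ hq.le)
        linarith
      have h6 : (1 - 0 + val q t - (1 / (q - 1) - val q (sh (N + 1) a))) / q ^ (r + 1)
          ≤ (val q (sh (k + 1) a) - (1 / (q - 1) - 1) + val q (sh (n + 1 + k + 1) a)) / q ^ (k + 1) := by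
        rw [e1, ← div_div]
        refine div_le_div_of_nonneg_right ?_ hpk.le
        have e2 : (1 - 0 + val q t - (1 / (q - 1) - val q (sh (N + 1) a))) / q ^ s
          = (val q t - (1 / (q - 1) - 1)) / q ^ s + val q (sh (N + 1) a) / q ^ s := by ring
        rw [e2]
        linarith
      have e3 : (0 - 1 + (1 / (q - 1) - val q (sh (n + 1 + k + 1) a)) - val q (sh (k + 1) a)) / q ^ (k + 1)
        = - ((val q (sh (k + 1) a) - (1 / (q - 1) - 1) + val q (sh (n + 1 + k + 1) a)) / q ^ (k + 1)) := by ring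
      rw [e3] at hd2
      linarith
  · subst h
    rw [tl_one blk_eq, sh_blk, val_refl hq]
    linarith
  · obtain ⟨j, rfl⟩ : ∃ j, n = N + 1 + j := ⟨n - N - 1, by omega⟩
    have h1 : tl (blk a N t) (N + 1 + j) = tl t j := by
      unfold tl
      rw [blk_gt]
      have e : sh (N + 1 + j + 1) (blk a N t) = sh (j + 1) t := by
        rw [← sh_blk (a := a) (t := t) (N := N), sh_sh, sh_blk]
        congr 1; ring
      rw [e]
    rw [h1]
    exact ht j

/-- prefix `1001` -/
def pf (t : ℕ → Fin 2) : ℕ → Fin 2 := fun i =>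
  if i = 0 then 1 else if i = 1 then 0 else if i = 2 then 0 else if i = 3 then 1 else t (i - 4)

lemma pf_sh (t : ℕ → Fin 2) : sh 4 (pf t) = t := by
  funext i
  unfold pf
  rw [sh_apply, if_neg (by omega), if_neg (by omega), if_neg (by omega), if_neg (by omega)]
  congr 1

lemma pf_vals {q : ℝ} (hq : 1 < q) (t : ℕ → Fin 2) :
    val q (sh 3 (pf t)) = (1 + val q t) / q ∧ val q (sh 2 (pf t)) = (1 + val q t) / q ^ 2 ∧
    val q (sh 1 (pf t)) = (1 + val q t) / q ^ 3 ∧ val q (pf t) = 1 / q + 1 / q ^ 4 + val q t / q ^ 4 := by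
  have h0 : q ≠ 0 := by linarith
  have h3 := val_step hq (sh 3 (pf t))
  have h2 := val_step hq (sh 2 (pf t))
  have h1 := val_step hq (sh 1 (pf t))
  have h := val_step hq (pf t)
  rw [sh_sh, sh_apply] at h3 h2 h1
  have d3 : pf t (0 + 3) = 1 := rfl
  have d2 : pf t (0 + 2) = 0 := rfl
  have d1 : pf t (0 + 1) = 0 := rfl
  have d0 : pf t 0 = 1 := rfl
  have e3 : 1 + 3 = 4 := rfl
  have e2 : 1 + 2 = 3 := rfl
  have e1 : 1 + 1 = 2 := rfl
  rw [d3, dg_one, e3, pf_sh] at h3
  rw [d2, dg_zero, e2] at h2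
  rw [d1, dg_zero, e1] at h1
  rw [d0, dg_one] at h
  have v3 : val q (sh 3 (pf t)) = (1 + val q t) / q := by rw [← h3]; field_simp
  have v2 : val q (sh 2 (pf t)) = (1 + val q t) / q ^ 2 := by
    have : val q (sh 2 (pf t)) = (0 + val q (sh 3 (pf t))) / q := by rw [← h2]; field_simp
    rw [this, v3]; field_simp; ring
  have v1 : val q (sh 1 (pf t)) = (1 + val q t) / q ^ 3 := by
    have : val q (sh 1 (pf t)) = (0 + val q (sh 2 (pf t))) / q := by rw [← h1]; field_simp
    rw [this, v2]; field_simp; ring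
  refine ⟨v3, v2, v1, ?_⟩
  have : val q (pf t) = (1 + val q (sh 1 (pf t))) / q := by rw [← h]; field_simp
  rw [this, v1]; field_simp; ring

lemma pf_W {q : ℝ} (h1q : 1.87 ≤ q) (hq2 : q ≤ 1.889) {t : ℕ → Fin 2} (ht : Wni q t)
    (hb : 1 / (q - 1) - 1 ≤ val q t) (hb2 : val q t ≤ 0.8) : Wni q (pf t) := by
  have hq : 1 < q := by linarith
  have hq0 : 0 < q := by linarith
  have hqm : 0 < q - 1 := by linarith
  obtain ⟨v3, v2, v1, -⟩ := pf_vals hq t
  have hge : (1.12:ℝ) ≤ 1 / (q - 1) := by rw [le_div_iff₀ hqm]; linarith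
  intro n
  match n with
  | 0 =>
    have h : pf t 0 = 1 := rfl
    rw [tl_one h, val_refl hq]
    simp only [zero_add]
    rw [v1]
    have h2 : 1 / (q - 1) - 1 ≤ (1 / (q - 1)) / q ^ 3 := by
      rw [le_div_iff₀ (by positivity)]
      have e : (1 / (q - 1) - 1) * q ^ 3 = (2 - q) * q ^ 3 / (q - 1) := by field_simp; ring
      rw [e, div_le_div_iff_of_pos_right hqm]
      have h3 : q ^ 3 ≤ 1.889 ^ 3 := pow_le_pow_left₀ hq0.le hq2 3
      norm_num at h3
      nlinarith
    have h3 : (1 / (q - 1)) / q ^ 3 ≤ (1 + val q t) / q ^ 3 := by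
      refine div_le_div_of_nonneg_right (by linarith) (by positivity)
    linarith
  | 1 =>
    have h : pf t 1 = 0 := rfl
    rw [tl_zero h]
    have e : 1 + 1 = 2 := rfl
    rw [e, v2, div_le_one (by positivity)]
    nlinarith
  | 2 =>
    have h : pf t 2 = 0 := rfl
    rw [tl_zero h]
    have e : 2 + 1 = 3 := rfl
    rw [e, v3, div_le_one (by positivity)]
    linarith
  | 3 =>
    have h : pf t 3 = 1 := rfl
    rw [tl_one h, val_refl hq]
    have e : 3 + 1 = 4 := rfl
    rw [e, pf_sh]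
    linarith
  | (j + 4) =>
    have h1 : tl (pf t) (j + 4) = tl t j := by
      unfold tl
      have e1 : pf t (j + 4) = t j := by
        have := congrFun (pf_sh t) j
        rw [sh_apply] at this; exact this
      rw [e1]
      have e2 : sh (j + 4 + 1) (pf t) = sh (j + 1) t := by
        have : sh (j + 1) (sh 4 (pf t)) = sh (j + 4 + 1) (pf t) := sh_sh _ _ _
        rw [← this, pf_sh]
      rw [e2]
    rw [h1]
    exact ht j

lemma exists_pos_lb (f : ℕ → ℝ) (P : ℕ → Prop) (h : ∀ k, P k → 0 < f k) (N : ℕ) :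
    ∃ μ, 0 < μ ∧ ∀ k < N, P k → μ ≤ f k := by
  classical
  induction N with
  | zero => exact ⟨1, one_pos, fun k hk => absurd hk (Nat.not_lt_zero k)⟩
  | succ N ih =>
    obtain ⟨μ, hμ, hμ'⟩ := ih
    by_cases hP : P N
    · refine ⟨min μ (f N), lt_min hμ (h N hP), fun k hk hk' => ?_⟩
      rcases Nat.lt_succ_iff_lt_or_eq.mp hk with h1 | h1
      · exact (min_le_left _ _).trans (hμ' k h1 hk')
      · rw [h1]; exact min_le_right _ _
    · refine ⟨μ, hμ, fun k hk hk' => ?_⟩
      rcases Nat.lt_succ_iff_lt_or_eq.mp hk with h1 | h1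
      · exact hμ' k h1 hk'
      · rw [h1] at hk'; exact absurd hk' hP

/-- value of the block sequence relative to the reflected expansion -/
lemma val_blk_refl {q : ℝ} (hq : 1 < q) {a : ℕ → Fin 2} (ha : val q a = 1) {N : ℕ} (hN : a N = 1) :
    val q (blk a N (refl a)) = (1 / (q - 1) - 1) + val q (sh (N + 1) a) / q ^ (N + 1) := by
  have hag : ∀ i < N, blk a N (refl a) i = refl a i := fun i hi => by rw [blk_lt hi, refl_apply]
  have hd := val_diff hq hag
  have h1 : refl a N = 0 := by rw [refl_apply, hN]; rfl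
  rw [blk_eq, h1, dg_one, dg_zero, sh_blk, sh_refl, val_refl hq, val_refl hq, ha] at hd
  have e : (1 - 0 + (1 / (q - 1) - 1) - (1 / (q - 1) - val q (sh (N + 1) a))) = val q (sh (N + 1) a) := by ring
  rw [e] at hd
  linarith

/-- Univoque bases just above `q`. -/
lemma bases_above {q : ℝ} (h1q : 1.87 ≤ q) (hq2 : q ≤ 1.889) {a : ℕ → Fin 2} (ha : val q a = 1) (hu : Uni q a)
    {N : ℕ} (hg : Good a N) {x : ℝ} (hx : x = 1 / q + 1 / q ^ 4 + val q (blk a N (refl a)) / q ^ 4)
    (hx1 : x ≤ 0.65) {ε : ℝ} (hε : 0 < ε) : ∃ p ∈ univoqueBases x, p < q + ε := by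
  have hq : 1 < q := by linarith
  have hq0 : 0 < q := by linarith
  have hqm : 0 < q - 1 := by linarith
  have hL := hu.LL hq ha
  have hinf := inf_ones hq (by linarith) ha hu
  have hbq : (0:ℝ) ≤ 1 / (q - 1) - 1 := val_refl_nonneg_aux hq (by linarith)
  obtain ⟨μ, hμ, hμ'⟩ := exists_pos_lb (fun k => val q (sh (k + 1) a) - (1 / (q - 1) - 1)) (fun k => a k = 1)
    (fun k hk => by have := hu.one hq hk; linarith) N
  set p := min (q + ε) 1.9 with hp
  have hqp : q < p := lt_min (by linarith) (by linarith)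
  have hp19 : p ≤ 1.9 := min_le_right _ _
  have hpε : p ≤ q + ε := min_le_left _ _
  have hp1 : 1 < p := by linarith
  have hpm : 0 < p - 1 := by linarith
  have hx' : x = val q (pf (blk a N (refl a))) := by rw [hx]; exact ((pf_vals hq _).2.2.2).symm
  have hxpos : 0 < x := by
    rw [hx]
    have := val_nonneg hq (blk a N (refl a))
    positivity
  have hη : 0 < x - val p (pf (blk a N (refl a))) := by
    have := val_strictAnti hq hqp (d := pf (blk a N (refl a))) (by rw [← hx']; exact hxpos)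
    rw [← hx'] at this
    linarith
  -- choice of M
  obtain ⟨M0, hM0⟩ := pow_unbounded_of_one_lt (1 / (q - 1) / μ) hq
  obtain ⟨M1, hM1⟩ := pow_unbounded_of_one_lt (1 / (p - 1) / (x - val p (pf (blk a N (refl a))))) hp1
  obtain ⟨M, hMge, hM⟩ := exists_good hL hinf (M0 + M1 + 2)
  set t := blk a M (refl a) with ht
  have hyM := hu.one hq hM.1
  have htv : val q t = (1 / (q - 1) - 1) + val q (sh (M + 1) a) / q ^ (M + 1) := val_blk_refl hq ha hM.1
  have hWr : Wni q (refl a) := fun n => by rw [tl_refl]; exact (hu n).le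
  have hrefl : val q (refl a) = 1 / (q - 1) - 1 := by rw [val_refl hq, ha]
  have hWt : Wni q t := by
    refine blk_W hq ha hu hM hWr (by rw [hrefl]) ?_
    intro k _ hk
    rw [hrefl]
    exact (hu.one hq hk).le
  have htb : 1 / (q - 1) - 1 ≤ val q t := by
    rw [htv]
    have : 0 ≤ val q (sh (M + 1) a) / q ^ (M + 1) := div_nonneg (val_nonneg hq _) (by positivity)
    linarith
  have htb' : 1 / (q - 1) - 1 < val q t := by
    rw [htv]
    have : 0 < val q (sh (M + 1) a) / q ^ (M + 1) := div_pos (by linarith) (by positivity)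
    linarith
  have htμ : val q t ≤ (1 / (q - 1) - 1) + μ := by
    rw [htv]
    have h1 : val q (sh (M + 1) a) / q ^ (M + 1) ≤ 1 / (q - 1) / q ^ M0 :=
      div_le_div₀ (by positivity) (val_le hq _) (by positivity) (pow_le_pow_right₀ hq.le (by omega))
    have h2 : 1 / (q - 1) / q ^ M0 ≤ μ := by
      rw [div_lt_iff₀ hμ] at hM0
      rw [div_le_iff₀ (by positivity)]
      linarith
    linarith
  set D := blk a N t with hD
  have hWD : Wni q D := by
    refine blk_W hq ha hu hg hWt htb ?_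
    intro k hk hk1
    have := hμ' k hk hk1
    linarith
  have hagN : ∀ i < N, blk a N t i = blk a N (refl a) i := fun i hi => by rw [blk_lt hi, blk_lt hi]
  have hDv : val q D = val q (blk a N (refl a)) + (val q t - (1 / (q - 1) - 1)) / q ^ (N + 1) := by
    rw [hD, val_blk hq a t N, val_blk hq a (refl a) N, hrefl]; ring
  have hDgt : val q (blk a N (refl a)) < val q D := by
    rw [hDv]
    have : 0 < (val q t - (1 / (q - 1) - 1)) / q ^ (N + 1) := div_pos (by linarith) (by positivity)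
    linarith
  have hDb : 1 / (q - 1) - 1 ≤ val q D := by
    rw [val_blk_refl hq ha hg.1] at hDgt
    have : 0 ≤ val q (sh (N + 1) a) / q ^ (N + 1) := div_nonneg (val_nonneg hq _) (by positivity)
    linarith
  have hblk : val q (blk a N (refl a)) ≤ 0.55 := by
    have h1 : val q (blk a N (refl a)) = x * q ^ 4 - q ^ 3 - 1 := by rw [hx]; field_simp; ring
    rw [h1]
    have h2 : x * q ^ 4 ≤ 0.65 * q ^ 4 := mul_le_mul_of_nonneg_right hx1 (by positivity)
    have h3 : 0.65 * q ^ 4 - q ^ 3 = q ^ 3 * (0.65 * q - 1) := by ring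
    have h4 : q ^ 3 * (0.65 * q - 1) ≤ 1.889 ^ 3 * (0.65 * 1.889 - 1) :=
      mul_le_mul (pow_le_pow_left₀ hq0.le hq2 3) (by linarith) (by linarith) (by norm_num)
    norm_num at h4
    norm_num
    linarith
  have hDu : val q D ≤ 0.8 := by
    rw [hDv]
    have h1 : (val q t - (1 / (q - 1) - 1)) / q ^ (N + 1) ≤ val q t - (1 / (q - 1) - 1) :=
      div_le_self (by linarith) (one_le_pow₀ hq.le)
    have h2 : val q t - (1 / (q - 1) - 1) = val q (sh (M + 1) a) / q ^ (M + 1) := by rw [htv]; ring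
    have h3 : val q (sh (M + 1) a) / q ^ (M + 1) ≤ 1 / (q - 1) / q ^ 3 :=
      div_le_div₀ (by positivity) (val_le hq _) (by positivity) (pow_le_pow_right₀ hq.le (by omega))
    have h4 : 1 / (q - 1) / q ^ 3 ≤ 0.25 := by
      rw [div_le_iff₀ (by positivity), div_le_iff₀ hqm]
      have h5 : (1.87:ℝ) ^ 3 ≤ q ^ 3 := pow_le_pow_left₀ (by norm_num) h1q 3
      norm_num at h5
      nlinarith
    linarith
  have hWpf : Wni q (pf D) := pf_W h1q hq2 hWD hDb hDu
  have hvq : x < val q (pf D) := by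
    rw [hx, (pf_vals hq D).2.2.2]
    have : val q (blk a N (refl a)) / q ^ 4 < val q D / q ^ 4 := div_lt_div_of_pos_right hDgt (by positivity)
    linarith
  have hvp : val p (pf D) < x := by
    have hag : ∀ i < 4 + (N + 1) + M, pf D i = pf (blk a N (refl a)) i := by
      intro i hi
      rcases Nat.lt_or_ge i 4 with h | h
      · unfold pf
        rcases (by omega : i = 0 ∨ i = 1 ∨ i = 2 ∨ i = 3) with rfl | rfl | rfl | rfl <;> simp
      · obtain ⟨j, rfl⟩ : ∃ j, i = j + 4 := ⟨i - 4, by omega⟩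
        have e1 := congrFun (pf_sh D) j
        have e2 := congrFun (pf_sh (blk a N (refl a))) j
        rw [sh_apply] at e1 e2
        rw [e1, e2]
        rcases lt_trichotomy j N with h1 | h1 | h1
        · rw [hD, blk_lt h1, blk_lt h1]
        · rw [hD, h1, blk_eq, blk_eq]
        · obtain ⟨r, rfl⟩ : ∃ r, j = N + 1 + r := ⟨j - N - 1, by omega⟩
          rw [hD, blk_gt, blk_gt, ht, blk_lt (by omega), refl_apply]
    have h1 := (abs_le.mp (val_close hp1 hag)).2
    have h2 : 1 / (p - 1) / p ^ (4 + (N + 1) + M) ≤ 1 / (p - 1) / p ^ M1 :=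
      div_le_div_of_nonneg_left (by positivity) (by positivity) (pow_le_pow_right₀ hp1.le (by omega))
    have h3 : 1 / (p - 1) / p ^ M1 < x - val p (pf (blk a N (refl a))) := by
      rw [div_lt_iff₀ hη] at hM1
      rw [div_lt_iff₀ (by positivity)]
      linarith
    linarith
  obtain ⟨r, hr, hrv⟩ := intermediate_value_Icc' hqp.le (val_cont hq (pf D)) ⟨hvp.le, hvq.le⟩
  have hrv' : val r (pf D) = x := hrv
  have hqr : q < r := lt_of_le_of_ne hr.1 (by rintro rfl; linarith)
  have hrp : r < p := lt_of_le_of_ne hr.2 (by rintro rfl; linarith)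
  refine ⟨r, ⟨by linarith, by linarith, ?_⟩, by linarith⟩
  rw [← hrv']
  exact (hWpf.uni hq hqr).mem (by linarith)

/-- The special points lie in the level set. -/
lemma qs_special {q : ℝ} (h1q : 1.87 ≤ q) (hq2 : q ≤ 1.889) {a : ℕ → Fin 2} (ha : val q a = 1) (hu : Uni q a)
    {N : ℕ} (hg : Good a N) (hy : val q (sh (N + 1) a) - (1 / (q - 1) - 1) ≤ 0.00125) {x : ℝ}
    (hx : x = 1 / q + 1 / q ^ 4 + val q (blk a N (refl a)) / q ^ 4) (hx0 : psi ≤ x) (hx1 : x ≤ 0.65) :
    qs x = q := by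
  apply le_antisymm
  · refine le_of_forall_pos_lt_add fun ε hε => ?_
    obtain ⟨p, hp, hpa⟩ := bases_above h1q hq2 ha hu hg hx hx1 hε
    exact lt_of_le_of_lt (qs_le_of_mem hp) hpa
  · obtain ⟨p, hp, _⟩ := bases_above h1q hq2 ha hu hg hx hx1 one_pos
    exact le_csInf ⟨p, hp⟩ fun r hr => no_smaller h1q hq2 ha hu hg.1 hy hx hx0 hx1 hr

/-- Infinite level sets above gaps. -/
lemma levelSet_infinite {q q₀ : ℝ} (h1q : 1.87 ≤ q) (hq2 : q ≤ 1.889) (hg : psi ≤ gg q)
    (hU : q ∈ univoqueBases 1) (hq₀ : q₀ < q) (hgap : ∀ p ∈ univoqueBases 1, p ≤ q₀ ∨ q ≤ p) :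
    (levelSet q).Infinite := by
  have hq : 1 < q := by linarith
  have hq0 : 0 < q := by linarith
  have hqm : 0 < q - 1 := by linarith
  obtain ⟨a, ha, hu⟩ := exists_uni hq (by linarith) hU.2.2
  have hgg : gg q = 1 / q + 1 / q ^ 4 + (1 / (q - 1) - 1) / q ^ 4 := by unfold gg; field_simp; ring
  have hkey : ∀ N0 : ℕ, ∃ N, N0 ≤ N ∧ ∃ x ∈ levelSet q, gg q < x ∧ x - gg q ≤ 1 / (q - 1) / q ^ N := by
    intro N0
    obtain ⟨N, hN, hgN, hNk⟩ := strong_good hq (by linarith) ha hu hq₀ hgap 12 N0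
    obtain ⟨k, hk⟩ := hu.LL hq ha N
    have hk12 := hNk k hk
    have h1 := val_close hq hk.1
    rw [ha, tl_one hgN.1, val_refl hq] at h1
    have h2 : 1 / (q - 1) / q ^ k ≤ 0.00125 := by
      have h3 : (1.87:ℝ) ^ 12 ≤ q ^ k := by
        calc (1.87:ℝ) ^ 12 ≤ q ^ 12 := pow_le_pow_left₀ (by norm_num) h1q 12
          _ ≤ q ^ k := pow_le_pow_right₀ hq.le hk12
      rw [div_le_iff₀ (by positivity), div_le_iff₀ hqm]
      norm_num at h3
      nlinarith
    have hy : val q (sh (N + 1) a) - (1 / (q - 1) - 1) ≤ 0.00125 := by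
      have := (abs_le.mp (h1.trans h2)).1
      linarith
    have hyb := hu.one hq hgN.1
    have hbq : (0:ℝ) ≤ 1 / (q - 1) - 1 := val_refl_nonneg_aux hq (by linarith)
    set x := 1 / q + 1 / q ^ 4 + val q (blk a N (refl a)) / q ^ 4 with hx
    have hxg : x = gg q + val q (sh (N + 1) a) / q ^ (N + 1) / q ^ 4 := by
      rw [hx, hgg, val_blk_refl hq ha hgN.1]; ring
    have hpos : 0 < val q (sh (N + 1) a) / q ^ (N + 1) / q ^ 4 := by
      have : 0 < val q (sh (N + 1) a) := by linarith
      positivity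
    have hb1 : 1 / (q - 1) ≤ 1.15 := by rw [div_le_iff₀ hqm]; linarith
    have hx1 : x ≤ 0.65 := by
      rw [hxg]
      have h3 : gg q ≤ gg 1.87 := gg_anti_le (by norm_num) h1q
      have h4 : gg 1.87 < 0.63 := by unfold gg; norm_num
      have h5 : val q (sh (N + 1) a) / q ^ (N + 1) / q ^ 4 ≤ 0.02 := by
        have h6 : val q (sh (N + 1) a) / q ^ (N + 1) ≤ val q (sh (N + 1) a) :=
          div_le_self (val_nonneg hq _) (one_le_pow₀ hq.le)
        rw [div_le_iff₀ (by positivity)]
        have h7 : (1.87:ℝ) ^ 4 ≤ q ^ 4 := pow_le_pow_left₀ (by norm_num) h1q 4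
        have h8 : val q (sh (N + 1) a) ≤ 0.16 := by linarith
        have h9 : (12.2:ℝ) ≤ q ^ 4 := by
          refine le_trans ?_ h7
          norm_num
        linarith
      linarith
    have hx0 : psi ≤ x := by rw [hxg]; linarith
    refine ⟨N, hN, x, ⟨by linarith [psi_bounds.1], qs_special h1q hq2 ha hu hgN hy hx hx0 hx1⟩, by rw [hxg]; linarith, ?_⟩
    rw [hxg, add_sub_cancel_left]
    have h8 : val q (sh (N + 1) a) / q ^ (N + 1) / q ^ 4 ≤ val q (sh (N + 1) a) / q ^ (N + 1) :=
      div_le_self (div_nonneg (val_nonneg hq _) (by positivity)) (one_le_pow₀ hq.le)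
    refine h8.trans ?_
    exact div_le_div₀ (by positivity) (val_le hq _) (by positivity) (pow_le_pow_right₀ hq.le (by omega))
  -- infinitude
  intro hfin
  have hfin2 : ((fun x => 1 / (x - gg q)) '' levelSet q).Finite := hfin.image _
  obtain ⟨B, hB⟩ := hfin2.bddAbove
  obtain ⟨N0, hN0⟩ := pow_unbounded_of_one_lt (B * (1 / (q - 1)) + 1) hq
  obtain ⟨N, hN, x, hxL, hxg, hxb⟩ := hkey N0
  have h1 : 1 / (x - gg q) ≤ B := hB ⟨x, hxL, rfl⟩
  have hxp : 0 < x - gg q := by linarith
  have hBp : 0 < B := lt_of_lt_of_le (by positivity) h1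
  rw [div_le_iff₀ hxp] at h1
  have h2 : q ^ N0 ≤ q ^ N := pow_le_pow_right₀ hq.le hN
  have h3 : B * (x - gg q) ≤ B * (1 / (q - 1) / q ^ N) := mul_le_mul_of_nonneg_left hxb hBp.le
  have h4 : B * (1 / (q - 1) / q ^ N) < 1 := by
    have : B * (1 / (q - 1) / q ^ N) = (B * (1 / (q - 1))) / q ^ N := by ring
    rw [this, div_lt_one (by positivity)]
    linarith
  linarith

end Pool.Agent.helper80.Univ
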