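import Mathlib
import Pool.Agent.helper80.UnivUB
import Pool.Agent.helper80.UnivPoint

set_option autoImplicit false
open Filter Topology

namespace Pool.Agent.helper80.Univ

/-- Horner numerators of partial sums in a rational base `P / Q`. -/
def hor (P Q : ℕ) (d : ℕ → Fin 2) : ℕ → ℕ
  | 0 => 0
  | n + 1 => P * hor P Q d n + (d n : ℕ) * Q ^ (n + 1)

lemma psum_hor {q : ℝ} {P Q : ℕ} (hP : 0 < P) (hQ : 0 < Q) (h : q * Q = P) (d : ℕ → Fin 2) (n : ℕ) :
    psum q d n = (hor P Q d n : ℝ) / P ^ n := by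
  have hP' : (P : ℝ) ≠ 0 := by positivity
  have hQ' : (Q : ℝ) ≠ 0 := by positivity
  have hq : q = P / Q := by field_simp; exact h
  induction n with
  | zero => simp [hor]
  | succ n ih =>
    rw [psum_succ, ih, hor]
    push_cast
    unfold dg
    rw [hq, div_pow, pow_succ (P : ℝ) n]
    have : (P : ℝ) ^ n ≠ 0 := pow_ne_zero _ hP'
    have : (Q : ℝ) ^ (n + 1) ≠ 0 := pow_ne_zero _ hQ'
    field_simp

/-- periodic word -/
def wrd (w : List ℕ) : ℕ → Fin 2 := fun i => if w.getD (i % w.length) 0 = 1 then 1 else 0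

lemma wrd_per (w : List ℕ) : sh w.length (wrd w) = wrd w := by
  funext i
  unfold wrd
  rw [sh_apply, Nat.add_mod_right]

lemma sh_mul {c : ℕ → Fin 2} {n : ℕ} (h : sh n c = c) (k : ℕ) : sh (n * k) c = c := by
  induction k with
  | zero => rw [mul_zero, sh_zero]
  | succ k ih =>
    have : sh (n * (k + 1)) c = sh n (sh (n * k) c) := by rw [sh_sh]; congr 1; ring
    rw [this, ih, h]

lemma sh_mod {c : ℕ → Fin 2} {n : ℕ} (h : sh n c = c) (m : ℕ) : sh m c = sh (m % n) c := by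
  have h1 : sh m c = sh (m % n) (sh (n * (m / n)) c) := by
    rw [sh_sh]; congr 1; exact (Nat.mod_add_div m n).symm
  rw [h1, sh_mul h]

lemma tl_mod {c : ℕ → Fin 2} {n : ℕ} (h : sh n c = c) (m : ℕ) : tl c m = tl c (m % n) := by
  have h1 := sh_mod h m
  have h2 : c m = c (m % n) := by
    have := congrFun h1 0
    rw [sh_apply, sh_apply, zero_add, zero_add] at this
    exact this
  have h3 : sh (m + 1) c = sh (m % n + 1) c := by
    have e1 : sh (m + 1) c = sh 1 (sh m c) := by rw [sh_sh, add_comm]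
    have e2 : sh (m % n + 1) c = sh 1 (sh (m % n) c) := by rw [sh_sh, add_comm]
    rw [e1, e2, h1]
  unfold tl
  rw [h2, h3]

lemma tl_per {c : ℕ → Fin 2} {n : ℕ} (h : sh n c = c) (m : ℕ) : sh n (tl c m) = tl c m := by
  have h1 : sh n (sh (m + 1) c) = sh (m + 1) c := by
    have : sh n (sh (m + 1) c) = sh (m + 1) (sh n c) := by rw [sh_sh, sh_sh, add_comm]
    rw [this, h]
  rcases fin2_cases (c m) with h0 | h0
  · rw [tl_zero h0, h1]
  · rw [tl_one h0, sh_refl, h1]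

lemma val_per {q : ℝ} (hq : 1 < q) {c : ℕ → Fin 2} {n : ℕ} (hc : sh n c = c) :
    val q c * (1 - 1 / q ^ n) = psum q c n := by
  have h := val_split hq c n
  rw [hc] at h
  have hp : q ^ n ≠ 0 := by positivity
  have : val q c * (1 - 1 / q ^ n) = val q c - val q c / q ^ n := by ring
  rw [this]; linarith

lemma per_uni {q : ℝ} (hq : 1 < q) {P Q : ℕ} (hP : 0 < P) (hQ : 0 < Q) (h : q * Q = P) {c : ℕ → Fin 2} {n : ℕ}
    (hn : 0 < n) (hc : sh n c = c) (hchk : ∀ m < n, hor P Q (tl c m) n + Q ^ n < P ^ n) : Uni q c := by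
  intro m
  rw [tl_mod hc m]
  have hm : m % n < n := Nat.mod_lt _ hn
  have h1 := val_per hq (tl_per hc (m % n))
  rw [psum_hor hP hQ h] at h1
  have hP' : (0:ℝ) < (P : ℝ) ^ n := by positivity
  have hQ' : (Q : ℝ) ^ n ≠ 0 := by positivity
  have hqn : 1 / q ^ n = (Q : ℝ) ^ n / P ^ n := by
    rw [← h, mul_pow]
    have : q ^ n ≠ 0 := by positivity
    field_simp
  have h2 : (hor P Q (tl c (m % n)) n : ℝ) + (Q : ℝ) ^ n < (P : ℝ) ^ n := by exact_mod_cast hchk _ hm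
  have h3 : (hor P Q (tl c (m % n)) n : ℝ) / P ^ n < 1 - 1 / q ^ n := by
    rw [hqn, div_lt_iff₀ hP', sub_mul, div_mul_cancel₀ _ hP'.ne']
    linarith
  have h4 : 0 < 1 - 1 / q ^ n := by
    have : 1 < q ^ n := one_lt_pow₀ hq (by omega)
    rw [sub_pos, div_lt_one (by linarith)]
    exact this
  by_contra hcon
  push Not at hcon
  nlinarith

lemma val_per_eq {q : ℝ} (hq : 1 < q) {P Q : ℕ} (hP : 0 < P) (hQ : 0 < Q) (h : q * Q = P) {c : ℕ → Fin 2} {n : ℕ}
    (hc : sh n c = c) : val q c * ((P : ℝ) ^ n - (Q : ℝ) ^ n) = hor P Q c n := by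
  have h1 := val_per hq hc
  rw [psum_hor hP hQ h] at h1
  have hP' : (0:ℝ) < (P : ℝ) ^ n := by positivity
  have hqn : 1 / q ^ n = (Q : ℝ) ^ n / P ^ n := by
    rw [← h, mul_pow]
    have : q ^ n ≠ 0 := by positivity
    have hQ' : (Q : ℝ) ^ n ≠ 0 := by positivity
    field_simp
  rw [hqn, eq_div_iff hP'.ne'] at h1
  rw [← h1]
  field_simp

/-- one curve -/
lemma stage {c : ℕ → Fin 2} {l r X X' : ℝ} (hl : 1.87 ≤ l) (hlr : l ≤ r) (hr : r ≤ 1.889) (hW : Uni l c) {m : ℕ}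
    (hm : c m = 1) (hm2 : sh (m + 1) c = c) (hb2 : val l c ≤ 0.8) (hX : X ≤ val l (pf c)) (hX' : val r (pf c) ≤ X') {x : ℝ}
    (h1 : X' ≤ x) (h2 : x < X) : ∃ q ∈ univoqueBases x, q ≤ r := by
  have hl1 : 1 < l := by linarith
  have hb : 1 / (l - 1) - 1 ≤ val l c := by
    have := hW.one hl1 hm
    rw [hm2] at this
    exact this.le
  have hWpf := pf_W hl (by linarith) hW.wni hb hb2
  have hmem : x ∈ Set.Icc (val r (pf c)) (val l (pf c)) := ⟨by linarith, by linarith⟩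
  obtain ⟨q, hq, hqx⟩ := intermediate_value_Icc' hlr (val_cont hl1 (pf c)) hmem
  have hqx' : val q (pf c) = x := hqx
  have hlq : l < q := lt_of_le_of_ne hq.1 (by rintro rfl; linarith)
  refine ⟨q, ⟨by linarith, by linarith [hq.2], ?_⟩, hq.2⟩
  rw [← hqx']
  exact (hWpf.uni hl1 hlq).mem (by linarith)

lemma stage1 {x : ℝ} (h1 : 0.61931 ≤ x) (h2 : x < 0.6283) : ∃ q ∈ univoqueBases x, q ≤ 1.888477 := by
  have hc : sh 9 (wrd [0, 0, 0, 1, 1, 0, 1, 1, 1]) = wrd [0, 0, 0, 1, 1, 0, 1, 1, 1] := wrd_per [0, 0, 0, 1, 1, 0, 1, 1, 1]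
  have hl : (1:ℝ) < 1.8707 := by norm_num
  have hr : (1:ℝ) < 1.888477 := by norm_num
  have hlq : (1.8707:ℝ) * (10000 : ℕ) = (18707 : ℕ) := by norm_num
  have hrq : (1.888477:ℝ) * (1000000 : ℕ) = (1888477 : ℕ) := by norm_num
  have hU : Uni 1.8707 (wrd [0, 0, 0, 1, 1, 0, 1, 1, 1]) :=
    per_uni hl (by norm_num) (by norm_num) hlq (n := 9) (by norm_num) hc (by decide +kernel)
  have hHl : hor 18707 10000 (wrd [0, 0, 0, 1, 1, 0, 1, 1, 1]) 9 = 41526618260278192203070000000000000000 := by decide +kernel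
  have hHr : hor 1888477 1000000 (wrd [0, 0, 0, 1, 1, 0, 1, 1, 1]) 9 = 43192839585628326189976125706157000000000000000000000000 := by decide +kernel
  have hvl := val_per_eq hl (by norm_num) (by norm_num) hlq (n := 9) hc
  have hvr := val_per_eq hr (by norm_num) (by norm_num) hrq (n := 9) hc
  rw [hHl] at hvl
  rw [hHr] at hvr
  have hpl := (pf_vals hl (wrd [0, 0, 0, 1, 1, 0, 1, 1, 1])).2.2.2
  have hpr := (pf_vals hr (wrd [0, 0, 0, 1, 1, 0, 1, 1, 1])).2.2.2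
  refine stage (c := wrd [0, 0, 0, 1, 1, 0, 1, 1, 1]) (l := 1.8707) (r := 1.888477) (X := 0.6283) (X' := 0.61931) (m := 8)
    (by norm_num) (by norm_num) (by norm_num) hU (by decide +kernel) hc ?_ ?_ ?_ h1 h2
  · norm_num at hvl ⊢
    linarith
  · rw [hpl]
    norm_num at hvl ⊢
    linarith
  · rw [hpr]
    norm_num at hvr ⊢
    linarith

lemma stage2 {x : ℝ} (h1 : 0.61825 ≤ x) (h2 : x < 0.61932) : ∃ q ∈ univoqueBases x, q ≤ 1.888477 := by
  have hc : sh 10 (wrd [0, 0, 0, 1, 1, 0, 0, 1, 0, 1]) = wrd [0, 0, 0, 1, 1, 0, 0, 1, 0, 1] := wrd_per [0, 0, 0, 1, 1, 0, 0, 1, 0, 1]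
  have hl : (1:ℝ) < 1.8855 := by norm_num
  have hr : (1:ℝ) < 1.888477 := by norm_num
  have hlq : (1.8855:ℝ) * (10000 : ℕ) = (18855 : ℕ) := by norm_num
  have hrq : (1.888477:ℝ) * (1000000 : ℕ) = (1888477 : ℕ) := by norm_num
  have hU : Uni 1.8855 (wrd [0, 0, 0, 1, 1, 0, 0, 1, 0, 1]) :=
    per_uni hl (by norm_num) (by norm_num) hlq (n := 10) (by norm_num) hc (by decide +kernel)
  have hHl : hor 18855 10000 (wrd [0, 0, 0, 1, 1, 0, 0, 1, 0, 1]) 10 = 733179434428484520018906250000000000000000 := by decide +kernel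
  have hHr : hor 1888477 1000000 (wrd [0, 0, 0, 1, 1, 0, 0, 1, 0, 1]) 10 = 73945245898851837225267543945186252889000000000000000000000000 := by decide +kernel
  have hvl := val_per_eq hl (by norm_num) (by norm_num) hlq (n := 10) hc
  have hvr := val_per_eq hr (by norm_num) (by norm_num) hrq (n := 10) hc
  rw [hHl] at hvl
  rw [hHr] at hvr
  have hpl := (pf_vals hl (wrd [0, 0, 0, 1, 1, 0, 0, 1, 0, 1])).2.2.2
  have hpr := (pf_vals hr (wrd [0, 0, 0, 1, 1, 0, 0, 1, 0, 1])).2.2.2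
  refine stage (c := wrd [0, 0, 0, 1, 1, 0, 0, 1, 0, 1]) (l := 1.8855) (r := 1.888477) (X := 0.61932) (X' := 0.61825) (m := 9)
    (by norm_num) (by norm_num) (by norm_num) hU (by decide +kernel) hc ?_ ?_ ?_ h1 h2
  · norm_num at hvl ⊢
    linarith
  · rw [hpl]
    norm_num at hvl ⊢
    linarith
  · rw [hpr]
    norm_num at hvr ⊢
    linarith

lemma stage3 {x : ℝ} (h1 : 0.618085 ≤ x) (h2 : x < 0.61826) : ∃ q ∈ univoqueBases x, q ≤ 1.888477 := by
  have hc : sh 11 (wrd [0, 0, 0, 1, 1, 0, 0, 0, 1, 1, 1]) = wrd [0, 0, 0, 1, 1, 0, 0, 0, 1, 1, 1] := wrd_per [0, 0, 0, 1, 1, 0, 0, 0, 1, 1, 1]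
  have hl : (1:ℝ) < 1.8877 := by norm_num
  have hr : (1:ℝ) < 1.888477 := by norm_num
  have hlq : (1.8877:ℝ) * (10000 : ℕ) = (18877 : ℕ) := by norm_num
  have hrq : (1.888477:ℝ) * (1000000 : ℕ) = (1888477 : ℕ) := by norm_num
  have hU : Uni 1.8877 (wrd [0, 0, 0, 1, 1, 0, 0, 0, 1, 1, 1]) :=
    per_uni hl (by norm_num) (by norm_num) hlq (n := 11) (by norm_num) hc (by decide +kernel)
  have hHl : hor 18877 10000 (wrd [0, 0, 0, 1, 1, 0, 0, 0, 1, 1, 1]) 11 = 13711329971453546862764115492530000000000000000 := by decide +kernel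
  have hHr : hor 1888477 1000000 (wrd [0, 0, 0, 1, 1, 0, 0, 0, 1, 1, 1]) 11 = 137475280295558233674661575586973499297060053000000000000000000000000 := by decide +kernel
  have hvl := val_per_eq hl (by norm_num) (by norm_num) hlq (n := 11) hc
  have hvr := val_per_eq hr (by norm_num) (by norm_num) hrq (n := 11) hc
  rw [hHl] at hvl
  rw [hHr] at hvr
  have hpl := (pf_vals hl (wrd [0, 0, 0, 1, 1, 0, 0, 0, 1, 1, 1])).2.2.2
  have hpr := (pf_vals hr (wrd [0, 0, 0, 1, 1, 0, 0, 0, 1, 1, 1])).2.2.2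
  refine stage (c := wrd [0, 0, 0, 1, 1, 0, 0, 0, 1, 1, 1]) (l := 1.8877) (r := 1.888477) (X := 0.61826) (X' := 0.618085) (m := 10)
    (by norm_num) (by norm_num) (by norm_num) hU (by decide +kernel) hc ?_ ?_ ?_ h1 h2
  · norm_num at hvl ⊢
    linarith
  · rw [hpl]
    norm_num at hvl ⊢
    linarith
  · rw [hpr]
    norm_num at hvr ⊢
    linarith

lemma stage4 {x : ℝ} (h1 : 0.618043 ≤ x) (h2 : x < 0.618086) : ∃ q ∈ univoqueBases x, q ≤ 1.888477 := by
  have hc : sh 12 (wrd [0, 0, 0, 1, 1, 0, 0, 0, 1, 1, 0, 1]) = wrd [0, 0, 0, 1, 1, 0, 0, 0, 1, 1, 0, 1] := wrd_per [0, 0, 0, 1, 1, 0, 0, 0, 1, 1, 0, 1]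
  have hl : (1:ℝ) < 1.8882 := by norm_num
  have hr : (1:ℝ) < 1.888477 := by norm_num
  have hlq : (1.8882:ℝ) * (10000 : ℕ) = (18882 : ℕ) := by norm_num
  have hrq : (1.888477:ℝ) * (1000000 : ℕ) = (1888477 : ℕ) := by norm_num
  have hU : Uni 1.8882 (wrd [0, 0, 0, 1, 1, 0, 0, 0, 1, 1, 0, 1]) :=
    per_uni hl (by norm_num) (by norm_num) hlq (n := 12) (by norm_num) hc (by decide +kernel)
  have hHl : hor 18882 10000 (wrd [0, 0, 0, 1, 1, 0, 0, 0, 1, 1, 0, 1]) 12 = 258448777987393712968245393319221760000000000000000 := by decide +kernel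
  have hHr : hor 1888477 1000000 (wrd [0, 0, 0, 1, 1, 0, 0, 0, 1, 1, 0, 1]) 12 = 258730427906714926455223868279760953032014077709281000000000000000000000000 := by decide +kernel
  have hvl := val_per_eq hl (by norm_num) (by norm_num) hlq (n := 12) hc
  have hvr := val_per_eq hr (by norm_num) (by norm_num) hrq (n := 12) hc
  rw [hHl] at hvl
  rw [hHr] at hvr
  have hpl := (pf_vals hl (wrd [0, 0, 0, 1, 1, 0, 0, 0, 1, 1, 0, 1])).2.2.2
  have hpr := (pf_vals hr (wrd [0, 0, 0, 1, 1, 0, 0, 0, 1, 1, 0, 1])).2.2.2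
  refine stage (c := wrd [0, 0, 0, 1, 1, 0, 0, 0, 1, 1, 0, 1]) (l := 1.8882) (r := 1.888477) (X := 0.618086) (X' := 0.618043) (m := 11)
    (by norm_num) (by norm_num) (by norm_num) hU (by decide +kernel) hc ?_ ?_ ?_ h1 h2
  · norm_num at hvl ⊢
    linarith
  · rw [hpl]
    norm_num at hvl ⊢
    linarith
  · rw [hpr]
    norm_num at hvr ⊢
    linarith

lemma stage5 {x : ℝ} (h1 : 0.618025 ≤ x) (h2 : x < 0.618044) : ∃ q ∈ univoqueBases x, q ≤ 1.888477 := by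
  have hc : sh 16 (wrd [0, 0, 0, 1, 1, 0, 0, 0, 1, 1, 0, 0, 1, 0, 0, 1]) = wrd [0, 0, 0, 1, 1, 0, 0, 0, 1, 1, 0, 0, 1, 0, 0, 1] := wrd_per [0, 0, 0, 1, 1, 0, 0, 0, 1, 1, 0, 0, 1, 0, 0, 1]
  have hl : (1:ℝ) < 1.888434 := by norm_num
  have hr : (1:ℝ) < 1.888477 := by norm_num
  have hlq : (1.888434:ℝ) * (1000000 : ℕ) = (1888434 : ℕ) := by norm_num
  have hrq : (1.888477:ℝ) * (1000000 : ℕ) = (1888477 : ℕ) := by norm_num
  have hU : Uni 1.888434 (wrd [0, 0, 0, 1, 1, 0, 0, 0, 1, 1, 0, 0, 1, 0, 0, 1]) :=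
    per_uni hl (by norm_num) (by norm_num) hlq (n := 16) (by norm_num) hc (by decide +kernel)
  have hHl : hor 1888434 1000000 (wrd [0, 0, 0, 1, 1, 0, 0, 0, 1, 1, 0, 0, 1, 0, 0, 1]) 16 = 3284906443453912746039973007402721864238230783270927600071582839138029408256000000000000000000000000 := by decide +kernel
  have hHr : hor 1888477 1000000 (wrd [0, 0, 0, 1, 1, 0, 0, 0, 1, 1, 0, 0, 1, 0, 0, 1]) 16 = 3285761718913330293742754898009067085160572653436245886787960847011087846321000000000000000000000000 := by decide +kernel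
  have hvl := val_per_eq hl (by norm_num) (by norm_num) hlq (n := 16) hc
  have hvr := val_per_eq hr (by norm_num) (by norm_num) hrq (n := 16) hc
  rw [hHl] at hvl
  rw [hHr] at hvr
  have hpl := (pf_vals hl (wrd [0, 0, 0, 1, 1, 0, 0, 0, 1, 1, 0, 0, 1, 0, 0, 1])).2.2.2
  have hpr := (pf_vals hr (wrd [0, 0, 0, 1, 1, 0, 0, 0, 1, 1, 0, 0, 1, 0, 0, 1])).2.2.2
  refine stage (c := wrd [0, 0, 0, 1, 1, 0, 0, 0, 1, 1, 0, 0, 1, 0, 0, 1]) (l := 1.888434) (r := 1.888477) (X := 0.618044) (X' := 0.618025) (m := 15)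
    (by norm_num) (by norm_num) (by norm_num) hU (by decide +kernel) hc ?_ ?_ ?_ h1 h2
  · norm_num at hvl ⊢
    linarith
  · rw [hpl]
    norm_num at hvl ⊢
    linarith
  · rw [hpr]
    norm_num at hvr ⊢
    linarith

end Pool.Agent.helper80.Univ
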