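import Mathlib
import Pool.Agent.helper80.UnivTop

set_option autoImplicit false
open Filter Topology

namespace Pool.Agent.helper80.Univ

lemma fstep1 {q y l u l' u' : ℝ} (hq1 : 1.888444 ≤ q) (hq2 : q ≤ 1.888477) (hl0 : 0 ≤ l) (h : y ∈ Uq q ∧ l ≤ y ∧ y ≤ u)
    (h1 : 1 ≤ 1.888444 * l) (hl : l' ≤ 1.888444 * l - 1) (hu : 1.888477 * u - 1 ≤ u') :
    q * y - 1 ∈ Uq q ∧ l' ≤ q * y - 1 ∧ q * y - 1 ≤ u' := by
  obtain ⟨hm, h3, h4⟩ := h
  have h5 : 1.888444 * l ≤ q * y := mul_le_mul hq1 h3 hl0 (by linarith)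
  have h6 : q * y ≤ 1.888477 * u := mul_le_mul hq2 h4 (by linarith) (by norm_num)
  refine ⟨?_, by linarith, by linarith⟩
  rcases Uq_switch (by linarith) (by linarith) hm with h7 | h7
  · linarith
  · exact Uq_shift_one (by linarith) hm h7

lemma fstep0 {q y l u l' u' : ℝ} (hq1 : 1.888444 ≤ q) (hq2 : q ≤ 1.888477) (hl0 : 0 ≤ l) (h : y ∈ Uq q ∧ l ≤ y ∧ y ≤ u)
    (h1 : 1.888477 * u ≤ 1.12) (hl : l' ≤ 1.888444 * l) (hu : 1.888477 * u ≤ u') :
    q * y ∈ Uq q ∧ l' ≤ q * y ∧ q * y ≤ u' := by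
  obtain ⟨hm, h3, h4⟩ := h
  have h5 : 1.888444 * l ≤ q * y := mul_le_mul hq1 h3 hl0 (by linarith)
  have h6 : q * y ≤ 1.888477 * u := mul_le_mul hq2 h4 (by linarith) (by norm_num)
  refine ⟨?_, by linarith, by linarith⟩
  have h8 : (1.12:ℝ) < 1 / (q - 1) := by
    rw [lt_div_iff₀ (by linarith)]; linarith
  rcases Uq_switch (by linarith) (by linarith) hm with h7 | h7
  · exact Uq_shift_zero (by linarith) hm h7
  · linarith

/-- `1` is not univoque in bases between `1.888444` and `1.888477`. -/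
lemma no_univ {q : ℝ} (hq1 : 1.888444 ≤ q) (hq2 : q ≤ 1.888477) (h : (1:ℝ) ∈ Uq q) : False := by
  have s0 : (1:ℝ) ∈ Uq q ∧ (1:ℝ) ≤ 1 ∧ (1:ℝ) ≤ 1 := ⟨h, le_rfl, le_rfl⟩
  have s1 := fstep1 (l' := 0.88844400000) (u' := 0.88847700000) hq1 hq2 (by norm_num) s0 (by norm_num) (by norm_num) (by norm_num)
  have s2 := fstep1 (l' := 0.67777674113) (u' := 0.67786837953) hq1 hq2 (by norm_num) s1 (by norm_num) (by norm_num) (by norm_num)
  have s3 := fstep1 (l' := 0.27994342012) (u' := 0.28013884377) hq1 hq2 (by norm_num) s2 (by norm_num) (by norm_num) (by norm_num)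
  have s4 := fstep0 (l' := 0.52865747206) (u' := 0.52903576327) hq1 hq2 (by norm_num) s3 (by norm_num) (by norm_num) (by norm_num)
  have s5 := fstep0 (l' := 0.99834003116) (u' := 0.99907187112) hq1 hq2 (by norm_num) s4 (by norm_num) (by norm_num) (by norm_num)
  have s6 := fstep1 (l' := 0.88530924180) (u' := 0.88672424996) hq1 hq2 (by norm_num) s5 (by norm_num) (by norm_num) (by norm_num)
  have s7 := fstep1 (l' := 0.67185692582) (u' := 0.67455835140) hq1 hq2 (by norm_num) s6 (by norm_num) (by norm_num) (by norm_num)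
  have s8 := fstep1 (l' := 0.26876418042) (u' := 0.27388793178) hq1 hq2 (by norm_num) s7 (by norm_num) (by norm_num) (by norm_num)
  have s9 := fstep0 (l' := 0.50754610392) (u' := 0.51723105975) hq1 hq2 (by norm_num) s8 (by norm_num) (by norm_num) (by norm_num)
  have s10 := fstep0 (l' := 0.95847239467) (u' := 0.97677896003) hq1 hq2 (by norm_num) s9 (by norm_num) (by norm_num) (by norm_num)
  have s11 := fstep1 (l' := 0.81002144288) (u' := 0.84462460011) hq1 hq2 (by norm_num) s10 (by norm_num) (by norm_num) (by norm_num)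
  have s12 := fstep1 (l' := 0.52968013367) (u' := 0.59505413095) hq1 hq2 (by norm_num) s11 (by norm_num) (by norm_num) (by norm_num)
  obtain ⟨hm, h3, h4⟩ := s12
  have h5 : 1.888444 * 0.52968013367 ≤ q * _ := mul_le_mul hq1 h3 (by norm_num) (by linarith)
  have h6 : q * _ ≤ 1.888477 * 0.59505413095 := mul_le_mul hq2 h4 (by linarith) (by norm_num)
  have h8 : (1.12552:ℝ) < 1 / (q - 1) := by
    rw [lt_div_iff₀ (by linarith)]; linarith
  rcases Uq_switch (by linarith) (by linarith) hm with h7 | h7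
  · norm_num at h5
    linarith
  · norm_num at h6
    linarith

/-- upper bound for `q_max` -/
lemma qmax_le : qmax ≤ 1.888477 := by
  have hpb := psi_bounds
  obtain ⟨a, ha⟩ := exists_root
  refine csSup_le ⟨qs 1, 1, Set.mem_Ioi.mpr (one_pos : (0:ℝ) < 1), rfl⟩ ?_
  rintro _ ⟨x, hx, rfl⟩
  have hx0 : (0:ℝ) < x := hx
  rcases lt_or_ge x psi with h | h
  · obtain ⟨q, hq, hqa⟩ := exists_base_lt ha hx0 (Or.inl h)
    have := qs_le_of_mem hq
    linarith [ha.u]
  rcases lt_or_ge (gg a) x with h' | h'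
  · obtain ⟨q, hq, hqa⟩ := exists_base_lt ha hx0 (Or.inr h')
    have := qs_le_of_mem hq
    linarith [ha.u]
  have hg1 : gg a ≤ gg 1.8713 := gg_anti_le (by norm_num) ha.l.le
  have hg2 : gg 1.8713 < 0.6283 := by unfold gg; norm_num
  have key : ∃ q ∈ univoqueBases x, q ≤ 1.888477 := by
    rcases le_or_gt 0.61931 x with h1 | h1
    · exact stage1 h1 (by linarith)
    rcases le_or_gt 0.61825 x with h2 | h2
    · exact stage2 h2 (by linarith)
    rcases le_or_gt 0.618085 x with h3 | h3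
    · exact stage3 h3 (by linarith)
    rcases le_or_gt 0.618043 x with h4 | h4
    · exact stage4 h4 (by linarith)
    · exact stage5 (by linarith) (by linarith)
  obtain ⟨q, hq, hq2⟩ := key
  exact (qs_le_of_mem hq).trans hq2

/-- The set `(q_KL, 2] \ closure U`; here `qs 1 = inf U` is the Komornik-Loreti constant `q_KL`. -/
def gapSet : Set ℝ := Set.Ioc (qs 1) 2 \ closure (univoqueBases 1)

/-- de Vries-Komornik numbers: right endpoints of the connected components `(q₀, q)` of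
`(q_KL, 2] \ closure U`. -/
def IsDVK (q : ℝ) : Prop := ∃ q₀ < q, ∃ x ∈ gapSet, connectedComponentIn gapSet x = Set.Ioo q₀ q

lemma IsDVK.mem_closure {q : ℝ} (h : IsDVK q) : q ∈ closure (univoqueBases 1) := by
  obtain ⟨q₀, hq, x, hx, hc⟩ := h
  have hsub : Set.Ioo q₀ q ⊆ gapSet := by rw [← hc]; exact connectedComponentIn_subset _ _
  have hxm : x ∈ Set.Ioo q₀ q := by rw [← hc]; exact mem_connectedComponentIn hx
  by_contra hcon
  have hq2 : q ≤ 2 := by
    by_contra h2
    push Not at h2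
    have h3 : max x 2 < q := max_lt hxm.2 h2
    obtain ⟨y, hy1, hy2⟩ := exists_between h3
    have h4 := hsub ⟨lt_of_lt_of_le hxm.1 ((le_max_left x 2).trans hy1.le), hy2⟩
    have h5 : y ≤ 2 := h4.1.2
    have h6 := le_max_right x 2
    linarith
  have hqg : q ∈ gapSet := ⟨⟨lt_trans hx.1.1 hxm.2, hq2⟩, hcon⟩
  have hsub2 : Set.Ioc q₀ q ⊆ gapSet := by
    intro y hy
    rcases eq_or_lt_of_le hy.2 with h | h
    · rw [h]; exact hqg
    · exact hsub ⟨hy.1, h⟩
  have h7 : Set.Ioc q₀ q ⊆ connectedComponentIn gapSet x :=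
    isPreconnected_Ioc.subset_connectedComponentIn ⟨hxm.1, hxm.2.le⟩ hsub2
  have h8 : q ∈ connectedComponentIn gapSet x := h7 ⟨hq, le_rfl⟩
  rw [hc] at h8
  exact lt_irrefl _ h8.2

lemma IsDVK.gap {q : ℝ} (h : IsDVK q) : ∃ q₀ < q, ∀ p ∈ univoqueBases 1, p ≤ q₀ ∨ q ≤ p := by
  obtain ⟨q₀, hq, x, hx, hc⟩ := h
  have hsub : Set.Ioo q₀ q ⊆ gapSet := by rw [← hc]; exact connectedComponentIn_subset _ _
  refine ⟨q₀, hq, fun p hp => ?_⟩
  by_contra hcon
  push Not at hcon
  exact (hsub ⟨hcon.1, hcon.2⟩).2 (subset_closure hp)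

theorem dvk_infinite {q : ℝ} (hq : IsDVK q) (h1 : 1.87064 < q) (h2 : q ≤ qmax) : (levelSet q).Infinite := by
  have hpb := psi_bounds
  have hm := qmax_le
  obtain ⟨q₀, hq₀, hgap⟩ := hq.gap
  have hU : q ∈ univoqueBases 1 := mem_of_gap (by linarith) (by linarith) hq₀ hq.mem_closure hgap
  refine levelSet_infinite (by linarith) (by linarith) ?_ hU hq₀ hgap
  by_contra hcon
  push Not at hcon
  rcases le_or_gt q 1.888444 with h | h
  · have h3 : gg 1.888444 ≤ gg q := gg_anti_le (by linarith) h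
    have h4 : (0.618035:ℝ) < gg 1.888444 := by unfold gg; norm_num
    linarith [hpb.2]
  · exact no_univ h.le (by linarith) hU.2.2

end Pool.Agent.helper80.Univ
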