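import Mathlib

set_option autoImplicit false
open MeasureTheory Filter Topology UnitAddTorus

namespace Pool.Agent.helper80

/-- `ph t n = n^{it}`. -/
noncomputable def ph (t : ℝ) (n : ℕ) : ℂ := Complex.exp (((t * Real.log n : ℝ) : ℂ) * Complex.I)

lemma norm_ph (t : ℝ) (n : ℕ) : ‖ph t n‖ = 1 := by
  unfold ph; exact Complex.norm_exp_ofReal_mul_I _

lemma ph_mul (t : ℝ) {m n : ℕ} (hm : m ≠ 0) (hn : n ≠ 0) : ph t (m * n) = ph t m * ph t n := by
  unfold ph
  rw [← Complex.exp_add]
  congr 1
  rw [Nat.cast_mul, Real.log_mul (by exact_mod_cast hm) (by exact_mod_cast hn)]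
  push_cast
  ring

/-- Haar probability measure on the torus. -/
noncomputable abbrev torusMeas (d : Type) [Fintype d] : Measure (UnitAddTorus d) :=
  Measure.pi (fun _ : d => AddCircle.haarAddCircle (T := (1:ℝ)))

lemma integral_fourier_eq_zero (n : ℤ) (hn : n ≠ 0) :
    ∫ x : UnitAddCircle, (fourier n x : ℂ) ∂(AddCircle.haarAddCircle) = 0 := by
  have := fourier_add_half_inv_index (T := (1:ℝ)) hn one_pos
  exact integral_eq_zero_of_add_right_eq_neg this

lemma integral_mFourier_eq_zero {d : Type} [Fintype d] (n : d → ℤ) (hn : n ≠ 0) :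
    ∫ x, (mFourier n x : ℂ) ∂(torusMeas d) = 0 := by
  obtain ⟨i, hi⟩ := Function.ne_iff.mp hn
  have : ∫ x, (mFourier n x : ℂ) ∂(torusMeas d)
      = ∏ i, ∫ x : UnitAddCircle, (fourier (n i) x : ℂ) ∂(AddCircle.haarAddCircle) := by
    rw [← integral_fintype_prod_eq_prod]
    rfl
  rw [this]
  exact Finset.prod_eq_zero (Finset.mem_univ i) (integral_fourier_eq_zero _ hi)

/-- The path in the torus. -/
noncomputable def path {d : Type} (l : d → ℝ) (t : ℝ) : UnitAddTorus d :=
  fun i => ((t * l i / (2 * Real.pi) : ℝ) : UnitAddCircle)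

lemma continuous_path {d : Type} (l : d → ℝ) : Continuous (path l) := by
  unfold path
  refine continuous_pi fun i => ?_
  exact (AddCircle.continuous_mk' (1:ℝ)).comp (by fun_prop)

lemma mFourier_path {d : Type} [Fintype d] (l : d → ℝ) (n : d → ℤ) (t : ℝ) :
    mFourier n (path l t) = Complex.exp ((((∑ i, n i * l i : ℝ) : ℂ) * Complex.I) * t) := by
  unfold mFourier path
  simp only [ContinuousMap.coe_mk, fourier_coe_apply]
  rw [← Complex.exp_sum]
  congr 1
  push_cast
  rw [Finset.sum_mul, Finset.sum_mul]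
  refine Finset.sum_congr rfl fun i _ => ?_
  have hpi : (Real.pi : ℂ) ≠ 0 := by exact_mod_cast Real.pi_ne_zero
  field_simp

/-- Mean values of characters along the path. -/
lemma mean_mFourier {d : Type} [Fintype d] (l : d → ℝ)
    (hl : ∀ n : d → ℤ, n ≠ 0 → (∑ i, n i * l i : ℝ) ≠ 0) (F : C(UnitAddTorus d, ℂ))
    (hF : F ∈ Submodule.span ℂ (Set.range (mFourier (d := d)))) :
    Tendsto (fun T : ℝ => (1 / T : ℂ) * ∫ t in (0:ℝ)..T, F (path l t)) atTop
      (𝓝 (∫ x, F x ∂(torusMeas d))) := by
  induction hF using Submodule.span_induction with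
  | mem F hF =>
    obtain ⟨n, rfl⟩ := hF
    by_cases hn : n = 0
    · subst hn
      have h1 : (∫ x, (mFourier (0 : d → ℤ) x : ℂ) ∂(torusMeas d)) = 1 := by
        simp [mFourier_zero]
      rw [h1]
      refine tendsto_const_nhds.congr' ?_
      filter_upwards [eventually_gt_atTop 0] with T hT
      simp only [mFourier_zero, ContinuousMap.one_apply, intervalIntegral.integral_const, sub_zero]
      have : (T : ℂ) ≠ 0 := by exact_mod_cast hT.ne'
      rw [Complex.real_smul]
      field_simp
    · rw [integral_mFourier_eq_zero n hn]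
      set c : ℝ := ∑ i, n i * l i with hc
      have hc0 : c ≠ 0 := hl n hn
      have hcc : ((c : ℂ) * Complex.I) ≠ 0 := by
        simp [hc0, Complex.I_ne_zero]
      have : ∀ T : ℝ, ∫ t in (0:ℝ)..T, (mFourier n (path l t) : ℂ)
          = (Complex.exp (((c:ℂ) * Complex.I) * T) - 1) / ((c:ℂ) * Complex.I) := by
        intro T
        simp_rw [mFourier_path]
        rw [integral_exp_mul_complex hcc]
        simp
      simp_rw [this]
      rw [tendsto_zero_iff_norm_tendsto_zero]
      have hb : ∀ᶠ T : ℝ in atTop, ‖(1 / T : ℂ) * ((Complex.exp (((c:ℂ) * Complex.I) * T) - 1) / ((c:ℂ) * Complex.I))‖ ≤ (2 / |c|) * T⁻¹ := by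
        filter_upwards [eventually_gt_atTop 0] with T hT
        rw [norm_mul, norm_div, norm_div, norm_mul, Complex.norm_I]
        have h2 : ‖Complex.exp (((c:ℂ) * Complex.I) * T) - 1‖ ≤ 2 := by
          refine (norm_sub_le _ _).trans ?_
          have : ((c:ℂ) * Complex.I) * T = ((c * T : ℝ) : ℂ) * Complex.I := by push_cast; ring
          rw [this, Complex.norm_exp_ofReal_mul_I]
          norm_num
        have h3 : ‖(T:ℂ)‖ = T := by
          rw [Complex.norm_real]; exact abs_of_pos hT
        have h4 : ‖(c:ℂ)‖ = |c| := by rw [Complex.norm_real]; rfl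
        rw [h3, h4]
        have hcp : 0 < |c| := abs_pos.mpr hc0
        simp only [norm_one, mul_one]
        have : 1 / T * (‖Complex.exp (((c:ℂ) * Complex.I) * T) - 1‖ / |c|) ≤ 1 / T * (2 / |c|) := by
          gcongr
        calc _ ≤ _ := this
          _ = _ := by ring
      refine squeeze_zero' (Eventually.of_forall fun T => norm_nonneg _) hb ?_
      have := (tendsto_inv_atTop_zero (𝕜 := ℝ)).const_mul (2 / |c|)
      simpa using this
  | zero => simp
  | add F G _ _ hF hG =>
    have hFi : ∀ T : ℝ, IntervalIntegrable (fun t => F (path l t)) volume 0 T := fun T =>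
      (F.continuous.comp (continuous_path l)).intervalIntegrable _ _
    have hGi : ∀ T : ℝ, IntervalIntegrable (fun t => G (path l t)) volume 0 T := fun T =>
      (G.continuous.comp (continuous_path l)).intervalIntegrable _ _
    have h1 : (∫ x, (F + G) x ∂(torusMeas d)) = (∫ x, F x ∂(torusMeas d)) + ∫ x, G x ∂(torusMeas d) := by
      simp only [ContinuousMap.add_apply]
      rw [integral_add]
      · exact F.continuous.integrable_of_hasCompactSupport (HasCompactSupport.of_compactSpace _)
      · exact G.continuous.integrable_of_hasCompactSupport (HasCompactSupport.of_compactSpace _)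
    rw [h1]
    refine (hF.add hG).congr fun T => ?_
    simp only [ContinuousMap.add_apply]
    rw [intervalIntegral.integral_add (hFi T) (hGi T)]
    ring
  | smul a F _ hF =>
    have h1 : (∫ x, (a • F) x ∂(torusMeas d)) = a * ∫ x, F x ∂(torusMeas d) := by
      simp only [ContinuousMap.smul_apply, smul_eq_mul]
      rw [integral_const_mul]
    rw [h1]
    refine (hF.const_mul a).congr fun T => ?_
    simp only [ContinuousMap.smul_apply, smul_eq_mul]
    rw [intervalIntegral.integral_const_mul]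
    ring


/-- Density of the path in the torus, in terms of exponentials. -/
lemma exists_near {d : Type} [Fintype d] (l : d → ℝ)
    (hl : ∀ n : d → ℤ, n ≠ 0 → (∑ i, n i * l i : ℝ) ≠ 0) (v : d → ℂ) (hv : ∀ i, ‖v i‖ = 1)
    (ε : ℝ) (hε : 0 < ε) :
    ∃ t : ℝ, ∀ i, ‖Complex.exp (((t * l i : ℝ) : ℂ) * Complex.I) - v i‖ ≤ ε := by
  by_contra hcon
  push Not at hcon
  -- bump function
  let b : UnitAddTorus d → ℝ := fun x => ∏ i, max 0 (1 - ‖fourier 1 (x i) - v i‖ / ε)
  have hbc : Continuous b := by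
    refine continuous_finsetProd _ fun i _ => ?_
    have : Continuous fun x : UnitAddTorus d => (fourier 1 (x i) : ℂ) :=
      (fourier (T := (1:ℝ)) 1).continuous.comp (continuous_apply i)
    fun_prop
  have hb0 : 0 ≤ b := fun x => Finset.prod_nonneg fun i _ => le_max_left _ _
  have hpos : 0 < ∫ x, b x ∂(torusMeas d) := by
    let x0 : UnitAddTorus d := fun i => ((Complex.arg (v i) / (2 * Real.pi) : ℝ) : UnitAddCircle)
    refine hbc.integral_pos_of_hasCompactSupport_nonneg_nonzero (x := x0)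
      (HasCompactSupport.of_compactSpace _) hb0 ?_
    have : ∀ i, (fourier 1 (x0 i) : ℂ) = v i := by
      intro i
      simp only [x0, fourier_coe_apply]
      have h1 := Complex.norm_mul_exp_arg_mul_I (v i)
      rw [hv i] at h1
      simp only [Complex.ofReal_one, one_mul] at h1
      rw [← h1]
      have hpi : (Real.pi : ℂ) ≠ 0 := by exact_mod_cast Real.pi_ne_zero
      congr 1
      push_cast
      rw [h1]
      field_simp
    simp only [b, this, sub_self, norm_zero, zero_div, sub_zero]
    simp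
  set I := ∫ x, b x ∂(torusMeas d) with hI
  let B : C(UnitAddTorus d, ℂ) := ⟨fun x => (b x : ℂ), by fun_prop⟩
  have hBpath : ∀ t : ℝ, B (path l t) = 0 := by
    intro t
    obtain ⟨i, hi⟩ := hcon t
    simp only [B, ContinuousMap.coe_mk, b]
    rw [Complex.ofReal_eq_zero]
    refine Finset.prod_eq_zero (Finset.mem_univ i) ?_
    refine max_eq_left ?_
    have h2 : (fourier 1 (path l t i) : ℂ) = Complex.exp (((t * l i : ℝ) : ℂ) * Complex.I) := by
      simp only [path, fourier_coe_apply]
      congr 1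
      have hpi : (Real.pi : ℂ) ≠ 0 := by exact_mod_cast Real.pi_ne_zero
      push_cast
      field_simp
    rw [h2]
    have : 1 ≤ ‖Complex.exp (((t * l i : ℝ) : ℂ) * Complex.I) - v i‖ / ε := by
      rw [le_div_iff₀ hε, one_mul]; exact hi.le
    linarith
  -- approximate
  have hmem : B ∈ closure ((Submodule.span ℂ (Set.range (mFourier (d := d)))) : Set C(UnitAddTorus d, ℂ)) := by
    have := span_mFourier_closure_eq_top (d := d)
    have h2 : B ∈ (Submodule.span ℂ (Set.range <| mFourier (d := d))).topologicalClosure := by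
      rw [this]; trivial
    exact h2
  rw [Metric.mem_closure_iff] at hmem
  obtain ⟨Q, hQ, hBQ⟩ := hmem (I / 4) (by positivity)
  rw [dist_eq_norm] at hBQ
  have hpt : ∀ x, ‖B x - Q x‖ ≤ I / 4 := fun x => by
    have := (B - Q).norm_coe_le_norm x
    simp only [ContinuousMap.sub_apply] at this
    exact this.trans hBQ.le
  have hlim := mean_mFourier l hl Q hQ
  have hbound : ∀ᶠ T : ℝ in atTop, ‖(1 / T : ℂ) * ∫ t in (0:ℝ)..T, Q (path l t)‖ ≤ I / 4 := by
    filter_upwards [eventually_gt_atTop 0] with T hT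
    have h3 : ‖∫ t in (0:ℝ)..T, Q (path l t)‖ ≤ I / 4 * |T - 0| := by
      refine intervalIntegral.norm_integral_le_of_norm_le_const fun t _ => ?_
      have := hpt (path l t)
      rw [hBpath t, zero_sub, norm_neg] at this
      exact this
    rw [norm_mul, norm_div, norm_one, Complex.norm_real, Real.norm_eq_abs]
    rw [sub_zero] at h3
    have hTa : 0 < |T| := abs_pos.mpr hT.ne'
    calc 1 / |T| * ‖∫ t in (0:ℝ)..T, Q (path l t)‖ ≤ 1 / |T| * (I / 4 * |T|) := by gcongr
      _ = I / 4 := by field_simp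
  have hle : ‖∫ x, Q x ∂(torusMeas d)‖ ≤ I / 4 :=
    le_of_tendsto hlim.norm hbound
  have hdiff : ‖(∫ x, B x ∂(torusMeas d)) - ∫ x, Q x ∂(torusMeas d)‖ ≤ I / 4 := by
    rw [← integral_sub]
    · refine (norm_integral_le_of_norm_le_const (C := I / 4) (Eventually.of_forall hpt)).trans ?_
      simp
    · exact B.continuous.integrable_of_hasCompactSupport (HasCompactSupport.of_compactSpace _)
    · exact Q.continuous.integrable_of_hasCompactSupport (HasCompactSupport.of_compactSpace _)
  have hBI : (∫ x, B x ∂(torusMeas d)) = (I : ℂ) := by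
    simp only [B, ContinuousMap.coe_mk]
    exact integral_ofReal
  have h5 : ‖(I : ℂ)‖ ≤ I / 4 + I / 4 := by
    rw [← hBI]
    calc ‖∫ x, B x ∂(torusMeas d)‖
        = ‖((∫ x, B x ∂(torusMeas d)) - ∫ x, Q x ∂(torusMeas d)) + ∫ x, Q x ∂(torusMeas d)‖ := by
          congr 1; ring
      _ ≤ _ := (norm_add_le _ _).trans (add_le_add hdiff hle)
  rw [Complex.norm_real, Real.norm_eq_abs, abs_of_pos hpos] at h5
  linarith

/-- Linear independence of logarithms of primes. -/
lemma log_primes_indep (Q : Finset ℕ) (hQ : ∀ p ∈ Q, p.Prime) (n : Q → ℤ) (hn : n ≠ 0) :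
    (∑ i : Q, n i * Real.log (i : ℕ) : ℝ) ≠ 0 := by
  intro h0
  -- product of `p ^ n_p` is one
  have h1 : ∏ i : Q, (((i : ℕ) : ℝ) ^ (n i)) = 1 := by
    have hpos : ∀ i : Q, (0:ℝ) < ((i : ℕ) : ℝ) := fun i => by exact_mod_cast (hQ i i.2).pos
    have hlog : Real.log (∏ i : Q, (((i : ℕ) : ℝ) ^ (n i))) = 0 := by
      rw [Real.log_prod (fun i _ => zpow_ne_zero _ (hpos i).ne')]
      simp_rw [Real.log_zpow]
      exact h0
    exact Real.eq_one_of_pos_of_log_eq_zero (Finset.prod_pos fun i _ => zpow_pos (hpos i) _) hlog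
  have h2 : ∏ i : Q, (((i : ℕ) : ℚ) ^ (n i)) = 1 := by
    have : ((∏ i : Q, (((i : ℕ) : ℚ) ^ (n i)) : ℚ) : ℝ) = ((1:ℚ):ℝ) := by
      push_cast
      exact h1
    exact_mod_cast this
  obtain ⟨j, hj⟩ := Function.ne_iff.mp hn
  have : Fact (j : ℕ).Prime := ⟨hQ j j.2⟩
  have h3 := congrArg (padicValRat (j : ℕ)) h2
  have hne : ∀ i : Q, (((i : ℕ) : ℚ) ^ (n i)) ≠ 0 := fun i =>
    zpow_ne_zero _ (by exact_mod_cast (hQ i i.2).ne_zero)
  rw [padicValRat.one] at h3
  have h4 : padicValRat (j : ℕ) (∏ i : Q, (((i : ℕ) : ℚ) ^ (n i)))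
      = ∑ i : Q, padicValRat (j : ℕ) (((i : ℕ) : ℚ) ^ (n i)) := by
    have : ∀ s : Finset Q, padicValRat (j : ℕ) (∏ i ∈ s, (((i : ℕ) : ℚ) ^ (n i)))
      = ∑ i ∈ s, padicValRat (j : ℕ) (((i : ℕ) : ℚ) ^ (n i)) := by
      intro s
      induction s using Finset.induction_on with
      | empty => simp
      | insert a s ha ih =>
        rw [Finset.prod_insert ha, Finset.sum_insert ha, padicValRat.mul (hne a)
          (Finset.prod_ne_zero_iff.mpr fun i _ => hne i), ih]
    exact this _
  rw [h4] at h3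
  have h5 : ∀ i : Q, padicValRat (j : ℕ) (((i : ℕ) : ℚ) ^ (n i)) = if i = j then n j else 0 := by
    intro i
    rw [padicValRat.zpow]
    split_ifs with hij
    · subst hij
      rw [padicValRat.self (hQ i i.2).one_lt]
      simp
    · have : padicValRat (j : ℕ) ((i : ℕ) : ℚ) = 0 := by
        rw [padicValRat.of_nat]
        have : ¬ (j : ℕ) ∣ (i : ℕ) := by
          intro hdvd
          have := (Nat.prime_dvd_prime_iff_eq (hQ j j.2) (hQ i i.2)).mp hdvd
          exact hij (Subtype.ext this.symm)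
        rw [padicValNat.eq_zero_of_not_dvd this]
        rfl
      rw [this]; simp
  simp_rw [h5] at h3
  simp at h3
  exact hj h3

/-- **Kronecker's theorem** for the logarithms of primes. -/
theorem kronecker_primes (Q : Finset ℕ) (hQ : ∀ p ∈ Q, p.Prime) (v : ℕ → ℂ) (hv : ∀ p, ‖v p‖ = 1)
    (ε : ℝ) (hε : 0 < ε) : ∃ t : ℝ, ∀ p ∈ Q, ‖ph t p - v p‖ ≤ ε := by
  obtain ⟨t, ht⟩ := exists_near (d := Q) (fun i => Real.log ((i : ℕ) : ℝ))
    (fun n hn => log_primes_indep Q hQ n hn) (fun i => v i) (fun i => hv i) ε hε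
  refine ⟨t, fun p hp => ?_⟩
  exact ht ⟨p, hp⟩

end Pool.Agent.helper80
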