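import Mathlib

set_option autoImplicit false
open Finset

namespace Pool.Agent.helper80

/-- Completely multiplicative extension of a function given on primes. -/
noncomputable def G (v : ℕ → ℂ) (n : ℕ) : ℂ := (n.primeFactorsList.map v).prod

lemma G_mul (v : ℕ → ℂ) {m n : ℕ} (hm : m ≠ 0) (hn : n ≠ 0) : G v (m * n) = G v m * G v n := by
  unfold G
  rw [((Nat.perm_primeFactorsList_mul hm hn).map v).prod_eq, List.map_append, List.prod_append]

lemma norm_G {v : ℕ → ℂ} (hv : ∀ p, ‖v p‖ = 1) (n : ℕ) : ‖G v n‖ = 1 := by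
  unfold G
  induction n.primeFactorsList with
  | nil => simp
  | cons a l ih => rw [List.map_cons, List.prod_cons, norm_mul, ih, hv, mul_one]

lemma G_prime (v : ℕ → ℂ) {p : ℕ} (hp : p.Prime) : G v p = v p := by
  unfold G
  rw [Nat.primeFactorsList_prime hp]; simp

lemma G_congr {v u : ℕ → ℂ} {n N : ℕ} (hn : n ≤ N) (h : ∀ p ≤ N, v p = u p) : G v n = G u n := by
  unfold G
  congr 1
  refine List.map_congr_left fun p hp => h p ?_
  rcases Nat.eq_zero_or_pos n with h0 | h0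
  · subst h0; simp at hp
  · exact (Nat.le_of_dvd h0 (Nat.dvd_of_mem_primeFactorsList hp)).trans hn

/-- Number of elements of `P` dividing `n`. -/
def om (P : Finset ℕ) (n : ℕ) : ℝ := ∑ p ∈ P, if p ∣ n then (1:ℝ) else 0

lemma card_dvd (N p : ℕ) : ∑ n ∈ Icc 1 N, (if p ∣ n then (1:ℝ) else 0) = ((N / p : ℕ) : ℝ) := by
  rw [← Nat.Ioc_filter_dvd_card_eq_div N p, Finset.card_eq_sum_ones, Nat.cast_sum, Finset.sum_filter]
  have : Ioc 0 N = Icc 1 N := by ext x; simp [Nat.lt_iff_add_one_le]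
  rw [this]
  push_cast
  rfl

lemma tk (P : Finset ℕ) (hP : ∀ p ∈ P, p.Prime) (N : ℕ) :
    ∑ n ∈ Icc 1 N, (om P n - ∑ p ∈ P, (1:ℝ)/p)^2
      ≤ N * (∑ p ∈ P, (1:ℝ)/p) + 2 * (∑ p ∈ P, (1:ℝ)/p) * P.card := by
  set L : ℝ := ∑ p ∈ P, (1:ℝ)/p with hL
  have hL0 : 0 ≤ L := Finset.sum_nonneg fun p _ => by positivity
  have h1 : (N:ℝ) * L - P.card ≤ ∑ n ∈ Icc 1 N, om P n := by
    unfold om
    rw [Finset.sum_comm]
    simp_rw [card_dvd]
    have : ∀ p ∈ P, (N:ℝ) * (1 / p) - 1 ≤ ((N / p : ℕ) : ℝ) := by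
      intro p hp
      have hp0 : 0 < p := (hP p hp).pos
      have h := Nat.lt_floor_add_one ((N:ℝ) / p)
      rw [Nat.floor_div_eq_div] at h
      rw [mul_one_div]
      linarith
    calc (N:ℝ) * L - P.card = ∑ p ∈ P, ((N:ℝ) * (1 / p) - 1) := by
          rw [Finset.sum_sub_distrib, ← Finset.mul_sum]; simp [hL]
      _ ≤ _ := Finset.sum_le_sum this
  have h2 : ∑ n ∈ Icc 1 N, (om P n)^2 ≤ N * L + N * L^2 := by
    have h3 : ∀ n, (om P n)^2 = ∑ p ∈ P, ∑ q ∈ P, (if p ∣ n then (1:ℝ) else 0) * (if q ∣ n then (1:ℝ) else 0) := by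
      intro n
      unfold om
      rw [sq, Finset.sum_mul_sum]
    simp_rw [h3]
    rw [Finset.sum_comm]
    have h4 : ∀ p ∈ P, ∑ n ∈ Icc 1 N, ∑ q ∈ P, (if p ∣ n then (1:ℝ) else 0) * (if q ∣ n then (1:ℝ) else 0)
        ≤ N * (1 / p) + N * (1/p) * L := by
      intro p hp
      have hp0 : (0:ℝ) < p := by exact_mod_cast (hP p hp).pos
      rw [Finset.sum_comm]
      have h5 : ∀ q ∈ P, ∑ n ∈ Icc 1 N, (if p ∣ n then (1:ℝ) else 0) * (if q ∣ n then (1:ℝ) else 0)
          ≤ (if q = p then (N:ℝ) * (1/p) else 0) + N * (1/p) * (1 / q) := by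
        intro q hq
        have hq0 : (0:ℝ) < q := by exact_mod_cast (hP q hq).pos
        split_ifs with hqp
        · subst hqp
          have : ∑ n ∈ Icc 1 N, (if q ∣ n then (1:ℝ) else 0) * (if q ∣ n then (1:ℝ) else 0)
              = ((N / q : ℕ) : ℝ) := by
            rw [← card_dvd]
            refine Finset.sum_congr rfl fun n _ => ?_
            split_ifs <;> simp
          rw [this]
          have h6 : ((N / q : ℕ) : ℝ) ≤ N / q := Nat.cast_div_le
          have h7 : (0:ℝ) ≤ N * (1/q) * (1/q) := by positivity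
          have h8 : (N:ℝ) / q = N * (1 / q) := by rw [mul_one_div]
          rw [h8] at h6
          linarith
        · have : ∑ n ∈ Icc 1 N, (if p ∣ n then (1:ℝ) else 0) * (if q ∣ n then (1:ℝ) else 0)
              = ((N / (p * q) : ℕ) : ℝ) := by
            rw [← card_dvd]
            refine Finset.sum_congr rfl fun n _ => ?_
            have hco : Nat.Coprime p q := (Nat.coprime_primes (hP p hp) (hP q hq)).mpr (Ne.symm hqp)
            have : p * q ∣ n ↔ p ∣ n ∧ q ∣ n :=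
              ⟨fun h => ⟨(dvd_mul_right p q).trans h, (dvd_mul_left q p).trans h⟩,
                fun h => hco.mul_dvd_of_dvd_of_dvd h.1 h.2⟩
            by_cases h7 : p ∣ n <;> by_cases h8 : q ∣ n <;> simp [h7, h8, this]
          rw [this]
          have h6 : ((N / (p*q) : ℕ) : ℝ) ≤ N / ((p * q : ℕ) : ℝ) := Nat.cast_div_le
          push_cast at h6
          calc ((N / (p*q) : ℕ) : ℝ) ≤ N / ((p:ℝ) * q) := h6
            _ = 0 + (N:ℝ) * (1/p) * (1/q) := by field_simp; ring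
      calc _ ≤ ∑ q ∈ P, ((if q = p then (N:ℝ) * (1/p) else 0) + N * (1/p) * (1 / q)) :=
            Finset.sum_le_sum h5
        _ = _ := by
            rw [Finset.sum_add_distrib, ← Finset.mul_sum, Finset.sum_ite_eq' P p, if_pos hp]
    calc _ ≤ ∑ p ∈ P, ((N:ℝ) * (1 / p) + N * (1/p) * L) := Finset.sum_le_sum h4
      _ = _ := by
        rw [Finset.sum_add_distrib, ← Finset.mul_sum, ← Finset.sum_mul, ← Finset.mul_sum]
        ring
  have h3 : ∑ n ∈ Icc 1 N, (om P n - L)^2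
      = ∑ n ∈ Icc 1 N, (om P n)^2 - 2 * L * ∑ n ∈ Icc 1 N, om P n + N * L^2 := by
    have : ∀ n, (om P n - L)^2 = (om P n)^2 - 2 * L * om P n + L^2 := fun n => by ring
    simp_rw [this]
    rw [Finset.sum_add_distrib, Finset.sum_sub_distrib, ← Finset.mul_sum]
    simp
  rw [h3]
  nlinarith [mul_le_mul_of_nonneg_left h1 hL0]

/-- Lipschitz functions vanishing at zero. -/
def Lip (S : ℕ → ℂ) : Prop := S 0 = 0 ∧ ∀ a b : ℕ, a ≤ b → ‖S b - S a‖ ≤ (b:ℝ) - a

lemma Lip.norm_le {S : ℕ → ℂ} (h : Lip S) (n : ℕ) : ‖S n‖ ≤ n := by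
  have := h.2 0 n (Nat.zero_le n)
  simpa [h.1] using this

/-- The signs `v` alternate along `Q` inside each class modulo `A` (in the form used below). -/
def Alt (A : ℕ) (Q : Finset ℕ) (v : ℕ → ℂ) : Prop :=
  ∀ S : ℕ → ℂ, Lip S → ∀ c N y : ℕ, 0 < y → (∀ q ∈ Q, y ≤ q) →
    ‖∑ p ∈ Q.filter (fun p => p % A = c), v p * S (N / p)‖ ≤ ((N / y : ℕ) : ℝ)

lemma exists_alt (A : ℕ) (Q : Finset ℕ) : ∃ v : ℕ → ℂ, (∀ p, ‖v p‖ = 1) ∧ Alt A Q v := by
  suffices h : ∃ v s : ℕ → ℂ, (∀ p, ‖v p‖ = 1) ∧ (∀ c, ‖s c‖ = 1) ∧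
      ∀ S : ℕ → ℂ, Lip S → ∀ c N y : ℕ, 0 < y → (∀ q ∈ Q, y ≤ q) →
      ‖∑ p ∈ Q.filter (fun p => p % A = c), v p * S (N / p)‖ ≤ ((N / y : ℕ) : ℝ) ∧
      ‖s c * S (N / y) + ∑ p ∈ Q.filter (fun p => p % A = c), v p * S (N / p)‖ ≤ ((N / y : ℕ) : ℝ) by
    obtain ⟨v, s, hv, _, h⟩ := h
    exact ⟨v, hv, fun S hS c N y hy hQ => (h S hS c N y hy hQ).1⟩
  induction Q using Finset.induction_on_min with
  | empty =>
    refine ⟨fun _ => 1, fun _ => 1, by simp, by simp, ?_⟩
    intro S hS c N y hy _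
    refine ⟨by simp, ?_⟩
    simpa using hS.norm_le (N / y)
  | insert a Q ha ih =>
    obtain ⟨v, s, hv, hs, h⟩ := ih
    have haQ : a ∉ Q := fun h' => lt_irrefl _ (ha a h')
    refine ⟨Function.update v a (s (a % A)), Function.update s (a % A) (- s (a % A)), ?_, ?_, ?_⟩
    · intro p
      by_cases hp : p = a
      · subst hp; simp [hs]
      · simp [Function.update_of_ne hp, hv]
    · intro c
      by_cases hc : c = a % A
      · subst hc; simp [hs]
      · simp [Function.update_of_ne hc, hs]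
    · intro S hS c N y hy hyQ
      have hya : y ≤ a := hyQ a (Finset.mem_insert_self a Q)
      have ha0 : 0 < a := lt_of_lt_of_le hy hya
      have hNa : N / a ≤ N / y := Nat.div_le_div_left hya hy
      have hyQ' : ∀ q ∈ Q, y ≤ q := fun q hq => hyQ q (Finset.mem_insert_of_mem hq)
      have haQ' : ∀ q ∈ Q, a ≤ q := fun q hq => (ha q hq).le
      have hsum : ∀ c, ∑ p ∈ Q.filter (fun p => p % A = c), Function.update v a (s (a % A)) p * S (N / p)
          = ∑ p ∈ Q.filter (fun p => p % A = c), v p * S (N / p) := by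
        intro c
        refine Finset.sum_congr rfl fun p hp => ?_
        have : p ≠ a := fun h' => haQ (h' ▸ (Finset.mem_filter.mp hp).1)
        rw [Function.update_of_ne this]
      rw [Finset.filter_insert]
      by_cases hc : a % A = c
      · subst hc
        rw [if_pos rfl, Finset.sum_insert (by simp [haQ]), hsum]
        simp only [Function.update_self]
        obtain ⟨h1, h2⟩ := h S hS (a % A) N a ha0 haQ'
        refine ⟨h2.trans (by exact_mod_cast hNa), ?_⟩
        have h3 : ‖S (N / y) - S (N / a)‖ ≤ ((N / y : ℕ) : ℝ) - ((N / a : ℕ) : ℝ) := hS.2 _ _ hNa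
        calc _ = ‖- s (a % A) * (S (N / y) - S (N / a)) +
                  ∑ p ∈ Q.filter (fun p => p % A = a % A), v p * S (N / p)‖ := by
                congr 1; ring
          _ ≤ ‖- s (a % A) * (S (N / y) - S (N / a))‖ +
                  ‖∑ p ∈ Q.filter (fun p => p % A = a % A), v p * S (N / p)‖ := norm_add_le _ _
          _ ≤ (((N / y : ℕ) : ℝ) - ((N / a : ℕ) : ℝ)) + ((N / a : ℕ) : ℝ) := by
                rw [norm_mul, norm_neg, hs, one_mul]
                exact add_le_add h3 h1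
          _ = _ := by ring
      · rw [if_neg hc, hsum, Function.update_of_ne (Ne.symm hc)]
        exact h S hS c N y hy hyQ'

lemma periodic_mod {β : ℕ → ℂ} {A : ℕ} (hper : ∀ n, β (n + A) = β n) (p m : ℕ) :
    β (p * m) = β ((p % A) * m) := by
  have h1 : ∀ k n, β (n + A * k) = β n := by
    intro k
    induction k with
    | zero => simp
    | succ k ih =>
      intro n
      rw [Nat.mul_succ, ← add_assoc, hper, ih]
  have : p * m = (p % A) * m + A * (p / A * m) := by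
    conv_lhs => rw [← Nat.mod_add_div p A]
    ring
  rw [this, h1]

/-- The mean value bound. -/
lemma mean_bound {v : ℕ → ℂ} (hv : ∀ p, ‖v p‖ = 1) (P : Finset ℕ) (hP : ∀ p ∈ P, p.Prime)
    {A y : ℕ} (hA : 0 < A) (hAy : A ≤ y) (hPy : ∀ p ∈ P, y ≤ p) (halt : Alt A P v)
    {β : ℕ → ℂ} (hβ : ∀ n, ‖β n‖ ≤ 1) (hper : ∀ n, β (n + A) = β n) {N : ℕ}
    (hN : 2 * P.card ≤ N) (hL1 : 1 ≤ ∑ p ∈ P, (1:ℝ)/p) :
    ‖∑ n ∈ Icc 1 N, G v n * β n‖ ≤ 3 * N / Real.sqrt (∑ p ∈ P, (1:ℝ)/p) := by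
  set L : ℝ := ∑ p ∈ P, (1:ℝ)/p with hL
  have hL0 : 0 ≤ L := by linarith
  have hy0 : 0 < y := lt_of_lt_of_le hA hAy
  -- first part
  have h1 : ‖∑ n ∈ Icc 1 N, G v n * β n * ((L - om P n : ℝ) : ℂ)‖ ≤ N * Real.sqrt (2 * L) := by
    have h2 : ‖∑ n ∈ Icc 1 N, G v n * β n * ((L - om P n : ℝ) : ℂ)‖ ≤ ∑ n ∈ Icc 1 N, |om P n - L| := by
      refine (norm_sum_le _ _).trans (Finset.sum_le_sum fun n _ => ?_)
      rw [norm_mul, norm_mul, norm_G hv, one_mul, Complex.norm_real, Real.norm_eq_abs, abs_sub_comm]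
      calc ‖β n‖ * |om P n - L| ≤ 1 * |om P n - L| := by
            gcongr
            exact hβ n
        _ = _ := one_mul _
    refine h2.trans ?_
    have h3 : (∑ n ∈ Icc 1 N, |om P n - L|)^2 ≤ (N:ℝ) * ∑ n ∈ Icc 1 N, (om P n - L)^2 := by
      have := Finset.sum_mul_sq_le_sq_mul_sq (Icc 1 N) (fun _ => (1:ℝ)) (fun n => |om P n - L|)
      simpa using this
    have h4 := tk P hP N
    rw [← hL] at h4
    have h5 : (∑ n ∈ Icc 1 N, |om P n - L|)^2 ≤ (N * Real.sqrt (2 * L))^2 := by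
      refine h3.trans ?_
      rw [mul_pow, Real.sq_sqrt (by positivity)]
      have hN' : 2 * (P.card : ℝ) ≤ N := by exact_mod_cast hN
      have : (N:ℝ) * L + 2 * L * P.card ≤ N * (2 * L) := by nlinarith
      calc (N:ℝ) * ∑ n ∈ Icc 1 N, (om P n - L)^2 ≤ (N:ℝ) * (N * (2 * L)) := by
            gcongr
            exact h4.trans this
        _ = _ := by ring
    exact abs_le_of_sq_le_sq' h5 (by positivity) |>.2
  -- second part
  have h6 : ‖∑ n ∈ Icc 1 N, G v n * β n * ((om P n : ℝ) : ℂ)‖ ≤ N := by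
    have h7 : ∑ n ∈ Icc 1 N, G v n * β n * ((om P n : ℝ) : ℂ)
        = ∑ p ∈ P, v p * ∑ m ∈ Icc 1 (N / p), G v m * β ((p % A) * m) := by
      have : ∀ n, G v n * β n * ((om P n : ℝ) : ℂ)
          = ∑ p ∈ P, if p ∣ n then G v n * β n else 0 := by
        intro n
        unfold om
        push_cast
        rw [Finset.mul_sum]
        refine Finset.sum_congr rfl fun p _ => ?_
        split_ifs <;> simp
      simp_rw [this]
      rw [Finset.sum_comm]
      refine Finset.sum_congr rfl fun p hp => ?_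
      have hp0 : 0 < p := (hP p hp).pos
      rw [← Finset.sum_filter, Finset.mul_sum]
      symm
      refine Finset.sum_bij (fun m _ => p * m) ?_ ?_ ?_ ?_
      · intro m hm
        simp only [Finset.mem_Icc, Finset.mem_filter] at hm ⊢
        refine ⟨⟨Nat.mul_pos hp0 hm.1, ?_⟩, dvd_mul_right p m⟩
        calc p * m ≤ p * (N / p) := Nat.mul_le_mul_left p hm.2
          _ ≤ N := Nat.mul_div_le N p
      · intro a _ b _ hab
        exact Nat.eq_of_mul_eq_mul_left hp0 hab
      · intro n hn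
        simp only [Finset.mem_Icc, Finset.mem_filter] at hn
        obtain ⟨⟨hn1, hn2⟩, m, rfl⟩ := hn
        refine ⟨m, ?_, rfl⟩
        simp only [Finset.mem_Icc]
        refine ⟨Nat.pos_of_mul_pos_left hn1, ?_⟩
        rw [Nat.le_div_iff_mul_le hp0]
        linarith [Nat.mul_comm p m]
      · intro m hm
        simp only [Finset.mem_Icc] at hm
        rw [G_mul v hp0.ne' (by omega), G_prime v (hP p hp), periodic_mod hper p m]
        ring
    rw [h7]
    -- group by classes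
    let S : ℕ → ℕ → ℂ := fun c x => ∑ m ∈ Icc 1 x, G v m * β (c * m)
    have hS : ∀ c, Lip (S c) := by
      intro c
      refine ⟨by simp [S], ?_⟩
      intro a b hab
      have : S c b - S c a = ∑ m ∈ Ioc a b, G v m * β (c * m) := by
        simp only [S]
        have : Icc 1 b = Icc 1 a ∪ Ioc a b := by
          ext x; simp only [Finset.mem_union, Finset.mem_Icc, Finset.mem_Ioc]; omega
        rw [this, Finset.sum_union]
        · ring
        · rw [Finset.disjoint_left]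
          intro x hx hx'
          simp only [Finset.mem_Icc, Finset.mem_Ioc] at hx hx'
          omega
      rw [this]
      refine (norm_sum_le _ _).trans ?_
      calc ∑ m ∈ Ioc a b, ‖G v m * β (c * m)‖ ≤ ∑ m ∈ Ioc a b, (1:ℝ) := by
            refine Finset.sum_le_sum fun m _ => ?_
            rw [norm_mul, norm_G hv, one_mul]; exact hβ _
        _ = (b:ℝ) - a := by
            rw [Finset.sum_const, Nat.card_Ioc, nsmul_eq_mul, mul_one, Nat.cast_sub hab]
    have h8 : ∑ p ∈ P, v p * ∑ m ∈ Icc 1 (N / p), G v m * β ((p % A) * m)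
        = ∑ c ∈ range A, ∑ p ∈ P.filter (fun p => p % A = c), v p * S c (N / p) := by
      rw [← Finset.sum_fiberwise_of_maps_to (g := fun p => p % A) (t := range A)
        (fun p _ => Finset.mem_range.mpr (Nat.mod_lt p hA))]
      refine Finset.sum_congr rfl fun c _ => Finset.sum_congr rfl fun p hp => ?_
      rw [(Finset.mem_filter.mp hp).2]
    rw [h8]
    calc ‖∑ c ∈ range A, ∑ p ∈ P.filter (fun p => p % A = c), v p * S c (N / p)‖
        ≤ ∑ c ∈ range A, ‖∑ p ∈ P.filter (fun p => p % A = c), v p * S c (N / p)‖ := norm_sum_le _ _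
      _ ≤ ∑ c ∈ range A, ((N / y : ℕ) : ℝ) :=
          Finset.sum_le_sum fun c _ => halt (S c) (hS c) c N y hy0 hPy
      _ = ((A * (N / y) : ℕ) : ℝ) := by simp
      _ ≤ N := by
          have : A * (N / y) ≤ N := (Nat.mul_le_mul_right _ hAy).trans (Nat.mul_div_le N y)
          exact_mod_cast this
  have h9 : (L : ℂ) * ∑ n ∈ Icc 1 N, G v n * β n
      = ∑ n ∈ Icc 1 N, G v n * β n * ((L - om P n : ℝ) : ℂ)
        + ∑ n ∈ Icc 1 N, G v n * β n * ((om P n : ℝ) : ℂ) := by
    rw [← Finset.sum_add_distrib, Finset.mul_sum]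
    refine Finset.sum_congr rfl fun n _ => ?_
    push_cast
    ring
  have h10 : L * ‖∑ n ∈ Icc 1 N, G v n * β n‖ ≤ N * Real.sqrt (2 * L) + N := by
    have : ‖(L : ℂ) * ∑ n ∈ Icc 1 N, G v n * β n‖ = L * ‖∑ n ∈ Icc 1 N, G v n * β n‖ := by
      rw [norm_mul, Complex.norm_real, Real.norm_eq_abs, abs_of_nonneg hL0]
    rw [← this, h9]
    exact (norm_add_le _ _).trans (add_le_add h1 h6)
  have hs1 : 1 ≤ Real.sqrt L := Real.one_le_sqrt.mpr hL1
  have hs2 : Real.sqrt (2 * L) ≤ 2 * Real.sqrt L := by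
    rw [show 2 * Real.sqrt L = Real.sqrt (4 * L) by
      rw [Real.sqrt_mul (by norm_num : (0:ℝ) ≤ 4)]
      congr 1
      rw [show (4:ℝ) = 2^2 by norm_num, Real.sqrt_sq (by norm_num)]]
    exact Real.sqrt_le_sqrt (by linarith)
  have hsq : Real.sqrt L * Real.sqrt L = L := Real.mul_self_sqrt hL0
  rw [le_div_iff₀ (by linarith)]
  have hN0 : (0:ℝ) ≤ N := Nat.cast_nonneg N
  have h11 : Real.sqrt L * (‖∑ n ∈ Icc 1 N, G v n * β n‖ * Real.sqrt L) ≤ Real.sqrt L * (3 * N) := by
    calc _ = (Real.sqrt L * Real.sqrt L) * ‖∑ n ∈ Icc 1 N, G v n * β n‖ := by ring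
      _ = L * ‖∑ n ∈ Icc 1 N, G v n * β n‖ := by rw [hsq]
      _ ≤ N * Real.sqrt (2 * L) + N := h10
      _ ≤ N * (2 * Real.sqrt L) + N * Real.sqrt L := by
          have := mul_le_mul_of_nonneg_left hs2 hN0
          have := mul_le_mul_of_nonneg_left hs1 hN0
          linarith
      _ = _ := by ring
  exact le_of_mul_le_mul_left h11 (by linarith)

end Pool.Agent.helper80
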