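import Mathlib
import Pool.Agent.helper80.Kronecker
import Pool.Agent.helper80.MeanValue

set_option autoImplicit false
open Finset

namespace Pool.Agent.helper80

lemma Alt.congr {A : ℕ} {Q : Finset ℕ} {v u : ℕ → ℂ} (h : Alt A Q v) (huv : ∀ p ∈ Q, u p = v p) :
    Alt A Q u := by
  intro S hS c N y hy hQ
  have : ∑ p ∈ Q.filter (fun p => p % A = c), u p * S (N / p)
      = ∑ p ∈ Q.filter (fun p => p % A = c), v p * S (N / p) :=
    Finset.sum_congr rfl fun p hp => by rw [huv p (Finset.mem_filter.mp hp).1]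
  rw [this]
  exact h S hS c N y hy hQ

lemma G_ph (t : ℝ) {n : ℕ} (hn : n ≠ 0) : G (ph t) n = ph t n := by
  have h : ∀ l : List ℕ, (∀ p ∈ l, p ≠ 0) → (l.map (ph t)).prod = ph t l.prod := by
    intro l
    induction l with
    | nil => intro _; simp [ph]
    | cons a l ih =>
      intro hl
      rw [List.map_cons, List.prod_cons, List.prod_cons, ih (fun p hp => hl p (List.mem_cons_of_mem a hp)),
        ph_mul t (hl a (List.mem_cons_self)) ]
      refine List.prod_ne_zero ?_
      intro h0
      exact hl 0 (List.mem_cons_of_mem a h0) rfl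
  unfold G
  rw [h _ (fun p hp => (Nat.prime_of_mem_primeFactorsList hp).ne_zero), Nat.prod_primeFactorsList hn]

lemma norm_prod_sub_le {u w : ℕ → ℂ} (hu : ∀ p, ‖u p‖ = 1) (hw : ∀ p, ‖w p‖ = 1) (l : List ℕ) :
    ‖(l.map u).prod - (l.map w).prod‖ ≤ (l.map (fun p => ‖u p - w p‖)).sum := by
  induction l with
  | nil => simp
  | cons a l ih =>
    simp only [List.map_cons, List.prod_cons, List.sum_cons]
    have h1 : ‖(l.map u).prod‖ = 1 := by
      clear ih
      induction l with
      | nil => simp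
      | cons b l ih => rw [List.map_cons, List.prod_cons, norm_mul, ih, hu, mul_one]
    calc ‖u a * (l.map u).prod - w a * (l.map w).prod‖
        = ‖(u a - w a) * (l.map u).prod + w a * ((l.map u).prod - (l.map w).prod)‖ := by
          congr 1; ring
      _ ≤ ‖(u a - w a) * (l.map u).prod‖ + ‖w a * ((l.map u).prod - (l.map w).prod)‖ :=
          norm_add_le _ _
      _ ≤ _ := by
          rw [norm_mul, norm_mul, h1, hw, mul_one, one_mul]
          gcongr

lemma sum_factorization_le {p : ℕ} (hp : p.Prime) (N : ℕ) :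
    ∑ n ∈ Icc 1 N, n.factorization p ≤ N := by
  have h1 : ∑ n ∈ Icc 1 N, n.factorization p = (N.factorial).factorization p := by
    have h2 : ∏ n ∈ Icc 1 N, n = N.factorial := by
      induction N with
      | zero => simp
      | succ N ih => rw [Finset.prod_Icc_succ_top (by omega), ih, Nat.factorial_succ, mul_comm]
    rw [← h2, Nat.factorization_prod]
    · simp
    · intro x hx
      simp only [Finset.mem_Icc] at hx
      omega
  rw [h1, Nat.factorization_def _ hp]
  have : Fact p.Prime := ⟨hp⟩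
  have h3 := sub_one_mul_padicValNat_factorial (p := p) N
  have h4 : 1 ≤ p - 1 := by have := hp.two_le; omega
  calc padicValNat p N.factorial = 1 * padicValNat p N.factorial := (one_mul _).symm
    _ ≤ (p - 1) * padicValNat p N.factorial := Nat.mul_le_mul_right _ h4
    _ = N - (p.digits N).sum := h3
    _ ≤ N := Nat.sub_le _ _

/-- If `u p` is close to `p^{it}` for the primes up to `M` and equal to it for the primes in
`(M, N]`, then `G u n` is close to `n^{it}` on average. -/
lemma avg_close {u : ℕ → ℂ} (hu : ∀ p, ‖u p‖ = 1) (t : ℝ) (M N : ℕ) (ε : ℝ) (hε : 0 ≤ ε)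
    (h1 : ∀ p ≤ M, p.Prime → ‖ph t p - u p‖ ≤ ε) (h2 : ∀ p ≤ N, M < p → u p = ph t p) :
    ∑ n ∈ Icc 1 N, ‖G u n - ph t n‖ ≤ ε * (M + 1) * N := by
  have key : ∀ n ∈ Icc 1 N, ‖G u n - ph t n‖
      ≤ ∑ p ∈ (range (M + 1)).filter Nat.Prime, ε * n.factorization p := by
    intro n hn
    simp only [Finset.mem_Icc] at hn
    have hn0 : n ≠ 0 := by omega
    rw [← G_ph t hn0]
    unfold G
    refine (norm_prod_sub_le hu (norm_ph t) _).trans ?_
    rw [Finset.sum_list_map_count]
    have h3 : ∀ p ∈ n.primeFactorsList.toFinset,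
        List.count p n.primeFactorsList • ‖u p - ph t p‖
          ≤ if p ∈ (range (M + 1)).filter Nat.Prime then ε * n.factorization p else 0 := by
      intro p hp
      rw [List.mem_toFinset] at hp
      have hpp := Nat.prime_of_mem_primeFactorsList hp
      have hpn : p ≤ N := (Nat.le_of_dvd (by omega) (Nat.dvd_of_mem_primeFactorsList hp)).trans hn.2
      rw [Nat.primeFactorsList_count_eq, nsmul_eq_mul]
      by_cases hpM : p ≤ M
      · rw [if_pos (by simp [hpp]; omega)]
        rw [norm_sub_rev, mul_comm]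
        exact mul_le_mul_of_nonneg_right (h1 p hpM hpp) (Nat.cast_nonneg _)
      · rw [if_neg (by simp; omega), h2 p hpn (by omega)]
        simp
    refine (Finset.sum_le_sum h3).trans ?_
    rw [← Finset.sum_filter]
    refine Finset.sum_le_sum_of_subset_of_nonneg ?_ ?_
    · intro p hp
      exact (Finset.mem_filter.mp hp).2
    · intro p _ _
      positivity
  refine (Finset.sum_le_sum key).trans ?_
  rw [Finset.sum_comm]
  have h4 : ∀ p ∈ (range (M + 1)).filter Nat.Prime,
      ∑ n ∈ Icc 1 N, ε * (n.factorization p : ℝ) ≤ ε * N := by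
    intro p hp
    rw [← Finset.mul_sum]
    have := sum_factorization_le (Finset.mem_filter.mp hp).2 N
    have h5 : ∑ n ∈ Icc 1 N, (n.factorization p : ℝ) ≤ N := by exact_mod_cast this
    exact mul_le_mul_of_nonneg_left h5 hε
  refine (Finset.sum_le_sum h4).trans ?_
  rw [Finset.sum_const, nsmul_eq_mul]
  have h5 : (((range (M + 1)).filter Nat.Prime).card : ℝ) ≤ M + 1 := by
    have := Finset.card_filter_le (range (M + 1)) Nat.Prime
    rw [Finset.card_range] at this
    exact_mod_cast this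
  calc _ ≤ ((M:ℝ) + 1) * (ε * N) := by gcongr
    _ = _ := by ring

/-- Property required of the stage `k`. -/
def StageGood (k N : ℕ) (u : ℕ → ℂ) : Prop :=
  (∀ β : ℕ → ℂ, (∀ n, ‖β n‖ ≤ 1) → (∀ n, β (n + k.factorial) = β n) → ∀ x ≥ N,
    ‖∑ n ∈ Icc 1 x, G u n * β n‖ ≤ 3 * x / Real.sqrt k) ∧
  ∃ l : ℕ, N = 2 ^ (l + 1) ∧ ∃ t : ℝ, 100 * (|t| + 1) ≤ 2 ^ (l / 2) ∧
    ∑ n ∈ Icc 1 N, ‖G u n - ph t n‖ ≤ (1 / 100) * N

lemma exists_block (y : ℕ) (B : ℝ) : ∃ M : ℕ, B ≤ ∑ p ∈ (Ico y M).filter Nat.Prime, (1:ℝ) / p := by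
  by_contra hcon
  push Not at hcon
  refine not_summable_one_div_on_primes ?_
  refine summable_of_sum_range_le (c := B + ∑ i ∈ range y, ({p | Nat.Prime p}.indicator (fun n : ℕ => (1:ℝ) / n)) i) ?_ ?_
  · intro n
    exact Set.indicator_nonneg (fun m _ => by positivity) n
  · intro n
    have h1 := hcon n
    rw [Finset.sum_filter] at h1
    have h2 : ∀ i, ({p | Nat.Prime p}.indicator (fun n : ℕ => (1:ℝ) / n)) i = if i.Prime then (1:ℝ)/i else 0 := by
      intro i
      simp [Set.indicator_apply]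
    simp_rw [h2]
    have h3 : ∑ i ∈ range n, (if i.Prime then (1:ℝ)/i else 0)
        ≤ ∑ i ∈ range y ∪ Ico y n, (if i.Prime then (1:ℝ)/i else 0) := by
      refine Finset.sum_le_sum_of_subset_of_nonneg ?_ ?_
      · intro i hi
        simp only [Finset.mem_union, Finset.mem_range, Finset.mem_Ico] at hi ⊢
        omega
      · intro i _ _
        split_ifs <;> positivity
    rw [Finset.sum_union] at h3
    · linarith
    · rw [Finset.disjoint_left]
      intro i hi hi'
      simp only [Finset.mem_range, Finset.mem_Ico] at hi hi'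
      omega

lemma step (k : ℕ) (hk : 1 ≤ k) (N : ℕ) (v : ℕ → ℂ) (hv : ∀ p, ‖v p‖ = 1) :
    ∃ N' > N, ∃ v' : ℕ → ℂ, (∀ p, ‖v' p‖ = 1) ∧ (∀ p ≤ N, v' p = v p) ∧
      ∀ u : ℕ → ℂ, (∀ p, ‖u p‖ = 1) → (∀ p ≤ N', u p = v' p) → StageGood k N' u := by
  set y := max (N + 1) k.factorial with hy
  obtain ⟨M, hM⟩ := exists_block y k
  set P := (Ico y M).filter Nat.Prime with hPdef
  obtain ⟨a, ha, haalt⟩ := exists_alt k.factorial P
  set v1 : ℕ → ℂ := fun p => if p ∈ P then a p else v p with hv1
  have hv1n : ∀ p, ‖v1 p‖ = 1 := fun p => by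
    simp only [hv1]; split_ifs
    · exact ha p
    · exact hv p
  set M' := max M N with hM'
  set ε : ℝ := 1 / (100 * (M' + 1)) with hε
  have hε0 : 0 < ε := by positivity
  obtain ⟨t, ht⟩ := kronecker_primes ((range (M' + 1)).filter Nat.Prime)
    (fun p hp => (Finset.mem_filter.mp hp).2) v1 hv1n ε hε0
  set v2 : ℕ → ℂ := fun p => if p ≤ M' then v1 p else ph t p with hv2
  have hv2n : ∀ p, ‖v2 p‖ = 1 := fun p => by
    simp only [hv2]; split_ifs
    · exact hv1n p
    · exact norm_ph t p
  -- choose l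
  obtain ⟨m, hm⟩ := exists_nat_gt (max (100 * (|t| + 1)) (2 * (M' + 1 : ℝ)))
  have hm1 : 100 * (|t| + 1) < m := lt_of_le_of_lt (le_max_left _ _) hm
  have hm2 : 2 * (M' + 1 : ℝ) < m := lt_of_le_of_lt (le_max_right _ _) hm
  have hm2' : 2 * (M' + 1) < m := by exact_mod_cast hm2
  set l := 2 * m with hl
  have hpow : m < 2 ^ m := Nat.lt_two_pow_self
  have hN'm : 2 ^ m ≤ 2 ^ (l + 1) := Nat.pow_le_pow_right (by norm_num) (by omega)
  have hMN' : 2 * (M' + 1) < 2 ^ (l + 1) := by omega
  have hNM' : N ≤ M' := le_max_right _ _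
  have hMM' : M ≤ M' := le_max_left _ _
  refine ⟨2 ^ (l + 1), by omega, v2, hv2n, ?_, ?_⟩
  · intro p hp
    have hpM : p ≤ M' := hp.trans hNM'
    have hpP : p ∉ P := by
      intro h
      have := (Finset.mem_Ico.mp (Finset.mem_filter.mp h).1).1
      have : N + 1 ≤ p := (le_max_left _ _).trans this
      omega
    simp [hv2, hv1, hpM, hpP]
  · intro u hu huv
    have huP : ∀ p ∈ P, u p = a p := by
      intro p hp
      have hpM : p < M := (Finset.mem_Ico.mp (Finset.mem_filter.mp hp).1).2
      have hpM' : p ≤ M' := by omega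
      rw [huv p (by omega)]
      simp [hv2, hv1, hpM', hp]
    refine ⟨?_, l, rfl, t, ?_, ?_⟩
    · intro β hβ hper x hx
      have hcard : P.card ≤ M := by
        have h1 : P.card ≤ (Ico y M).card := Finset.card_filter_le _ _
        rw [Nat.card_Ico] at h1
        omega
      have hL1 : (1:ℝ) ≤ ∑ p ∈ P, (1:ℝ)/p := by
        have : (1:ℝ) ≤ k := by exact_mod_cast hk
        exact this.trans hM
      have hb := mean_bound hu P (fun p hp => (Finset.mem_filter.mp hp).2) (A := k.factorial) (y := y)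
        (Nat.factorial_pos k) (le_max_right _ _)
        (fun p hp => (Finset.mem_Ico.mp (Finset.mem_filter.mp hp).1).1)
        (haalt.congr huP) hβ hper (N := x) (by omega) hL1
      refine hb.trans ?_
      have hk0 : (0:ℝ) < k := by exact_mod_cast hk
      have hs : Real.sqrt k ≤ Real.sqrt (∑ p ∈ P, (1:ℝ)/p) := Real.sqrt_le_sqrt hM
      have hs0 : 0 < Real.sqrt k := Real.sqrt_pos.mpr hk0
      gcongr
    · have : l / 2 = m := by omega
      rw [this]
      have h3 : (m : ℝ) < 2 ^ m := by exact_mod_cast hpow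
      linarith
    · have h4 := avg_close hu t M' (2 ^ (l + 1)) ε hε0.le ?_ ?_
      · refine h4.trans (le_of_eq ?_)
        rw [hε]
        field_simp
      · intro p hp hpp
        have := ht p (by simp [hpp]; omega)
        rw [huv p (by omega)]
        simp only [hv2, hp, if_true]
        exact this
      · intro p hp hMp
        rw [huv p hp]
        simp only [hv2]
        rw [if_neg (by omega)]

/-- A stage: threshold and values. -/
structure Stage where
  N : ℕ
  v : ℕ → ℂ
  hv : ∀ p, ‖v p‖ = 1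

lemma exists_next (k : ℕ) (s : Stage) : ∃ s' : Stage, s.N < s'.N ∧ (∀ p ≤ s.N, s'.v p = s.v p) ∧
    ∀ u : ℕ → ℂ, (∀ p, ‖u p‖ = 1) → (∀ p ≤ s'.N, u p = s'.v p) → StageGood (k + 1) s'.N u := by
  obtain ⟨N', hN', v', hv', h1, h2⟩ := step (k + 1) (by omega) s.N s.v s.hv
  exact ⟨⟨N', v', hv'⟩, hN', h1, h2⟩

noncomputable def stage : ℕ → Stage
  | 0 => ⟨1, fun _ => 1, by simp⟩
  | k + 1 => (exists_next k (stage k)).choose

lemma stage_spec (k : ℕ) : (stage k).N < (stage (k + 1)).N ∧
    (∀ p ≤ (stage k).N, (stage (k + 1)).v p = (stage k).v p) ∧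
    ∀ u : ℕ → ℂ, (∀ p, ‖u p‖ = 1) → (∀ p ≤ (stage (k + 1)).N, u p = (stage (k + 1)).v p) →
      StageGood (k + 1) (stage (k + 1)).N u :=
  (exists_next k (stage k)).choose_spec

lemma stage_N_strictMono : StrictMono (fun k => (stage k).N) :=
  strictMono_nat_of_lt_succ fun k => (stage_spec k).1

lemma lt_stage_N (k : ℕ) : k < (stage k).N := by
  induction k with
  | zero => simp [stage]
  | succ k ih => exact lt_of_le_of_lt ih (stage_spec k).1

lemma stage_v_eq {j k : ℕ} (hjk : j ≤ k) : ∀ p ≤ (stage j).N, (stage k).v p = (stage j).v p := by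
  induction k, hjk using Nat.le_induction with
  | base => intro p _; rfl
  | succ k hk ih =>
    intro p hp
    have h1 : (stage j).N ≤ (stage k).N := stage_N_strictMono.monotone hk
    rw [(stage_spec k).2.1 p (hp.trans h1), ih p hp]

/-- The final function on primes. -/
noncomputable def vfin (p : ℕ) : ℂ := (stage p).v p

lemma norm_vfin (p : ℕ) : ‖vfin p‖ = 1 := (stage p).hv p

lemma vfin_eq (k p : ℕ) (hp : p ≤ (stage k).N) : vfin p = (stage k).v p := by
  unfold vfin
  rcases le_total p k with h | h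
  · exact (stage_v_eq h p (lt_stage_N p).le).symm
  · exact stage_v_eq h p hp

lemma stageGood_vfin (k : ℕ) : StageGood (k + 1) (stage (k + 1)).N vfin :=
  (stage_spec k).2.2 vfin norm_vfin fun p hp => vfin_eq (k + 1) p hp

end Pool.Agent.helper80
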