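import Mathlib

set_option autoImplicit false
open MeasureTheory Filter Topology

namespace Pool.Agent.helper80

/-- The shift. -/
def shiftMap : (ℤ → ℂ) → (ℤ → ℂ) := fun x z => x (z + 1)

/-- The alternating sequence with value `s` at `0`. -/
noncomputable def altSeq (s : ℂ) : ℤ → ℂ := fun z => s * (-1) ^ z

lemma shift_altSeq (s : ℂ) : shiftMap (altSeq s) = altSeq (-s) := by
  ext z
  simp only [shiftMap, altSeq]
  rw [zpow_add₀ (by norm_num)]
  simp

lemma measurable_shiftMap : Measurable shiftMap := by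
  unfold shiftMap
  exact measurable_pi_lambda _ fun z => measurable_pi_apply (z + 1)

lemma re_one_of {z : ℂ} (h1 : ‖z‖ ≤ 1) (h2 : z.re = 1) : z = 1 := by
  have h3 := Complex.sq_norm z
  rw [Complex.normSq_apply, h2] at h3
  have h4 : ‖z‖ ^ 2 ≤ 1 := pow_le_one₀ (norm_nonneg _) h1
  have h5 : z.im = 0 := by nlinarith
  exact Complex.ext (by simpa using h2) (by simpa using h5)

/-- A complex function bounded by `1` with integral `1` is a.e. `1`. -/
lemma ae_eq_one {Ω : Type*} [MeasurableSpace Ω] (μ : Measure Ω) [IsProbabilityMeasure μ]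
    (F : Ω → ℂ) (hF : Measurable F) (hb : ∀ᵐ x ∂μ, ‖F x‖ ≤ 1) (hi : ∫ x, F x ∂μ = 1) :
    ∀ᵐ x ∂μ, F x = 1 := by
  have hint : Integrable F μ := Integrable.of_bound hF.aestronglyMeasurable 1 hb
  have h1 : ∫ x, (F x).re ∂μ = 1 := by
    have := integral_re hint
    simp only [RCLike.re_eq_complex_re] at this
    rw [this, hi]; simp
  have hre : Integrable (fun x => (F x).re) μ := hint.re
  have h2 : ∫ x, (1 - (F x).re) ∂μ = 0 := by
    rw [integral_sub (integrable_const _) hre, h1]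
    simp
  have h3 : 0 ≤ᵐ[μ] fun x => 1 - (F x).re := by
    filter_upwards [hb] with x hx
    have := (Complex.re_le_norm (F x)).trans hx
    simp only [Pi.zero_apply]
    linarith
  have h4 := (integral_eq_zero_iff_of_nonneg_ae h3 ((integrable_const _).sub hre)).mp h2
  filter_upwards [h4, hb] with x hx hx2
  refine re_one_of hx2 ?_
  simp only [Pi.zero_apply] at hx
  linarith

/-- A shift invariant probability measure on the polydisc with `∫ x₀² = 1` and `∫ x₀ x₁ = -1` is
carried by the two alternating sequences. -/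
lemma ae_alt (μ : Measure (ℤ → ℂ)) [IsProbabilityMeasure μ]
    (hb : μ {x | ∀ z : ℤ, ‖x z‖ ≤ 1} = 1) (hT : MeasurePreserving shiftMap μ μ)
    (h00 : ∫ x : ℤ → ℂ, x 0 * x 0 ∂μ = 1) (h01 : ∫ x : ℤ → ℂ, x 0 * x 1 ∂μ = -1) :
    ∀ᵐ x ∂μ, x = altSeq 1 ∨ x = altSeq (-1) := by
  have hmeas : MeasurableSet {x : ℤ → ℂ | ∀ z : ℤ, ‖x z‖ ≤ 1} := by
    have : {x : ℤ → ℂ | ∀ z : ℤ, ‖x z‖ ≤ 1} = ⋂ z : ℤ, {x : ℤ → ℂ | ‖x z‖ ≤ 1} := by
      ext x; simp
    rw [this]
    exact MeasurableSet.iInter fun z => measurableSet_le (measurable_pi_apply z).norm measurable_const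
  have hbd : ∀ᵐ x ∂μ, ∀ z : ℤ, ‖x z‖ ≤ 1 := by
    rw [ae_iff]
    have := (prob_compl_eq_zero_iff hmeas).mpr hb
    exact this
  have h1 : ∀ᵐ x ∂μ, x 0 * x 0 = 1 := by
    refine ae_eq_one μ (fun x : ℤ → ℂ => x 0 * x 0) (by fun_prop) ?_ h00
    filter_upwards [hbd] with x hx
    rw [norm_mul]
    exact mul_le_one₀ (hx 0) (norm_nonneg _) (hx 0)
  have h2 : ∀ᵐ x ∂μ, - (x 0 * x 1) = 1 := by
    refine ae_eq_one μ (fun x : ℤ → ℂ => - (x 0 * x 1)) (by fun_prop) ?_ ?_
    · filter_upwards [hbd] with x hx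
      rw [norm_neg, norm_mul]
      exact mul_le_one₀ (hx 0) (norm_nonneg _) (hx 1)
    · rw [integral_neg, h01]; simp
  have h3 : ∀ᵐ x ∂μ, x 1 = - x 0 := by
    filter_upwards [h1, h2] with x hx1 hx2
    calc x 1 = (x 0 * x 0) * x 1 := by rw [hx1, one_mul]
      _ = x 0 * (x 0 * x 1) := by ring
      _ = - x 0 := by
        have : x 0 * x 1 = -1 := by rw [← hx2, neg_neg]
        rw [this]; ring
  have hA : ∀ k : ℤ, μ {x : ℤ → ℂ | x (k + 1) = - x k}ᶜ = 0 := by
    have hms : ∀ k : ℤ, MeasurableSet {x : ℤ → ℂ | x (k + 1) = - x k} := fun k =>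
      measurableSet_eq_fun (measurable_pi_apply _) (measurable_pi_apply k).neg
    have hpre : ∀ k : ℤ, shiftMap ⁻¹' {x : ℤ → ℂ | x (k + 1) = - x k}ᶜ
        = {x : ℤ → ℂ | x (k + 1 + 1) = - x (k + 1)}ᶜ := by
      intro k
      ext x
      simp [shiftMap]
    have hstep : ∀ k : ℤ, μ {x : ℤ → ℂ | x (k + 1 + 1) = - x (k + 1)}ᶜ
        = μ {x : ℤ → ℂ | x (k + 1) = - x k}ᶜ := by
      intro k
      rw [← hpre k]
      exact hT.measure_preimage (hms k).compl.nullMeasurableSet
    have h0 : μ {x : ℤ → ℂ | x (0 + 1) = - x 0}ᶜ = 0 := by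
      have h4 := ae_iff.mp h3
      have h5 : {x : ℤ → ℂ | x (0 + 1) = - x 0}ᶜ = {x : ℤ → ℂ | ¬ x 1 = - x 0} := by
        ext x
        simp
      rw [h5]
      exact h4
    intro k
    induction k using Int.induction_on with
    | zero => exact h0
    | succ k ih => rw [hstep]; exact ih
    | pred k ih =>
      have := hstep (-(k:ℤ) - 1)
      rw [sub_add_cancel] at this
      rw [sub_add_cancel, ← this]
      exact ih
  have hall : ∀ᵐ x ∂μ, ∀ k : ℤ, x (k + 1) = - x k := by
    rw [ae_all_iff]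
    intro k
    rw [ae_iff]
    exact hA k
  filter_upwards [h1, hall] with x hx1 hx2
  have hx3 : x = altSeq (x 0) := by
    ext k
    induction k using Int.induction_on with
    | zero => simp [altSeq]
    | succ k ih =>
      rw [hx2, ih]
      simp only [altSeq]
      rw [zpow_add₀ (by norm_num)]
      simp
    | pred k ih =>
      have := hx2 (-(k:ℤ) - 1)
      rw [sub_add_cancel] at this
      have h5 : x (-(k:ℤ) - 1) = - x (-(k:ℤ)) := by rw [this, neg_neg]
      rw [h5, ih]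
      simp only [altSeq]
      rw [zpow_sub₀ (by norm_num)]
      simp [div_neg]
  have hx4 : x 0 = 1 ∨ x 0 = -1 := mul_self_eq_one_iff.mp hx1
  rcases hx4 with h | h
  · left; rw [h] at hx3; exact hx3
  · right; rw [h] at hx3; exact hx3

lemma ergodic_of_ae_alt (μ : Measure (ℤ → ℂ)) [IsProbabilityMeasure μ]
    (hT : MeasurePreserving shiftMap μ μ)
    (h : ∀ᵐ x ∂μ, x = altSeq 1 ∨ x = altSeq (-1)) : Ergodic shiftMap μ := by
  refine ⟨hT, ⟨?_⟩⟩
  intro s hs hinv
  rw [eventuallyConst_set]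
  have hiff : altSeq 1 ∈ s ↔ altSeq (-1) ∈ s := by
    constructor
    · intro h1
      have : altSeq (-1) ∈ shiftMap ⁻¹' s := by
        rw [Set.mem_preimage, shift_altSeq, neg_neg]; exact h1
      rwa [hinv] at this
    · intro h1
      have : altSeq 1 ∈ shiftMap ⁻¹' s := by
        rw [Set.mem_preimage, shift_altSeq]; exact h1
      rwa [hinv] at this
  by_cases h1 : altSeq 1 ∈ s
  · left
    have h2 := hiff.mp h1
    filter_upwards [h] with x hx
    rcases hx with rfl | rfl
    · exact h1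
    · exact h2
  · right
    have h2 : altSeq (-1) ∉ s := fun h' => h1 (hiff.mpr h')
    filter_upwards [h] with x hx
    rcases hx with rfl | rfl
    · exact h1
    · exact h2

lemma negMulLog_le_one {t : ℝ} (h0 : 0 ≤ t) : Real.negMulLog t ≤ 1 := by
  have := Real.negMulLog_le_one_sub_self h0
  linarith

lemma entropy_of_ae_alt (μ : Measure (ℤ → ℂ)) [IsProbabilityMeasure μ]
    (h : ∀ᵐ x ∂μ, x = altSeq 1 ∨ x = altSeq (-1)) (k : ℕ) (g : (ℤ → ℂ) → Fin k) :
    Tendsto (fun n : ℕ =>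
            (∑ a : Fin n → Fin k,
              Real.negMulLog
                (μ {x | ∀ i : Fin n, g (fun z : ℤ => x (z + ((i : ℕ) : ℤ))) = a i}).toReal)
              / (n : ℝ))
          atTop (𝓝 0) := by
  classical
  have hbound : ∀ n : ℕ, 0 ≤ (∑ a : Fin n → Fin k,
      Real.negMulLog (μ {x | ∀ i : Fin n, g (fun z : ℤ => x (z + ((i : ℕ) : ℤ))) = a i}).toReal) ∧
      (∑ a : Fin n → Fin k,
      Real.negMulLog (μ {x | ∀ i : Fin n, g (fun z : ℤ => x (z + ((i : ℕ) : ℤ))) = a i}).toReal) ≤ 2 := by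
    intro n
    have hprob : ∀ A : Set (ℤ → ℂ), (μ A).toReal ≤ 1 := fun A => by
      have := prob_le_one (μ := μ) (s := A)
      exact ENNReal.toReal_le_of_le_ofReal zero_le_one (by simpa using this)
    refine ⟨Finset.sum_nonneg fun a _ => Real.negMulLog_nonneg ENNReal.toReal_nonneg (hprob _), ?_⟩
    let ap : Fin n → Fin k := fun i => g (fun z : ℤ => altSeq 1 (z + ((i : ℕ) : ℤ)))
    let am : Fin n → Fin k := fun i => g (fun z : ℤ => altSeq (-1) (z + ((i : ℕ) : ℤ)))
    have hzero : ∀ a : Fin n → Fin k, a ∉ ({ap, am} : Finset (Fin n → Fin k)) →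
        Real.negMulLog (μ {x | ∀ i : Fin n, g (fun z : ℤ => x (z + ((i : ℕ) : ℤ))) = a i}).toReal = 0 := by
      intro a ha
      simp only [Finset.mem_insert, Finset.mem_singleton, not_or] at ha
      have : μ {x | ∀ i : Fin n, g (fun z : ℤ => x (z + ((i : ℕ) : ℤ))) = a i} = 0 := by
        rw [measure_eq_zero_iff_ae_notMem]
        filter_upwards [h] with x hx hmem0
        have hmem : ∀ i : Fin n, g (fun z : ℤ => x (z + ((i : ℕ) : ℤ))) = a i := hmem0
        rcases hx with rfl | rfl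
        · exact ha.1 (funext fun i => (hmem i).symm)
        · exact ha.2 (funext fun i => (hmem i).symm)
      rw [this]; simp
    calc _ = ∑ a ∈ ({ap, am} : Finset (Fin n → Fin k)),
          Real.negMulLog (μ {x | ∀ i : Fin n, g (fun z : ℤ => x (z + ((i : ℕ) : ℤ))) = a i}).toReal := by
          symm
          refine Finset.sum_subset (Finset.subset_univ _) fun a _ ha => hzero a ha
      _ ≤ ∑ a ∈ ({ap, am} : Finset (Fin n → Fin k)), (1:ℝ) :=
          Finset.sum_le_sum fun a _ => negMulLog_le_one ENNReal.toReal_nonneg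
      _ ≤ 2 := by
          rw [Finset.sum_const, nsmul_eq_mul, mul_one]
          exact_mod_cast Finset.card_le_two
  refine squeeze_zero' (Eventually.of_forall fun n => ?_) (g := fun n : ℕ => (2:ℝ) / n) ?_ ?_
  · exact div_nonneg (hbound n).1 (Nat.cast_nonneg n)
  · exact Eventually.of_forall fun n => div_le_div_of_nonneg_right (hbound n).2 (Nat.cast_nonneg n)
  · exact tendsto_const_div_atTop_nhds_zero_nat 2

end Pool.Agent.helper80
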