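import Mathlib
import Pool.Agent.helper80.Construct
import Pool.Agent.helper80.Furst

set_option autoImplicit false
open Finset Filter Topology

namespace Pool.Agent.helper80

/-! ### The multiplicative function -/

/-- The completely multiplicative part. -/
noncomputable def gf (n : ℕ) : ℂ := G vfin n

lemma norm_gf (n : ℕ) : ‖gf n‖ = 1 := norm_G norm_vfin n

/-- The aperiodic multiplicative function. -/
noncomputable def ff (n : ℕ) : ℂ := (-1) ^ (n + 1) * gf n

lemma norm_ff (n : ℕ) : ‖ff n‖ = 1 := by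
  unfold ff
  rw [norm_mul, norm_gf, norm_pow, norm_neg, norm_one, one_pow, one_mul]

lemma ff_mul (m n : ℕ) (hm : 1 ≤ m) (hn : 1 ≤ n) (h : Nat.Coprime m n) :
    ff (m * n) = ff m * ff n := by
  unfold ff gf
  rw [G_mul _ (by omega) (by omega)]
  have h2 : ((-1 : ℂ)) ^ (m * n + 1) = (-1) ^ (m + 1) * (-1) ^ (n + 1) := by
    rw [← pow_add]
    rcases Nat.even_or_odd m with hme | hmo
    · have hno : Odd n := by
        rcases Nat.even_or_odd n with hne | hno
        · exfalso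
          have := Nat.dvd_gcd hme.two_dvd hne.two_dvd
          rw [Nat.Coprime] at h
          rw [h] at this
          omega
        · exact hno
      rw [Odd.neg_one_pow, Odd.neg_one_pow]
      · obtain ⟨a, ha⟩ := hme; obtain ⟨b, hb⟩ := hno
        exact ⟨a + b + 1, by omega⟩
      · exact (hme.mul_right n).add_one
    · rcases Nat.even_or_odd n with hne | hno
      · rw [Odd.neg_one_pow, Odd.neg_one_pow]
        · obtain ⟨a, ha⟩ := hmo; obtain ⟨b, hb⟩ := hne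
          exact ⟨a + b + 1, by omega⟩
        · exact (hne.mul_left m).add_one
      · rw [Even.neg_one_pow, Even.neg_one_pow]
        · obtain ⟨a, ha⟩ := hmo; obtain ⟨b, hb⟩ := hno
          exact ⟨a + b + 2, by omega⟩
        · exact (hmo.mul hno).add_one
  rw [h2]; ring

lemma sum_progression (a b N : ℕ) (ha : 1 ≤ a) :
    ∑ n ∈ Icc 1 N, ff (a * n + b)
      = ∑ m ∈ Icc 1 (a * N + b), gf m * (if m % a = b % a then (-1) ^ (m + 1) else 0)
        - ∑ m ∈ Icc 1 b, gf m * (if m % a = b % a then (-1) ^ (m + 1) else 0) := by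
  induction N with
  | zero => simp
  | succ N ih =>
    rw [Finset.sum_Icc_succ_top (by omega), ih]
    have h1 : Icc 1 (a * (N + 1) + b) = Icc 1 (a * N + b) ∪ Ioc (a * N + b) (a * N + b + a) := by
      ext x; simp only [Finset.mem_Icc, Finset.mem_union, Finset.mem_Ioc, Nat.mul_succ]; omega
    rw [h1, Finset.sum_union]
    · have h2 : ∑ m ∈ Ioc (a * N + b) (a * N + b + a), gf m * (if m % a = b % a then (-1) ^ (m + 1) else 0)
          = ff (a * (N + 1) + b) := by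
        rw [Finset.sum_eq_single (a * N + b + a)]
        · have h3 : (a * N + b + a) % a = b % a := by
            rw [Nat.add_mod_right, Nat.mul_add_mod]
          rw [if_pos h3]
          unfold ff
          have : a * (N + 1) + b = a * N + b + a := by ring
          rw [this]; ring
        · intro m hm hne
          simp only [Finset.mem_Ioc] at hm
          rw [if_neg, mul_zero]
          intro h4
          have h5 : (m - (a * N + b)) % a = 0 := by
            have h6 : (a * N + b) % a = b % a := Nat.mul_add_mod _ _ _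
            have h7 : m ≡ (a * N + b) [MOD a] := by
              unfold Nat.ModEq; rw [h6, h4]
            have h8 := (Nat.modEq_iff_dvd' (by omega)).mp h7.symm
            exact Nat.mod_eq_zero_of_dvd h8
          have h6 : m - (a * N + b) < a := by omega
          rw [Nat.mod_eq_of_lt h6] at h5
          omega
        · intro h; simp at h; omega
      rw [h2]; ring
    · rw [Finset.disjoint_left]
      intro x hx hx'
      simp only [Finset.mem_Icc, Finset.mem_Ioc] at hx hx'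
      omega

lemma ff_aperiodic (a b : ℕ) (ha : 1 ≤ a) :
    Tendsto (fun N : ℕ => (1 / (N : ℂ)) * ∑ n ∈ Icc 1 N, ff (a * n + b)) atTop (𝓝 0) := by
  rw [Metric.tendsto_atTop]
  intro ε hε
  simp_rw [dist_zero_right]
  set β : ℕ → ℂ := fun m => if m % a = b % a then (-1) ^ (m + 1) else 0 with hβ
  have hβ1 : ∀ n, ‖β n‖ ≤ 1 := by
    intro n
    simp only [hβ]
    split_ifs <;> simp
  have hβper : ∀ k, 2 * a ∣ k → ∀ n, β (n + k) = β n := by
    rintro k ⟨c, rfl⟩ n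
    simp only [hβ]
    have h1 : (n + 2 * a * c) % a = n % a := by
      rw [show n + 2 * a * c = n + a * (2 * c) by ring, Nat.add_mul_mod_self_left]
    rw [h1]
    have h2 : ((-1:ℂ)) ^ (n + 2 * a * c + 1) = (-1) ^ (n + 1) := by
      rw [show n + 2 * a * c + 1 = (n + 1) + 2 * (a * c) by ring, pow_add, pow_mul]
      simp
    rw [h2]
  -- choose k
  obtain ⟨q, hq⟩ := exists_nat_gt (max (2 * a : ℝ) ((6 * (a + b) / ε) ^ 2))
  have hq1 : 2 * a < q := by
    have := lt_of_le_of_lt (le_max_left _ _) hq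
    exact_mod_cast this
  have hq2 : (6 * (a + b) / ε) ^ 2 < q := lt_of_le_of_lt (le_max_right _ _) hq
  have hgood := (stageGood_vfin q).1 β hβ1 (hβper _ (Nat.dvd_factorial (by omega) (by omega)))
  obtain ⟨N0, hN0⟩ := exists_nat_gt (2 * b / ε)
  refine ⟨max (max N0 1) (stage (q + 1)).N, fun N hN => ?_⟩
  have hN1 : 1 ≤ N := (le_max_right _ _).trans ((le_max_left _ _).trans hN)
  have hN2 : N0 ≤ N := (le_max_left _ _).trans ((le_max_left _ _).trans hN)
  have hN3 : (stage (q + 1)).N ≤ N := (le_max_right _ _).trans hN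
  have hNr : (0:ℝ) < N := by exact_mod_cast hN1
  rw [sum_progression a b N ha]
  have hx : (stage (q + 1)).N ≤ a * N + b := by nlinarith
  have h1 := hgood (a * N + b) hx
  have h2 : ‖∑ m ∈ Icc 1 b, gf m * (if m % a = b % a then (-1) ^ (m + 1) else 0)‖ ≤ b := by
    refine (norm_sum_le _ _).trans ?_
    calc _ ≤ ∑ m ∈ Icc 1 b, (1:ℝ) := by
          refine Finset.sum_le_sum fun m _ => ?_
          rw [norm_mul, norm_gf, one_mul]
          exact hβ1 m
      _ = b := by simp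
  have hs : 6 * (a + b) / ε ≤ Real.sqrt ((q + 1 : ℕ) : ℝ) := by
    refine Real.le_sqrt_of_sq_le ?_
    push_cast
    linarith
  have hs0 : (0:ℝ) < Real.sqrt ((q + 1 : ℕ) : ℝ) := Real.sqrt_pos.mpr (by positivity)
  have h3 : 3 * ((a * N + b : ℕ) : ℝ) / Real.sqrt ((q + 1 : ℕ) : ℝ) ≤ N * (ε / 2) := by
    rw [div_le_iff₀ hs0]
    have h4 : ((a * N + b : ℕ) : ℝ) ≤ (a + b) * N := by
      push_cast
      have : (1:ℝ) ≤ N := by exact_mod_cast hN1
      nlinarith [Nat.cast_nonneg (α := ℝ) b]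
    have h5 : 6 * ((a:ℝ) + b) ≤ Real.sqrt ((q + 1 : ℕ) : ℝ) * ε := by
      rwa [div_le_iff₀ hε] at hs
    calc 3 * ((a * N + b : ℕ) : ℝ) ≤ 3 * ((a + b) * N) := by linarith
      _ = (N / 2) * (6 * (a + b)) := by ring
      _ ≤ (N / 2) * (Real.sqrt ((q + 1 : ℕ) : ℝ) * ε) := by gcongr
      _ = _ := by ring
  have h6 : (b:ℝ) < N * (ε / 2) := by
    have : 2 * b / ε < N := lt_of_lt_of_le hN0 (by exact_mod_cast hN2)
    rw [div_lt_iff₀ hε] at this
    linarith
  rw [norm_mul, norm_div, norm_one, Complex.norm_natCast]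
  have h7 : ‖∑ m ∈ Icc 1 (a * N + b), gf m * (if m % a = b % a then (-1) ^ (m + 1) else 0)
        - ∑ m ∈ Icc 1 b, gf m * (if m % a = b % a then (-1) ^ (m + 1) else 0)‖ < N * ε := by
    refine lt_of_le_of_lt (norm_sub_le _ _) ?_
    have h8 : ‖∑ m ∈ Icc 1 (a * N + b), gf m * (if m % a = b % a then (-1) ^ (m + 1) else 0)‖
        ≤ N * (ε / 2) := h1.trans h3
    linarith
  calc 1 / (N:ℝ) * _ < 1 / (N:ℝ) * (N * ε) := by
        have : 0 < 1 / (N:ℝ) := by positivity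
        exact mul_lt_mul_of_pos_left h7 this
    _ = ε := by field_simp

/-! ### The weight -/

lemma exists_signs (J : Finset ℕ) (S : ℕ → ℂ) : ∃ z : ℕ → ℝ, (∀ j, z j = 1 ∨ z j = -1) ∧
    (1 / 2) * ∑ j ∈ J, ‖S j‖ ≤ ‖∑ j ∈ J, (z j : ℂ) * S j‖ := by
  have h1 : ∑ j ∈ J, ‖S j‖ ≤ ∑ j ∈ J, |(S j).re| + ∑ j ∈ J, |(S j).im| := by
    rw [← Finset.sum_add_distrib]
    exact Finset.sum_le_sum fun j _ => Complex.norm_le_abs_re_add_abs_im _
  by_cases h : (1 / 2) * ∑ j ∈ J, ‖S j‖ ≤ ∑ j ∈ J, |(S j).re|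
  · refine ⟨fun j => if 0 ≤ (S j).re then 1 else -1, fun j => by dsimp only; split_ifs <;> simp, ?_⟩
    refine h.trans ?_
    refine le_trans (le_of_eq ?_) (Complex.re_le_norm _)
    rw [Complex.re_sum]
    refine Finset.sum_congr rfl fun j _ => ?_
    rw [Complex.re_ofReal_mul]
    dsimp only
    split_ifs with h0
    · rw [abs_of_nonneg h0, one_mul]
    · rw [abs_of_neg (not_le.mp h0)]; ring
  · have h' : (1 / 2) * ∑ j ∈ J, ‖S j‖ ≤ ∑ j ∈ J, |(S j).im| := by
      push Not at h; linarith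
    refine ⟨fun j => if 0 ≤ (S j).im then 1 else -1, fun j => by dsimp only; split_ifs <;> simp, ?_⟩
    refine h'.trans ?_
    refine le_trans (le_of_eq ?_) (Complex.abs_im_le_norm _ |> (le_abs_self _).trans)
    rw [Complex.im_sum]
    refine Finset.sum_congr rfl fun j _ => ?_
    rw [Complex.im_ofReal_mul]
    dsimp only
    split_ifs with h0
    · rw [abs_of_nonneg h0, one_mul]
    · rw [abs_of_neg (not_le.mp h0)]; ring

/-- Block sums. -/
noncomputable def blk (l j : ℕ) : ℂ := ∑ n ∈ Ico (j * 2 ^ (l / 2)) ((j + 1) * 2 ^ (l / 2)), gf n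

/-- Blocks of level `l`. -/
def Jset (l : ℕ) : Finset ℕ := Ico (2 ^ (l - l / 2)) (2 ^ (l - l / 2 + 1))

noncomputable def sgn (l : ℕ) : ℕ → ℝ := (exists_signs (Jset l) (blk l)).choose

lemma sgn_spec (l : ℕ) : (∀ j, sgn l j = 1 ∨ sgn l j = -1) ∧
    (1 / 2) * ∑ j ∈ Jset l, ‖blk l j‖ ≤ ‖∑ j ∈ Jset l, (sgn l j : ℂ) * blk l j‖ :=
  (exists_signs (Jset l) (blk l)).choose_spec

/-- The locally constant sign. -/
noncomputable def zeta (n : ℕ) : ℝ := sgn (Nat.log 2 n) (n / 2 ^ (Nat.log 2 n / 2))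

lemma zeta_sq (n : ℕ) : zeta n = 1 ∨ zeta n = -1 := (sgn_spec _).1 _

/-- The weight. -/
noncomputable def ww (n : ℕ) : ℂ := (-1) ^ n * (zeta n : ℂ)

lemma ww_mul_self (n : ℕ) : ww n * ww n = 1 := by
  unfold ww
  have h1 : ((-1 : ℂ)) ^ n * (-1) ^ n = 1 := by
    rw [← mul_pow]; simp
  have h2 : (zeta n : ℂ) * zeta n = 1 := by
    rcases zeta_sq n with h | h <;> rw [h] <;> simp
  calc _ = ((-1 : ℂ) ^ n * (-1) ^ n) * ((zeta n : ℂ) * zeta n) := by ring
    _ = 1 := by rw [h1, h2, one_mul]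

lemma norm_ww (n : ℕ) : ‖ww n‖ = 1 := by
  have := congrArg norm (ww_mul_self n)
  rw [norm_mul, norm_one] at this
  have h0 := norm_nonneg (ww n)
  nlinarith

lemma zeta_succ {m n : ℕ} (hn : 2 ^ (2 * m) ≤ n) (hd : ¬ 2 ^ m ∣ n + 1) : zeta (n + 1) = zeta n := by
  have hn0 : n ≠ 0 := by
    have : 0 < 2 ^ (2 * m) := by positivity
    omega
  have hlog : 2 * m ≤ Nat.log 2 n := Nat.le_log_of_pow_le (by norm_num) hn
  have h1 : Nat.log 2 (n + 1) = Nat.log 2 n := by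
    refine Nat.log_eq_of_pow_le_of_lt_pow ?_ ?_
    · exact (Nat.pow_log_le_self 2 hn0).trans (Nat.le_succ n)
    · have h2 : n < 2 ^ (Nat.log 2 n + 1) := Nat.lt_pow_succ_log_self (by norm_num) n
      rcases Nat.lt_or_ge (n + 1) (2 ^ (Nat.log 2 n + 1)) with h | h
      · exact h
      · exfalso
        have h3 : n + 1 = 2 ^ (Nat.log 2 n + 1) := by omega
        exact hd (h3 ▸ Nat.pow_dvd_pow 2 (by omega))
  unfold zeta
  rw [h1]
  congr 1
  refine Nat.succ_div_of_not_dvd ?_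
  intro h4
  exact hd ((Nat.pow_dvd_pow 2 (by omega)).trans h4)


lemma ww_corr : Tendsto (fun N : ℕ => (1 / (N : ℂ)) * ∑ n ∈ Icc 1 N, ww n * ww (n + 1)) atTop
    (𝓝 (-1)) := by
  rw [Metric.tendsto_atTop]
  intro ε hε
  obtain ⟨m, hm⟩ := exists_nat_gt (8 / ε)
  have hm2 : (m : ℝ) < 2 ^ m := by exact_mod_cast Nat.lt_two_pow_self (n := m)
  have hm3 : 8 / ε < 2 ^ m := hm.trans hm2
  obtain ⟨N0, hN0⟩ := exists_nat_gt ((4 * 2 ^ (2 * m)) / ε)
  refine ⟨max N0 1, fun N hN => ?_⟩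
  have hN1 : 1 ≤ N := (le_max_right _ _).trans hN
  have hN2 : N0 ≤ N := (le_max_left _ _).trans hN
  have hNr : (0:ℝ) < N := by exact_mod_cast hN1
  have hNc : (N:ℂ) ≠ 0 := by exact_mod_cast hNr.ne'
  have hprod : ∀ n, ww n * ww (n + 1) + 1 = ((1 - zeta n * zeta (n + 1) : ℝ) : ℂ) := by
    intro n
    unfold ww
    have h1 : ((-1 : ℂ)) ^ n * (-1) ^ (n + 1) = -1 := by
      rw [pow_succ, ← mul_assoc, ← mul_pow]; simp
    push_cast
    calc _ = ((-1 : ℂ) ^ n * (-1) ^ (n + 1)) * (zeta n * zeta (n + 1)) + 1 := by ring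
      _ = _ := by rw [h1]; ring
  have hterm : ∀ n, ‖ww n * ww (n + 1) + 1‖ ≤ (if n < 2 ^ (2 * m) then 2 else 0)
      + 2 * (if 2 ^ m ∣ n + 1 then (1:ℝ) else 0) := by
    intro n
    rw [hprod n, Complex.norm_real, Real.norm_eq_abs]
    have habs : |1 - zeta n * zeta (n + 1)| ≤ 2 := by
      rcases zeta_sq n with h | h <;> rcases zeta_sq (n + 1) with h' | h' <;> rw [h, h'] <;> norm_num
    by_cases h1 : n < 2 ^ (2 * m)
    · rw [if_pos h1]
      have : (0:ℝ) ≤ 2 * (if 2 ^ m ∣ n + 1 then (1:ℝ) else 0) := by split_ifs <;> norm_num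
      linarith
    · rw [if_neg h1]
      by_cases h2 : 2 ^ m ∣ n + 1
      · rw [if_pos h2]; linarith
      · rw [if_neg h2, zeta_succ (not_lt.mp h1) h2]
        rcases zeta_sq n with h | h <;> rw [h] <;> norm_num
  have hsum : ‖∑ n ∈ Icc 1 N, (ww n * ww (n + 1) + 1)‖ ≤ 2 * 2 ^ (2 * m) + 2 * ((N + 1) / 2 ^ m) := by
    refine (norm_sum_le _ _).trans ((Finset.sum_le_sum fun n _ => hterm n).trans ?_)
    rw [Finset.sum_add_distrib, ← Finset.mul_sum]
    have h1 : ∑ n ∈ Icc 1 N, (if n < 2 ^ (2 * m) then (2:ℝ) else 0) ≤ 2 * 2 ^ (2 * m) := by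
      rw [← Finset.sum_filter, Finset.sum_const, nsmul_eq_mul]
      have : ((Icc 1 N).filter (fun n => n < 2 ^ (2 * m))).card ≤ 2 ^ (2 * m) := by
        calc _ ≤ (range (2 ^ (2 * m))).card := by
              refine Finset.card_le_card fun n hn => ?_
              simp only [Finset.mem_filter] at hn
              exact Finset.mem_range.mpr hn.2
          _ = _ := Finset.card_range _
      have h3 : (((Icc 1 N).filter (fun n => n < 2 ^ (2 * m))).card : ℝ) ≤ 2 ^ (2 * m) := by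
        exact_mod_cast this
      linarith
    have h2 : ∑ n ∈ Icc 1 N, (if 2 ^ m ∣ n + 1 then (1:ℝ) else 0) ≤ (N + 1) / 2 ^ m := by
      have h3 : ∑ n ∈ Icc 1 N, (if 2 ^ m ∣ n + 1 then (1:ℝ) else 0)
          ≤ ∑ n ∈ Icc 1 (N + 1), (if 2 ^ m ∣ n then (1:ℝ) else 0) := by
        have h4 : ∑ n ∈ Icc 1 N, (if 2 ^ m ∣ n + 1 then (1:ℝ) else 0)
            = ∑ n ∈ (Icc 1 N).image (fun n => n + 1), (if 2 ^ m ∣ n then (1:ℝ) else 0) := by
          rw [Finset.sum_image]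
          intro a _ b _ hab
          exact Nat.succ_injective hab
        rw [h4]
        refine Finset.sum_le_sum_of_subset_of_nonneg ?_ ?_
        · intro x hx
          simp only [Finset.mem_image, Finset.mem_Icc] at hx ⊢
          omega
        · intro x _ _
          split_ifs <;> norm_num
      rw [card_dvd] at h3
      refine h3.trans ?_
      have := Nat.cast_div_le (α := ℝ) (m := N + 1) (n := 2 ^ m)
      push_cast at this
      exact this
    linarith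
  have heq : (1 / (N : ℂ)) * ∑ n ∈ Icc 1 N, ww n * ww (n + 1) - (-1)
      = (1 / (N : ℂ)) * ∑ n ∈ Icc 1 N, (ww n * ww (n + 1) + 1) := by
    rw [Finset.sum_add_distrib]
    simp only [Finset.sum_const, Nat.card_Icc, Nat.add_sub_cancel, nsmul_eq_mul, mul_one]
    field_simp
    ring
  rw [dist_eq_norm, heq, norm_mul, norm_div, norm_one, Complex.norm_natCast]
  have hp : (0:ℝ) < 2 ^ m := by positivity
  have h8 : 8 < 2 ^ m * ε := by
    rwa [div_lt_iff₀ hε] at hm3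
  have h9 : 4 * 2 ^ (2 * m) < N * ε := by
    have h10 : (4 * 2 ^ (2 * m)) / ε < N := lt_of_lt_of_le hN0 (by exact_mod_cast hN2)
    rwa [div_lt_iff₀ hε] at h10
  have h11 : ((N:ℝ) + 1) / 2 ^ m ≤ N * (ε / 4) := by
    rw [div_le_iff₀ hp]
    have : (1:ℝ) ≤ N := by exact_mod_cast hN1
    nlinarith
  calc 1 / (N:ℝ) * ‖∑ n ∈ Icc 1 N, (ww n * ww (n + 1) + 1)‖
      ≤ 1 / (N:ℝ) * (2 * 2 ^ (2 * m) + 2 * ((N + 1) / 2 ^ m)) := by gcongr
    _ < 1 / (N:ℝ) * (N * ε) := by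
        refine mul_lt_mul_of_pos_left ?_ (by positivity)
        linarith
    _ = ε := by field_simp

/-! ### Lower bound for the correlation -/

lemma sum_zeta_gf (l : ℕ) : ∑ n ∈ Ico (2 ^ l) (2 ^ (l + 1)), (zeta n : ℂ) * gf n
    = ∑ j ∈ Jset l, (sgn l j : ℂ) * blk l j := by
  have hl : l - l / 2 + l / 2 = l := by omega
  have hpos : 0 < 2 ^ (l / 2) := by positivity
  have hsplit : 2 ^ l = 2 ^ (l - l / 2) * 2 ^ (l / 2) := by rw [← pow_add, hl]
  have hsplit2 : 2 ^ (l + 1) = 2 ^ (l - l / 2 + 1) * 2 ^ (l / 2) := by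
    rw [← pow_add]; congr 1; omega
  have hmaps : ∀ n ∈ Ico (2 ^ l) (2 ^ (l + 1)), n / 2 ^ (l / 2) ∈ Jset l := by
    intro n hn
    simp only [Finset.mem_Ico] at hn
    simp only [Jset, Finset.mem_Ico]
    constructor
    · rw [Nat.le_div_iff_mul_le hpos, ← hsplit]; exact hn.1
    · rw [Nat.div_lt_iff_lt_mul hpos, ← hsplit2]; exact hn.2
  rw [← Finset.sum_fiberwise_of_maps_to hmaps]
  refine Finset.sum_congr rfl fun j hj => ?_
  have hfil : (Ico (2 ^ l) (2 ^ (l + 1))).filter (fun n => n / 2 ^ (l / 2) = j)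
      = Ico (j * 2 ^ (l / 2)) ((j + 1) * 2 ^ (l / 2)) := by
    simp only [Jset, Finset.mem_Ico] at hj
    ext n
    simp only [Finset.mem_filter, Finset.mem_Ico]
    rw [Nat.div_eq_iff hpos]
    have h1 : 2 ^ l ≤ j * 2 ^ (l / 2) := by rw [hsplit]; exact Nat.mul_le_mul_right _ hj.1
    have h2 : (j + 1) * 2 ^ (l / 2) ≤ 2 ^ (l + 1) := by rw [hsplit2]; exact Nat.mul_le_mul_right _ hj.2
    have h3 : (j + 1) * 2 ^ (l / 2) = j * 2 ^ (l / 2) + 2 ^ (l / 2) := by ring
    omega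
  rw [hfil, blk, Finset.mul_sum]
  refine Finset.sum_congr rfl fun n hn => ?_
  rw [← hfil] at hn
  simp only [Finset.mem_filter, Finset.mem_Ico] at hn
  have hlog : Nat.log 2 n = l := Nat.log_eq_of_pow_le_of_lt_pow hn.1.1 hn.1.2
  unfold zeta
  rw [hlog, hn.2]

lemma norm_ph_sub (t : ℝ) {a n : ℕ} (ha : 0 < a) (han : a ≤ n) :
    ‖ph t n - ph t a‖ ≤ |t| * ((n:ℝ) - a) / a := by
  have har : (0:ℝ) < a := by exact_mod_cast ha
  have hnr : (0:ℝ) < n := by exact_mod_cast lt_of_lt_of_le ha han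
  have h1 : ph t n = ph t a * Complex.exp (Complex.I * ((t * (Real.log n - Real.log a) : ℝ) : ℂ)) := by
    unfold ph
    rw [← Complex.exp_add]
    congr 1
    push_cast
    ring
  have h2 : ph t n - ph t a
      = ph t a * (Complex.exp (Complex.I * ((t * (Real.log n - Real.log a) : ℝ) : ℂ)) - 1) := by
    rw [h1]; ring
  rw [h2, norm_mul, norm_ph, one_mul]
  refine Real.norm_exp_I_mul_ofReal_sub_one_le.trans ?_
  rw [Real.norm_eq_abs, abs_mul]
  have h3 : |Real.log n - Real.log a| ≤ ((n:ℝ) - a) / a := by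
    rw [← Real.log_div hnr.ne' har.ne']
    have h4 : (1:ℝ) ≤ n / a := by
      rw [le_div_iff₀ har, one_mul]; exact_mod_cast han
    rw [abs_of_nonneg (Real.log_nonneg h4)]
    have h5 := Real.log_le_sub_one_of_pos (x := (n:ℝ)/a) (by positivity)
    refine h5.trans (le_of_eq ?_)
    field_simp
  calc |t| * |Real.log n - Real.log a| ≤ |t| * (((n:ℝ) - a) / a) := by gcongr
    _ = _ := by ring

lemma lower_bound (k : ℕ) : ∃ l : ℕ, (stage (k + 1)).N = 2 ^ (l + 1) ∧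
    (2 / 5) * (2:ℝ) ^ l ≤ ‖∑ n ∈ Ico (2 ^ l) (2 ^ (l + 1)), (zeta n : ℂ) * gf n‖ := by
  obtain ⟨l, hN, t, ht, hsum⟩ := (stageGood_vfin k).2
  refine ⟨l, hN, ?_⟩
  rw [hN] at hsum
  rw [sum_zeta_gf]
  refine le_trans ?_ (sgn_spec l).2
  have hl : l - l / 2 + l / 2 = l := by omega
  have hpos : 0 < 2 ^ (l / 2) := by positivity
  have hsplit : 2 ^ l = 2 ^ (l - l / 2) * 2 ^ (l / 2) := by rw [← pow_add, hl]
  have hsplit2 : 2 ^ (l + 1) = 2 ^ (l - l / 2 + 1) * 2 ^ (l / 2) := by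
    rw [← pow_add]; congr 1; omega
  -- each block
  have hblk : ∀ j ∈ Jset l, (99 / 100) * (2:ℝ) ^ (l / 2)
      - ∑ n ∈ Ico (j * 2 ^ (l / 2)) ((j + 1) * 2 ^ (l / 2)), ‖gf n - ph t n‖ ≤ ‖blk l j‖ := by
    intro j hj
    simp only [Jset, Finset.mem_Ico] at hj
    set I := Ico (j * 2 ^ (l / 2)) ((j + 1) * 2 ^ (l / 2)) with hI
    have hcard : (I.card : ℝ) = 2 ^ (l / 2) := by
      rw [hI, Nat.card_Ico]
      have : (j + 1) * 2 ^ (l / 2) - j * 2 ^ (l / 2) = 2 ^ (l / 2) := by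
        rw [← Nat.sub_mul]; simp
      rw [this]; push_cast; rfl
    set a := j * 2 ^ (l / 2) with ha
    have hj0 : 0 < j := lt_of_lt_of_le (by positivity) hj.1
    have ha0 : 0 < a := Nat.mul_pos hj0 hpos
    have h1 : ∀ n ∈ I, ‖ph t n - ph t a‖ ≤ 1 / 100 := by
      intro n hn
      simp only [hI, Finset.mem_Ico] at hn
      refine (norm_ph_sub t ha0 hn.1).trans ?_
      have har : (0:ℝ) < a := by exact_mod_cast ha0
      rw [div_le_iff₀ har]
      have h2 : ((n:ℝ) - a) ≤ 2 ^ (l / 2) := by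
        have h3 : n ≤ a + 2 ^ (l / 2) := by
          have : (j + 1) * 2 ^ (l / 2) = a + 2 ^ (l / 2) := by rw [ha]; ring
          omega
        have h4 : (n:ℝ) ≤ a + 2 ^ (l / 2) := by exact_mod_cast h3
        linarith
      have h5 : (a:ℝ) = j * 2 ^ (l / 2) := by rw [ha]; push_cast; rfl
      have h6 : 100 * |t| ≤ j := by
        have h7 : (2:ℝ) ^ (l / 2) ≤ 2 ^ (l - l / 2) := pow_le_pow_right₀ (by norm_num) (by omega)
        have h8 : ((2 ^ (l - l / 2) : ℕ) : ℝ) ≤ j := by exact_mod_cast hj.1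
        push_cast at h8
        linarith
      have h9 : |t| * ((n:ℝ) - a) ≤ |t| * 2 ^ (l / 2) := by gcongr
      have hp : (0:ℝ) < 2 ^ (l / 2) := by positivity
      rw [h5] at h9 ⊢
      nlinarith
    have h10 : (I.card : ℂ) * ph t a = blk l j - ∑ n ∈ I, (gf n - ph t n) - ∑ n ∈ I, (ph t n - ph t a) := by
      unfold blk
      rw [Finset.sum_sub_distrib, Finset.sum_sub_distrib, Finset.sum_const, nsmul_eq_mul]
      ring
    have h11 : (2:ℝ) ^ (l / 2) ≤ ‖blk l j‖ + ∑ n ∈ I, ‖gf n - ph t n‖ + (1 / 100) * 2 ^ (l / 2) := by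
      have h12 : ‖(I.card : ℂ) * ph t a‖ = 2 ^ (l / 2) := by
        rw [norm_mul, norm_ph, mul_one, Complex.norm_natCast, hcard]
      rw [← h12, h10]
      refine (norm_sub_le _ _).trans (add_le_add ((norm_sub_le _ _).trans (add_le_add le_rfl (norm_sum_le _ _))) ?_)
      refine (norm_sum_le _ _).trans ((Finset.sum_le_sum h1).trans ?_)
      rw [Finset.sum_const, nsmul_eq_mul, hcard]
      have : ‖blk l j - ∑ n ∈ I, (gf n - ph t n) - ∑ n ∈ I, (ph t n - ph t a)‖ = 2 ^ (l / 2) := by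
        rw [← h10, h12]
      rw [this]
      linarith
    linarith
  have hJcard : ((Jset l).card : ℝ) = 2 ^ (l - l / 2) := by
    rw [Jset, Nat.card_Ico]
    have : 2 ^ (l - l / 2 + 1) - 2 ^ (l - l / 2) = 2 ^ (l - l / 2) := by rw [pow_succ]; omega
    rw [this]; push_cast; rfl
  have htot : ∑ j ∈ Jset l, ∑ n ∈ Ico (j * 2 ^ (l / 2)) ((j + 1) * 2 ^ (l / 2)), ‖gf n - ph t n‖
      ≤ (1 / 100) * 2 ^ (l + 1) := by
    have hdisj : Set.PairwiseDisjoint (↑(Jset l)) (fun j : ℕ => Ico (j * 2 ^ (l / 2)) ((j + 1) * 2 ^ (l / 2))) := by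
      intro i _ j _ hij
      simp only [Function.onFun]
      rw [Finset.disjoint_left]
      intro x hx hx'
      simp only [Finset.mem_Ico] at hx hx'
      have h1 : x / 2 ^ (l / 2) = i := by
        rw [Nat.div_eq_iff hpos]
        have : (i + 1) * 2 ^ (l / 2) = i * 2 ^ (l / 2) + 2 ^ (l / 2) := by ring
        omega
      have h2 : x / 2 ^ (l / 2) = j := by
        rw [Nat.div_eq_iff hpos]
        have : (j + 1) * 2 ^ (l / 2) = j * 2 ^ (l / 2) + 2 ^ (l / 2) := by ring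
        omega
      exact hij (h1.symm.trans h2)
    rw [← Finset.sum_biUnion hdisj]
    refine (Finset.sum_le_sum_of_subset_of_nonneg ?_ (fun n _ _ => norm_nonneg _)).trans
      (hsum.trans (le_of_eq (by push_cast; ring)))
    intro x hx
    simp only [Finset.mem_biUnion, Finset.mem_Ico, Jset] at hx
    obtain ⟨j, ⟨hj1, hj2⟩, hx1, hx2⟩ := hx
    simp only [Finset.mem_Icc]
    have h1 : 2 ^ l ≤ j * 2 ^ (l / 2) := by rw [hsplit]; exact Nat.mul_le_mul_right _ hj1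
    have h2 : (j + 1) * 2 ^ (l / 2) ≤ 2 ^ (l + 1) := by rw [hsplit2]; exact Nat.mul_le_mul_right _ hj2
    have h3 : 0 < 2 ^ l := by positivity
    omega
  have h20 : (99 / 100) * (2:ℝ) ^ l - (1 / 100) * 2 ^ (l + 1) ≤ ∑ j ∈ Jset l, ‖blk l j‖ := by
    have h21 := Finset.sum_le_sum hblk
    rw [Finset.sum_sub_distrib, Finset.sum_const, nsmul_eq_mul, hJcard] at h21
    have h22 : (2:ℝ) ^ (l - l / 2) * (99 / 100 * 2 ^ (l / 2)) = 99 / 100 * 2 ^ l := by
      have : (2:ℝ) ^ l = 2 ^ (l - l / 2) * 2 ^ (l / 2) := by rw [← pow_add, hl]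
      rw [this]; ring
    rw [h22] at h21
    linarith
  rw [pow_succ] at h20
  have : (0:ℝ) < 2 ^ l := by positivity
  linarith

lemma not_tendsto :
    ¬ Tendsto (fun N : ℕ => (1 / (N : ℂ)) * ∑ n ∈ Icc 1 N, ff n * ww n) atTop (𝓝 0) := by
  intro h
  rw [Metric.tendsto_atTop] at h
  obtain ⟨N1, hN1⟩ := h (1 / 20) (by norm_num)
  obtain ⟨l, hl, hlow⟩ := lower_bound (2 * N1 + 4)
  have hlt := lt_stage_N (2 * N1 + 4 + 1)
  rw [hl] at hlt
  have hl1 : N1 + 2 < 2 ^ l := by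
    rw [pow_succ] at hlt; omega
  have hfw : ∀ n, ff n * ww n = - ((zeta n : ℂ) * gf n) := by
    intro n
    unfold ff ww
    have h1 : ((-1 : ℂ)) ^ (n + 1) * (-1) ^ n = -1 := by
      rw [pow_succ, mul_comm ((-1:ℂ)^n) (-1), mul_assoc, ← mul_pow]; simp
    calc _ = ((-1 : ℂ) ^ (n + 1) * (-1) ^ n) * (zeta n * gf n) := by ring
      _ = _ := by rw [h1]; ring
  have hb : ∀ N, N1 ≤ N → 1 ≤ N → ‖∑ n ∈ Icc 1 N, ff n * ww n‖ ≤ (1 / 20) * N := by
    intro N hN hN'
    have h1 := hN1 N hN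
    rw [dist_zero_right, norm_mul, norm_div, norm_one, Complex.norm_natCast] at h1
    have hNr : (0:ℝ) < N := by exact_mod_cast hN'
    rw [one_div, inv_mul_lt_iff₀ hNr] at h1
    linarith
  have h2 := hb (2 ^ (l + 1) - 1) (by rw [pow_succ]; omega) (by rw [pow_succ]; omega)
  have h3 := hb (2 ^ l - 1) (by omega) (by omega)
  have h4 : ∑ n ∈ Icc 1 (2 ^ (l + 1) - 1), ff n * ww n
      = ∑ n ∈ Icc 1 (2 ^ l - 1), ff n * ww n + ∑ n ∈ Ico (2 ^ l) (2 ^ (l + 1)), ff n * ww n := by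
    have h5 : Icc 1 (2 ^ (l + 1) - 1) = Icc 1 (2 ^ l - 1) ∪ Ico (2 ^ l) (2 ^ (l + 1)) := by
      ext x
      simp only [Finset.mem_Icc, Finset.mem_union, Finset.mem_Ico, pow_succ]
      omega
    rw [h5, Finset.sum_union]
    rw [Finset.disjoint_left]
    intro x hx hx'
    simp only [Finset.mem_Icc, Finset.mem_Ico] at hx hx'
    omega
  have h6 : ‖∑ n ∈ Ico (2 ^ l) (2 ^ (l + 1)), (zeta n : ℂ) * gf n‖
      = ‖∑ n ∈ Icc 1 (2 ^ (l + 1) - 1), ff n * ww n - ∑ n ∈ Icc 1 (2 ^ l - 1), ff n * ww n‖ := by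
    rw [h4, add_sub_cancel_left]
    simp_rw [hfw]
    rw [Finset.sum_neg_distrib, norm_neg]
  rw [h6] at hlow
  have h7 := norm_sub_le (∑ n ∈ Icc 1 (2 ^ (l + 1) - 1), ff n * ww n) (∑ n ∈ Icc 1 (2 ^ l - 1), ff n * ww n)
  have h8 : ((2 ^ (l + 1) - 1 : ℕ) : ℝ) ≤ 2 * 2 ^ l := by
    have : 2 ^ (l + 1) - 1 ≤ 2 * 2 ^ l := by rw [pow_succ]; omega
    exact_mod_cast this
  have h9 : ((2 ^ l - 1 : ℕ) : ℝ) ≤ 2 ^ l := by
    have : 2 ^ l - 1 ≤ 2 ^ l := Nat.sub_le _ _
    exact_mod_cast this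
  have : (0:ℝ) < 2 ^ l := by positivity
  linarith

end Pool.Agent.helper80
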